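import Pool.Agent.W_700a23_h91.FinalTD

/-! Arithmetic for the assembly (MP_700a23_co, task 2828). The lemmas do not use anything of
`FinalTD` except `NN`. -/

set_option autoImplicit false

namespace Pool.Agent.C91.Arith

theorem NN_le (e : ℕ) :
    ∃ C : ℕ, ∀ n : ℕ, NN n e ≤ C * (n ^ (e + 2) * (Nat.log 2 n + 1)) := by
  induction e with
  | zero =>
    refine ⟨40, fun n => ?_⟩
    have h1 : NN n 0 = n ^ 2 * (12 * Nat.log 2 n + 40) := by
      simp only [NN, DD, HH]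
      ring
    rw [h1]
    calc n ^ 2 * (12 * Nat.log 2 n + 40) ≤ n ^ 2 * (40 * (Nat.log 2 n + 1)) :=
          Nat.mul_le_mul_left _ (by omega)
      _ = 40 * (n ^ (0 + 2) * (Nat.log 2 n + 1)) := by ring
  | succ e ih =>
    obtain ⟨C, hC⟩ := ih
    refine ⟨2 * C + 2, fun n => ?_⟩
    rcases Nat.eq_zero_or_pos n with rfl | hn
    · simp [NN]
    · have h2 : n ^ 2 ≤ n ^ (e + 3) * (Nat.log 2 n + 1) :=
        calc n ^ 2 ≤ n ^ (e + 3) := Nat.pow_le_pow_right hn (by omega)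
          _ ≤ n ^ (e + 3) * (Nat.log 2 n + 1) := Nat.le_mul_of_pos_right _ (by omega)
      have h1 := hC n
      calc NN n (e + 1) = 2 * (n * NN n e) + 2 * n ^ 2 := by
            simp only [NN]
            ring
        _ ≤ 2 * (n * (C * (n ^ (e + 2) * (Nat.log 2 n + 1)))) +
              2 * (n ^ (e + 3) * (Nat.log 2 n + 1)) := by gcongr
        _ = (2 * C + 2) * (n ^ (e + 1 + 2) * (Nat.log 2 n + 1)) := by ring

/-- arithmetic: the total is at most `C n^d (log2 n + 1)` -/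
theorem arith (d : ℕ) (hd : 2 ≤ d) : ∃ C : ℕ, ∀ n : ℕ,
    2 * (n * (if d = 2 then 2 * DD n else 3 * NN n (d - 3) + 2 * n + 1)) + NN n (d - 2) ≤
      C * n ^ d * (Nat.log 2 n + 1) := by
  rcases Nat.eq_or_lt_of_le hd with rfl | hd3
  · refine ⟨120, fun n => ?_⟩
    have h1 : 2 * (n * (if 2 = 2 then 2 * DD n else 3 * NN n (2 - 3) + 2 * n + 1)) +
        NN n (2 - 2) = n ^ 2 * (36 * Nat.log 2 n + 120) := by
      rw [if_pos rfl]
      simp only [NN, DD, HH, Nat.sub_self]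
      ring
    rw [h1]
    calc n ^ 2 * (36 * Nat.log 2 n + 120) ≤ n ^ 2 * (120 * (Nat.log 2 n + 1)) :=
          Nat.mul_le_mul_left _ (by omega)
      _ = 120 * n ^ 2 * (Nat.log 2 n + 1) := by ring
  · obtain ⟨e, rfl⟩ : ∃ e, d = e + 3 := ⟨d - 3, by omega⟩
    obtain ⟨C, hC⟩ := NN_le e
    obtain ⟨C', hC'⟩ := NN_le (e + 1)
    refine ⟨6 * C + 6 + C', fun n => ?_⟩
    have hne : e + 3 ≠ 2 := by omega
    have h3 : e + 3 - 3 = e := by omega
    have h4 : e + 3 - 2 = e + 1 := by omega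
    rw [if_neg hne, h3, h4]
    rcases Nat.eq_zero_or_pos n with rfl | hn
    · simp [NN]
    · have h2 : n ^ 2 ≤ n ^ (e + 3) * (Nat.log 2 n + 1) :=
        calc n ^ 2 ≤ n ^ (e + 3) := Nat.pow_le_pow_right hn (by omega)
          _ ≤ n ^ (e + 3) * (Nat.log 2 n + 1) := Nat.le_mul_of_pos_right _ (by omega)
      have h5 : n ≤ n ^ (e + 3) * (Nat.log 2 n + 1) :=
        calc n = n ^ 1 := (pow_one n).symm
          _ ≤ n ^ (e + 3) := Nat.pow_le_pow_right hn (by omega)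
          _ ≤ n ^ (e + 3) * (Nat.log 2 n + 1) := Nat.le_mul_of_pos_right _ (by omega)
      have h6 := hC n
      have h7 := hC' n
      calc 2 * (n * (3 * NN n e + 2 * n + 1)) + NN n (e + 1)
          = 6 * (n * NN n e) + 4 * n ^ 2 + 2 * n + NN n (e + 1) := by ring
        _ ≤ 6 * (n * (C * (n ^ (e + 2) * (Nat.log 2 n + 1)))) +
              4 * (n ^ (e + 3) * (Nat.log 2 n + 1)) + 2 * (n ^ (e + 3) * (Nat.log 2 n + 1)) +
              C' * (n ^ (e + 1 + 2) * (Nat.log 2 n + 1)) := by gcongr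
        _ = (6 * C + 6 + C') * n ^ (e + 3) * (Nat.log 2 n + 1) := by ring

end Pool.Agent.C91.Arith
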