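import Pool.Agent.W_700a23_h91.Basic

/-! From an arbitrary dicolouring to a proper colouring of the parent graph (MP_700a23_co). -/

set_option autoImplicit false

namespace Pool.Agent.C91

open Finset

variable {n : ℕ} {κ : Type*} [DecidableEq κ] [Fintype κ]

/-- TRANSFER. PROOF. For `m = n, n-1, ..., 0` construct `c_m`, `s_m` with `Nice {v | m ≤ v} c_m s_m`,
`c_m = α` on `{v | v < m}` and a `Dic` walk of length `≤ (n - m) (D + D')` from `α` to `c_m`. Step
from `m = r + 1` to `r`: let `a = c r = α r`, `M = {v | r + 1 ≤ v}`. If `a` is not a colour of `P r`: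
`hsw` to `a`, then `hins` (`c' r = c r = a`, the roots are unchanged). If it is, choose a colour `b` not
used on `P r` (`hPc`), so `b ≠ a`, and `s ≠ a, b` (`hcard`); `hsw` to `s`, `hmv` to `b`, `hins`.
All colourings `g` on the way are in `Dic`: if `g r = a` use `hDic g (r+1)`, if `g r = b` use
`hDic g r` (the parents of `r` keep the colours `α`, `b` is not among them; parents are smaller). -/
theorem transfer (P : Fin n → Finset (Fin n)) (hP : ∀ v, ∀ p ∈ P v, p < v) (D D' : ℕ)
    (hcard : 3 ≤ Fintype.card κ) (hPc : ∀ v, (P v).card < Fintype.card κ)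
    (Nice : Finset (Fin n) → (Fin n → κ) → κ → Prop)
    (hgood : ∀ M c s, Nice M c s → Good P univ M univ c ∧ Full P univ M c s)
    (hsw : ∀ M c s t, Nice M c s → ∃ c', Nice M c' t ∧ WL (GF P univ M univ c) D c c')
    (hmv : ∀ M c s r b, Nice M c s → r ∉ M → s ≠ c r → s ≠ b → c r ≠ b →
      ∃ c', Nice M c' b ∧ c' r = b ∧
        WL (fun g => Good P univ M univ g ∧ (∀ v, v ∉ M → v ≠ r → g v = c v) ∧
          (g r = c r ∨ g r = b)) D' c c')
    (hins : ∀ M c b r, Nice M c b → r ∉ M → c r = b → (∀ p ∈ P r, c p ≠ b) →
      Nice (insert r M) c b)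
    (α : Fin n → κ) (s0 : κ) (h0 : Nice ∅ α s0) (Dic : (Fin n → κ) → Prop)
    (hDic : ∀ (g : Fin n → κ) (m : ℕ), (∀ v : Fin n, m ≤ (v : ℕ) → ∀ p ∈ P v, g p ≠ g v) →
      (∀ v : Fin n, (v : ℕ) < m → g v = α v) → Dic g) :
    ∃ β : Fin n → κ, (∀ v, ∀ p ∈ P v, β p ≠ β v) ∧ WL Dic (n * (D + D')) α β := by
  have main : ∀ k : ℕ, k ≤ n → ∃ (c : Fin n → κ) (s : κ),
      Nice (univ.filter (fun v : Fin n => n - k ≤ (v : ℕ))) c s ∧
      (∀ v : Fin n, (v : ℕ) < n - k → c v = α v) ∧ WL Dic (k * (D + D')) α c := by
    intro k
    induction k with
    | zero =>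
      intro _
      have h1 : (univ.filter (fun v : Fin n => n - 0 ≤ (v : ℕ))) = ∅ := by
        rw [Finset.filter_eq_empty_iff]
        intro v _ hv
        have := v.2
        omega
      refine ⟨α, s0, ?_, fun v _ => rfl, ?_⟩
      · rw [h1]
        exact h0
      · refine WL.refl (hDic α n ?_ (fun v _ => rfl)) _
        intro v hv
        have := v.2
        omega
    | succ k ih =>
      intro hk
      obtain ⟨c, s, hN, hc, hw⟩ := ih (by omega)
      set M := univ.filter (fun v : Fin n => n - k ≤ (v : ℕ)) with hM
      have hr : n - (k + 1) < n := by omega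
      set r : Fin n := ⟨n - (k + 1), hr⟩ with hrdef
      have hrv : (r : ℕ) = n - (k + 1) := rfl
      have hMmem : ∀ v : Fin n, v ∈ M ↔ n - k ≤ (v : ℕ) := fun v => by
        rw [hM, mem_filter]
        exact ⟨fun h => h.2, fun h => ⟨mem_univ _, h⟩⟩
      have hrM : r ∉ M := by
        rw [hMmem, hrv]
        omega
      have hins' : insert r M = univ.filter (fun v : Fin n => n - (k + 1) ≤ (v : ℕ)) := by
        ext v
        rw [mem_insert, hMmem, mem_filter, Fin.ext_iff, hrv]
        constructor
        · intro h
          refine ⟨mem_univ _, ?_⟩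
          omega
        · rintro ⟨_, h⟩
          omega
      have hlow : ∀ v : Fin n, (v : ℕ) < n - k → v ∉ M := fun v hv => by
        rw [hMmem]
        omega
      have hpar : ∀ p ∈ P r, (p : ℕ) < n - (k + 1) := fun p hp => by
        have := hP r p hp
        rw [Fin.lt_def, hrv] at this
        exact this
      have hcr : c r = α r := hc r (by rw [hrv]; omega)
      have hlen : (k + 1) * (D + D') = k * (D + D') + (D + D') := by ring
      -- colourings equal to `c` outside `M` are dicolourings
      have hD1 : ∀ g : Fin n → κ, GF P univ M univ c g → Dic g := by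
        intro g hg
        refine hDic g (n - k) ?_ ?_
        · intro v hv p hp
          exact hg.1.prop v ((hMmem v).2 hv) p hp (mem_univ _)
        · intro v hv
          rw [hg.2 v (hlow v hv)]
          exact hc v hv
      by_cases hcase : ∀ p ∈ P r, c p ≠ c r
      · obtain ⟨c', hN', hw'⟩ := hsw M c s (c r) hN
        have hc' := hw'.right.2
        refine ⟨c', c r, ?_, ?_, ?_⟩
        · rw [← hins']
          refine hins M c' (c r) r hN' hrM (hc' r hrM) ?_
          intro p hp
          rw [hc' p (hlow p (by have := hpar p hp; omega))]
          exact hcase p hp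
        · intro v hv
          rw [hc' v (hlow v (by omega))]
          exact hc v (by omega)
        · have h1 : WL Dic D c c' := hw'.mono le_rfl hD1
          exact (hw.trans h1).le (by rw [hlen]; omega)
      · push Not at hcase
        obtain ⟨q, hq, hqa⟩ := hcase
        have hb : ∃ b, b ∉ (P r).image c := by
          by_contra hcon
          push Not at hcon
          have h1 : (univ : Finset κ) ⊆ (P r).image c := fun b _ => hcon b
          have h2 := card_le_card h1
          have h3 : ((P r).image c).card ≤ (P r).card := card_image_le
          have h4 := hPc r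
          rw [card_univ] at h2
          omega
        obtain ⟨b, hb⟩ := hb
        have hb' : ∀ p ∈ P r, c p ≠ b := fun p hp h => hb (mem_image.2 ⟨p, hp, h⟩)
        have hab : c r ≠ b := fun h => hb' q hq (hqa.trans h)
        have ht : ∃ t, t ∉ ({c r, b} : Finset κ) := by
          by_contra hcon
          push Not at hcon
          have h1 : (univ : Finset κ) ⊆ {c r, b} := fun t _ => hcon t
          have h2 := card_le_card h1
          have h3 : ({c r, b} : Finset κ).card ≤ 2 := card_le_two
          rw [card_univ] at h2
          omega
        obtain ⟨t, ht⟩ := ht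
        rw [mem_insert, mem_singleton, not_or] at ht
        obtain ⟨c1, hN1, hw1⟩ := hsw M c s t hN
        have hc1 := hw1.right.2
        have hc1r : c1 r = c r := hc1 r hrM
        obtain ⟨c', hN', hc'r, hw'⟩ := hmv M c1 t r b hN1 hrM (by rw [hc1r]; exact ht.1) ht.2
          (by rw [hc1r]; exact hab)
        have hc' := hw'.right.2.1
        have hother : ∀ g : Fin n → κ, (∀ v, v ∉ M → v ≠ r → g v = c1 v) →
            ∀ v : Fin n, (v : ℕ) < n - (k + 1) → g v = c v := by
          intro g hg v hv
          have h1 : v ∉ M := hlow v (by omega)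
          have h2 : v ≠ r := by
            intro h
            rw [h, hrv] at hv
            omega
          rw [hg v h1 h2, hc1 v h1]
        refine ⟨c', b, ?_, ?_, ?_⟩
        · rw [← hins']
          refine hins M c' b r hN' hrM hc'r ?_
          intro p hp
          rw [hother c' hc' p (hpar p hp)]
          exact hb' p hp
        · intro v hv
          rw [hother c' hc' v hv]
          exact hc v (by omega)
        · have h1 : WL Dic D c c1 := hw1.mono le_rfl hD1
          have h2 : WL Dic D' c1 c' := by
            refine hw'.mono le_rfl ?_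
            rintro g ⟨hg1, hg2, hg3⟩
            rcases hg3 with hg3 | hg3
            · refine hDic g (n - k) ?_ ?_
              · intro v hv p hp
                exact hg1.prop v ((hMmem v).2 hv) p hp (mem_univ _)
              · intro v hv
                by_cases hvr : v = r
                · rw [hvr, hg3, hc1r, hcr]
                · rw [hg2 v (hlow v hv) hvr, hc1 v (hlow v hv)]
                  exact hc v hv
            · refine hDic g (n - (k + 1)) ?_ ?_
              · intro v hv p hp
                by_cases hvr : v = r
                · rw [hvr] at hp ⊢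
                  rw [hother g hg2 p (hpar p hp), hg3]
                  exact hb' p hp
                · have h3 : n - k ≤ (v : ℕ) := by
                    have h4 : (v : ℕ) ≠ n - (k + 1) := by
                      intro h4
                      exact hvr (Fin.ext (h4.trans hrv.symm))
                    omega
                  exact hg1.prop v ((hMmem v).2 h3) p hp (mem_univ _)
              · intro v hv
                rw [hother g hg2 v hv]
                exact hc v (by omega)
          exact ((hw.trans h1).trans h2).le (by rw [hlen]; omega)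
  obtain ⟨c, s, hN, hc, hw⟩ := main n le_rfl
  have hM : (univ.filter (fun v : Fin n => n - n ≤ (v : ℕ))) = univ := by
    rw [Finset.filter_eq_self]
    intro v _
    omega
  rw [hM] at hN
  refine ⟨c, ?_, hw⟩
  intro v p hp
  exact (hgood _ _ _ hN).1.prop v (mem_univ _) p hp (mem_univ _)

end Pool.Agent.C91
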