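import Pool.Agent.W_700a23_h91.Level2
import Pool.Agent.W_700a23_h91.Transfer

/-! Assembly, first part: `to_proper` and `two_dicols` (MP_700a23_co). -/

set_option autoImplicit false

namespace Pool.Agent.C91

open Finset

/-- The constants: bound for two good colourings at level `d + 2` (`N_2 = 2 n DD n`,
`N_{d+1} = 2 n (N_d + n)`). -/
def NN (n : ℕ) : ℕ → ℕ
  | 0 => 2 * (n * DD n)
  | d + 1 => 2 * (n * (NN n d + n))

theorem bd_NN {n : ℕ} {κ : Type*} [DecidableEq κ] (P : Fin n → Finset (Fin n))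
    (hP : ∀ v, ∀ p ∈ P v, p < v) (d : ℕ) : Bd κ P (d + 2) (NN n d) := by
  induction d with
  | zero => exact bd_two P hP
  | succ d ih => exact bd_succ P hP (d + 2) (NN n d) ih

private theorem lev_univ {n d : ℕ} (P : Fin n → Finset (Fin n)) (hPd : ∀ v, (P v).card ≤ d)
    (M : Finset (Fin n)) : Lev P univ M (univ : Finset (Fin (d + 2))) d where
  sub := Finset.subset_univ _
  deg := fun v _ => by rw [Finset.inter_univ]; exact hPd v
  pal := by simp

private theorem good_insert {n : ℕ} {κ : Type*} [Fintype κ] (P : Fin n → Finset (Fin n))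
    (M : Finset (Fin n)) (c : Fin n → κ) (b : κ) (r : Fin n) (h : Good P univ M univ c)
    (hr : c r = b) (hpr : ∀ p ∈ P r, c p ≠ b) : Good P univ (insert r M) univ c where
  pal := fun v _ => Finset.mem_univ _
  prop := by
    intro v hv p hp hpS
    rcases Finset.mem_insert.1 hv with rfl | hv
    · rw [hr]
      exact hpr p hp
    · exact h.prop v hv p hp hpS

private theorem full_insert {n : ℕ} {κ : Type*} (P : Fin n → Finset (Fin n))
    (M : Finset (Fin n)) (c : Fin n → κ) (b : κ) (r : Fin n) (h : Full P univ M c b)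
    (hr : c r = b) : Full P univ (insert r M) c b := by
  intro v hv hpv
  rcases Finset.mem_insert.1 hv with rfl | hv
  · exact hr
  · exact h v hv hpv

private theorem bl_insert {n : ℕ} {κ : Type*} [DecidableEq κ] [Fintype κ]
    (P : Fin n → Finset (Fin n)) (M : Finset (Fin n)) (c : Fin n → κ) (b : κ) (r : Fin n)
    (H : ℕ) (h : BL P univ M univ c b H) (hr : c r = b) : BL P univ (insert r M) univ c b H := by
  obtain ⟨e, k, h1, h2, h3⟩ := h
  refine ⟨e, k, h1, ?_, h3⟩
  have : (insert r M).filter (fun v => c v ≠ b) = M.filter (fun v => c v ≠ b) := by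
    rw [Finset.filter_insert, if_neg (by simp [hr])]
  rw [this]
  exact h2

private theorem good_empty {n : ℕ} {κ : Type*} [Fintype κ] (P : Fin n → Finset (Fin n))
    (c : Fin n → κ) : Good P univ ∅ univ c where
  pal := fun _ _ => Finset.mem_univ _
  prop := fun _ hv => absurd hv (Finset.notMem_empty _)

private theorem full_empty {n : ℕ} {κ : Type*} (P : Fin n → Finset (Fin n))
    (c : Fin n → κ) (s : κ) : Full P univ ∅ c s :=
  fun _ hv => absurd hv (Finset.notMem_empty _)

private theorem bl_empty {n : ℕ} (P : Fin n → Finset (Fin n)) (c : Fin n → Fin (2 + 2)) :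
    BL P univ ∅ univ c 0 (HH n) := by
  refine ⟨fun i => ((i : ℕ) : ZMod 3), fun v => ((((c v : ℕ) : ZMod 3)).val : ℤ), ?_, ?_, ?_⟩
  · intro a ha b hb hab
    rw [Finset.mem_coe, Finset.mem_erase] at ha hb
    have ha' := ha.1
    have hb' := hb.1
    revert ha' hb' hab
    clear ha hb
    revert a b
    decide
  · constructor
    · intro v _
      rw [Int.cast_natCast, ZMod.natCast_zmod_val]
    · intro v hv
      simp at hv
  · intro v _ _
    have h1 : (((c v : ℕ) : ZMod 3)).val < 3 := ZMod.val_lt _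
    have h2 : (((c v : ℕ) : ZMod 3)).val ≤ 3 * Nat.log 2 n + 8 := by omega
    have h3 : |((((c v : ℕ) : ZMod 3)).val : ℤ)| ≤ ((HH n : ℕ) : ℤ) := by
      rw [abs_of_nonneg (by positivity)]
      unfold HH
      exact_mod_cast h2
    exact h3

/-- every dicolouring walks to a colouring proper for the parent relation; bound for `k = d + 2`,
`d ≥ 2` (`k ≥ 4`): `transfer`. -/
theorem to_proper {n : ℕ} (d : ℕ) (hd : 2 ≤ d) (P : Fin n → Finset (Fin n))
    (hP : ∀ v, ∀ p ∈ P v, p < v) (hPd : ∀ v, (P v).card ≤ d) (α : Fin n → Fin (d + 2))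
    (Dic : (Fin n → Fin (d + 2)) → Prop)
    (hDic : ∀ (g : Fin n → Fin (d + 2)) (m : ℕ),
      (∀ v : Fin n, m ≤ (v : ℕ) → ∀ p ∈ P v, g p ≠ g v) →
      (∀ v : Fin n, (v : ℕ) < m → g v = α v) → Dic g) :
    ∃ β : Fin n → Fin (d + 2), (∀ v, ∀ p ∈ P v, β p ≠ β v) ∧
      WL Dic (n * (if d = 2 then 2 * DD n else 3 * NN n (d - 3) + 2 * n + 1)) α β := by
  have hcard : 3 ≤ Fintype.card (Fin (d + 2)) := by rw [Fintype.card_fin]; omega
  have hPc : ∀ v, (P v).card < Fintype.card (Fin (d + 2)) := by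
    intro v
    rw [Fintype.card_fin]
    have := hPd v
    omega
  obtain rfl | ⟨e, rfl⟩ : d = 2 ∨ ∃ e, d = e + 3 := by
    rcases Nat.lt_or_ge 2 d with h | h
    · exact Or.inr ⟨d - 3, by omega⟩
    · exact Or.inl (by omega)
  · rw [if_pos rfl, two_mul]
    refine transfer P hP (DD n) (DD n) hcard hPc
      (fun M c s => Good P univ M univ c ∧ Full P univ M c s ∧ BL P univ M univ c s (HH n))
      (fun M c s h => ⟨h.1, h.2.1⟩) ?_ ?_ ?_ α 0
      ⟨good_empty P α, full_empty P α 0, bl_empty P α⟩ Dic hDic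
    · intro M c s t h
      obtain ⟨c', h1, h2, h3, h4⟩ := switch2 P hP univ M univ (lev_univ P hPd M) c h.1 s
        (Finset.mem_univ _) h.2.1 h.2.2 t (Finset.mem_univ _)
      exact ⟨c', ⟨h1, h2, h3⟩, h4⟩
    · intro M c s r b h hr h1 h2 h3
      obtain ⟨c', k1, k2, k3, k4, k5⟩ := move_two P hP univ M univ (lev_univ P hPd M) c h.1 s
        (Finset.mem_univ _) h.2.1 h.2.2 r (Finset.mem_univ _) hr b (Finset.mem_univ _) h1 h2 h3
      exact ⟨c', ⟨k1, k2, k3⟩, k4, k5⟩
    · intro M c b r h _ hr hpr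
      exact ⟨good_insert P M c b r h.1 hr hpr, full_insert P M c b r h.2.1 hr,
        bl_insert P M c b r (HH n) h.2.2 hr⟩
  · have hne : ¬ (e + 3 = 2) := by omega
    rw [if_neg hne]
    have he : e + 3 - 3 = e := by omega
    rw [he]
    have hsum : 3 * NN n e + 2 * n + 1 = (NN n e + n) + (2 * NN n e + n + 1) := by ring
    rw [hsum]
    have hB : Bd (Fin (e + 3 + 2)) P (e + 2) (NN n e) := bd_NN P hP e
    refine transfer P hP (NN n e + n) (2 * NN n e + n + 1) hcard hPc
      (fun M c s => Good P univ M univ c ∧ Full P univ M c s)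
      (fun M c s h => h) ?_ ?_ ?_ α 0
      ⟨good_empty P α, full_empty P α 0⟩ Dic hDic
    · intro M c s t h
      obtain ⟨c', h1, h2, h3⟩ := switch_gen P hP (e + 2) (NN n e) hB univ M univ
        (lev_univ P hPd M) c h.1 s (Finset.mem_univ _) h.2 t (Finset.mem_univ _)
      exact ⟨c', ⟨h1, h2⟩, h3⟩
    · intro M c s r b h hr h1 h2 h3
      obtain ⟨c', k1, k2, k3, k4⟩ := move_gen P hP (e + 2) (NN n e) hB univ M univ
        (lev_univ P hPd M) c h.1 s (Finset.mem_univ _) h.2 r (Finset.mem_univ _) hr b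
        (Finset.mem_univ _) h1 h2 h3
      exact ⟨c', ⟨k1, k2⟩, k3, k4⟩
    · intro M c b r h _ hr hpr
      exact ⟨good_insert P M c b r h.1 hr hpr, full_insert P M c b r h.2 hr⟩

/-- two dicolourings: `to_proper` twice, `bd_NN` in between (a colouring proper for the parent
relation is a dicolouring, `hDic` with `m = 0`). -/
theorem two_dicols {n : ℕ} (d : ℕ) (hd : 2 ≤ d) (P : Fin n → Finset (Fin n))
    (hP : ∀ v, ∀ p ∈ P v, p < v) (hPd : ∀ v, (P v).card ≤ d) (α α' : Fin n → Fin (d + 2))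
    (Dic : (Fin n → Fin (d + 2)) → Prop)
    (hDic : ∀ (a g : Fin n → Fin (d + 2)) (m : ℕ), (a = α ∨ a = α') →
      (∀ v : Fin n, m ≤ (v : ℕ) → ∀ p ∈ P v, g p ≠ g v) →
      (∀ v : Fin n, (v : ℕ) < m → g v = a v) → Dic g) :
    WL Dic (2 * (n * (if d = 2 then 2 * DD n else 3 * NN n (d - 3) + 2 * n + 1)) +
      NN n (d - 2)) α α' := by
  obtain ⟨β, hβ, hw⟩ := to_proper d hd P hP hPd α Dic
    (fun g m h1 h2 => hDic α g m (Or.inl rfl) h1 h2)
  obtain ⟨β', hβ', hw'⟩ := to_proper d hd P hP hPd α' Dic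
    (fun g m h1 h2 => hDic α' g m (Or.inr rfl) h1 h2)
  have hB : Bd (Fin (d + 2)) P d (NN n (d - 2)) := by
    have h1 := bd_NN (κ := Fin (d + 2)) P hP (d - 2)
    have h2 : d - 2 + 2 = d := by omega
    rwa [h2] at h1
  have hgood : ∀ b : Fin n → Fin (d + 2), (∀ v, ∀ p ∈ P v, b p ≠ b v) →
      Good P univ univ univ b := fun b hb =>
    ⟨fun v _ => Finset.mem_univ _, fun v _ p hp _ => hb v p hp⟩
  have hmid := hB univ univ univ (lev_univ P hPd univ) β β' (hgood β hβ) (hgood β' hβ')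
    (fun v hv => absurd (Finset.mem_univ v) hv)
  have hmid2 : WL Dic (NN n (d - 2)) β β' := by
    refine hmid.mono (le_refl _) fun g hg => ?_
    refine hDic α g 0 (Or.inl rfl) ?_ ?_
    · intro v _ p hp
      exact hg.1.prop v (Finset.mem_univ _) p hp (Finset.mem_univ _)
    · intro v hv
      omega
  refine ((hw.trans hmid2).trans hw'.symm).le ?_
  have : ∀ x y : ℕ, x + y + x ≤ 2 * x + y := fun x y => by omega
  exact this _ _

end Pool.Agent.C91
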