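import Pool.Agent.W_700a23_h91.Digraph
import Pool.Agent.W_700a23_h91.FinalTD
import Pool.Agent.W_700a23_h91.FinalArith

/-! Assembly (MP_700a23_co). -/

set_option autoImplicit false

namespace Pool.Agent.C91

open Finset

/-- MAIN THEOREM: for every `k ≥ 4` there is `C` such that every digraph on `n` vertices with
min-degeneracy at most `k - 2` has `k`-dicolouring graph of diameter at most
`C n^(k-2) (log2 n + 1)`. -/
theorem main (k : ℕ) (hk : 4 ≤ k) : ∃ C : ℕ, ∀ (V : Type) [Fintype V] (A : V → V → Prop),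
    (∀ v, ¬ A v v) → MinDegeneracyLE A (k - 2) →
    ∀ c c' : {c : V → Fin k // IsDicol A c}, (dicolGraph A k).Reachable c c' ∧
      (dicolGraph A k).dist c c' ≤
        C * Fintype.card V ^ (k - 2) * (Nat.log 2 (Fintype.card V) + 1) := by
  obtain ⟨d, rfl⟩ : ∃ d, k = d + 2 := ⟨k - 2, by omega⟩
  have hd : 2 ≤ d := by omega
  obtain ⟨C, hC⟩ := Arith.arith d hd
  refine ⟨C, fun V _ A hA hdeg c c' => ?_⟩
  simp only [Nat.add_sub_cancel] at hdeg ⊢
  obtain ⟨e, P, hP, hPd, hcov⟩ := DigE.elimination A d hdeg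
  have h := two_dicols d hd P hP hPd (c.1 ∘ e.symm) (c'.1 ∘ e.symm)
    (fun g => IsDicol (fun x y => A (e.symm x) (e.symm y)) g)
    (by
      intro a g m ha h1 h2
      refine DigH7.dicol_of_proper _ (fun v => hA _) P hcov a g ?_ m h1 h2
      rcases ha with rfl | rfl
      · exact (DigH7.isDicol_relabel A e c.1).2 c.2
      · exact (DigH7.isDicol_relabel A e c'.1).2 c'.2)
  have h2 := DigH7.dist_of_walk A e _ c c' h
  exact ⟨h2.1, h2.2.trans (hC _)⟩

end Pool.Agent.C91
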