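import Mathlib

/-!
Basic definitions for MP_700a23_co (near-quadratic directed Cereceda).

Vertices are `Fin n`; `P v` is the set of parents of `v`, all smaller than `v`.
`S` = active vertices, `M ⊆ S` = followers (constrained and movable), `S \ M` = roots (frozen),
`X` = palette.
-/

set_option autoImplicit false

namespace Pool.Agent.C91

open Finset

/-- Walk of single vertex changes through colourings satisfying `G`, of length `m`. -/
inductive W {V κ : Type*} [DecidableEq V] (G : (V → κ) → Prop) : ℕ → (V → κ) → (V → κ) → Prop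
  | refl (c : V → κ) (h : G c) : W G 0 c c
  | step {m : ℕ} {c d : V → κ} (v : V) (a : κ) (h : W G m c d)
      (hg : G (Function.update d v a)) : W G (m + 1) c (Function.update d v a)

/-- Walk of length at most `m`. -/
def WL {V κ : Type*} [DecidableEq V] (G : (V → κ) → Prop) (m : ℕ) (c c' : V → κ) : Prop :=
  ∃ l ≤ m, W G l c c'

section walk
variable {V κ : Type*} [DecidableEq V] {G G' : (V → κ) → Prop}

theorem W.left {m : ℕ} {c d : V → κ} (h : W G m c d) : G c := by
  induction h with
  | refl c h => exact h
  | step v a h hg ih => exact ih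

theorem W.right {m : ℕ} {c d : V → κ} (h : W G m c d) : G d := by
  cases h with
  | refl c h => exact h
  | step v a h hg => exact hg

theorem W.trans {m l : ℕ} {c d e : V → κ} (h : W G m c d) (h' : W G l d e) : W G (m + l) c e := by
  induction h' with
  | refl c h1 => simpa using h
  | step v a h1 hg ih => exact W.step v a (ih h) hg

theorem W.mono {m : ℕ} {c d : V → κ} (h : W G m c d) (hG : ∀ e, G e → G' e) : W G' m c d := by
  induction h with
  | refl c h => exact W.refl c (hG _ h)
  | step v a h hg ih => exact W.step v a ih (hG _ hg)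

theorem W.single {c : V → κ} (v : V) (a : κ) (h : G c) (h' : G (Function.update c v a)) :
    W G 1 c (Function.update c v a) := W.step v a (W.refl c h) h'

theorem W.symm {m : ℕ} {c d : V → κ} (h : W G m c d) : W G m d c := by
  induction h with
  | refl c h => exact W.refl c h
  | @step m c d v a h hg ih =>
    have h1 : W G 1 (Function.update d v a) d := by
      have := W.single (G := G) (c := Function.update d v a) v (d v) hg
        (by rw [Function.update_idem, Function.update_eq_self]; exact h.right)
      rwa [Function.update_idem, Function.update_eq_self] at this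
    have := h1.trans ih
    rwa [Nat.add_comm] at this

theorem WL.refl {c : V → κ} (h : G c) (m : ℕ) : WL G m c c := ⟨0, Nat.zero_le _, W.refl c h⟩

theorem WL.left {m : ℕ} {c d : V → κ} (h : WL G m c d) : G c := by
  obtain ⟨l, _, h⟩ := h; exact h.left

theorem WL.right {m : ℕ} {c d : V → κ} (h : WL G m c d) : G d := by
  obtain ⟨l, _, h⟩ := h; exact h.right

theorem WL.symm {m : ℕ} {c d : V → κ} (h : WL G m c d) : WL G m d c := by
  obtain ⟨l, hl, h⟩ := h; exact ⟨l, hl, h.symm⟩

theorem WL.trans {m l : ℕ} {c d e : V → κ} (h : WL G m c d) (h' : WL G l d e) :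
    WL G (m + l) c e := by
  obtain ⟨a, ha, h⟩ := h
  obtain ⟨b, hb, h'⟩ := h'
  exact ⟨a + b, by omega, h.trans h'⟩

theorem WL.mono {m m' : ℕ} {c d : V → κ} (h : WL G m c d) (hm : m ≤ m')
    (hG : ∀ e, G e → G' e) : WL G' m' c d := by
  obtain ⟨a, ha, h⟩ := h
  exact ⟨a, by omega, h.mono hG⟩

theorem WL.le {m m' : ℕ} {c d : V → κ} (h : WL G m c d) (hm : m ≤ m') : WL G m' c d :=
  h.mono hm (fun _ h => h)

theorem WL.single {c : V → κ} (v : V) (a : κ) (h : G c) (h' : G (Function.update c v a)) :
    WL G 1 c (Function.update c v a) := ⟨1, le_refl _, W.single v a h h'⟩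

end walk

variable {n : ℕ} {κ : Type*}

/-- `c` is good for `(S, M)` with palette `X`: colours of active vertices are in `X`, and followers
differ from their active parents. -/
structure Good (P : Fin n → Finset (Fin n)) (S M : Finset (Fin n)) (X : Finset κ)
    (c : Fin n → κ) : Prop where
  pal : ∀ v ∈ S, c v ∈ X
  prop : ∀ v ∈ M, ∀ p ∈ P v, p ∈ S → c p ≠ c v

/-- good, and equal to `x` outside the set `M` of followers. -/
def GF (P : Fin n → Finset (Fin n)) (S M : Finset (Fin n)) (X : Finset κ) (x c : Fin n → κ) :
    Prop :=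
  Good P S M X c ∧ ∀ v, v ∉ M → c v = x v

/-- `s`-full: every follower without an active parent of colour `s` has colour `s`. -/
def Full (P : Fin n → Finset (Fin n)) (S M : Finset (Fin n)) (c : Fin n → κ) (s : κ) : Prop :=
  ∀ v ∈ M, (∀ p ∈ P v, p ∈ S → c p ≠ s) → c v = s

/-- level `d` instance: every follower has at most `d` active parents and the palette has `d + 2`
colours. -/
structure Lev (P : Fin n → Finset (Fin n)) (S M : Finset (Fin n)) (X : Finset κ) (d : ℕ) :
    Prop where
  sub : M ⊆ S
  deg : ∀ v ∈ M, (P v ∩ S).card ≤ d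
  pal : X.card = d + 2

/-- `N` bounds the distance of any two good colourings (with the same roots) of any level `d`
instance over the parent function `P`. -/
def Bd (κ : Type*) (P : Fin n → Finset (Fin n)) (d N : ℕ) : Prop :=
  ∀ (S M : Finset (Fin n)) (X : Finset κ), Lev P S M X d →
    ∀ c c' : Fin n → κ, Good P S M X c → Good P S M X c' → (∀ v, v ∉ M → c v = c' v) →
      WL (GF P S M X c) N c c'

/-- `B` is the kernel for the set of roots given by `ρ`. -/
structure IsKer (P : Fin n → Finset (Fin n)) (S M : Finset (Fin n)) (ρ : Fin n → Prop)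
    (B : Finset (Fin n)) : Prop where
  sub : B ⊆ S
  root : ∀ r ∈ S, r ∉ M → (r ∈ B ↔ ρ r)
  fol : ∀ v ∈ M, (v ∈ B ↔ ∀ p ∈ P v, p ∈ S → p ∉ B)

/-- A lift of the colouring `c` on the active set `S` (followers `M`): an integer valued function
with residues given by `e ∘ c`, changing by exactly one along every active parent edge. -/
structure Lift (P : Fin n → Finset (Fin n)) (S M : Finset (Fin n)) (e : κ → ZMod 3)
    (c : Fin n → κ) (h : Fin n → ℤ) : Prop where
  res : ∀ v ∈ S, ((h v : ℤ) : ZMod 3) = e (c v)
  adj : ∀ v ∈ M, ∀ p ∈ P v, p ∈ S → |h v - h p| = 1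

/-- functions on `Fin n` defined by strong recursion -/
theorem rec_exists {α : Type*} (F : (v : Fin n) → ((p : Fin n) → p < v → α) → α) :
    ∃ f : Fin n → α, ∀ v, f v = F v (fun p _ => f p) := by
  refine ⟨fun v => WellFounded.fix (r := fun a b : Fin n => a < b) wellFounded_lt F v, fun v => ?_⟩
  exact WellFounded.fix_eq _ F v

end Pool.Agent.C91
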