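import Pool.Agent.W_700a23_h91.Basic

/-! Double kernel colourings at level 2, first part: the forest outside two kernels, tops, parities
and pointers (MP_700a23_co). -/

set_option autoImplicit false

namespace Pool.Agent.C91

open Finset

variable {n : ℕ} {κ : Type*} [DecidableEq κ]

/-- Two kernels `A`, `B` of a level 2 instance whose root sets are disjoint. -/
structure DK (P : Fin n → Finset (Fin n)) (S M A B : Finset (Fin n)) (ρA ρB : Fin n → Prop) :
    Prop where
  hP : ∀ v, ∀ p ∈ P v, p < v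
  hM : M ⊆ S
  deg : ∀ v ∈ M, (P v ∩ S).card ≤ 2
  kA : IsKer P S M ρA A
  kB : IsKer P S M ρB B
  ex : ∀ r, ρA r → ¬ ρB r

/-- `v` is active and outside both kernels -/
def InC (S A B : Finset (Fin n)) (v : Fin n) : Prop := v ∈ S ∧ v ∉ A ∧ v ∉ B

/-- Three different active parents are too many. -/
theorem DKA_three {P : Fin n → Finset (Fin n)} {S M A B : Finset (Fin n)} {ρA ρB : Fin n → Prop}
    (h : DK P S M A B ρA ρB) {v a b c : Fin n} (hv : v ∈ M) (ha : a ∈ P v) (haS : a ∈ S)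
    (hb : b ∈ P v) (hbS : b ∈ S) (hc : c ∈ P v) (hcS : c ∈ S) (hab : a ≠ b) (hac : a ≠ c)
    (hbc : b ≠ c) : False := by
  have h1 : ({a, b, c} : Finset (Fin n)) ⊆ P v ∩ S := by
    intro x hx
    simp only [Finset.mem_insert, Finset.mem_singleton] at hx
    rcases hx with rfl | rfl | rfl
    · exact Finset.mem_inter.2 ⟨ha, haS⟩
    · exact Finset.mem_inter.2 ⟨hb, hbS⟩
    · exact Finset.mem_inter.2 ⟨hc, hcS⟩
  have h2 := Finset.card_le_card h1
  rw [Finset.card_eq_three.2 ⟨a, b, c, hab, hac, hbc, rfl⟩] at h2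
  have := h.deg v hv
  omega

/-- A follower outside `A` has an active parent in `A`. -/
theorem DKA_parA {P : Fin n → Finset (Fin n)} {S M A B : Finset (Fin n)} {ρA ρB : Fin n → Prop}
    (h : DK P S M A B ρA ρB) {v : Fin n} (hv : v ∈ M) (hvA : v ∉ A) :
    ∃ a ∈ P v, a ∈ S ∧ a ∈ A := by
  by_contra hcon
  push Not at hcon
  exact hvA ((h.kA.fol v hv).2 hcon)

/-- A follower outside `B` has an active parent in `B`. -/
theorem DKA_parB {P : Fin n → Finset (Fin n)} {S M A B : Finset (Fin n)} {ρA ρB : Fin n → Prop}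
    (h : DK P S M A B ρA ρB) {v : Fin n} (hv : v ∈ M) (hvB : v ∉ B) :
    ∃ a ∈ P v, a ∈ S ∧ a ∈ B := by
  by_contra hcon
  push Not at hcon
  exact hvB ((h.kB.fol v hv).2 hcon)

/-- A follower in `C` with a parent `p` in `C`: every other active parent is in `A ∩ B`.
PROOF: `v` has a parent `a ∈ A` and a parent `b ∈ B`; `p, a, b ∈ P v ∩ S`, `p ≠ a, b`, so `a = b` and
`P v ∩ S = {p, a}`. -/
theorem DK.other {P : Fin n → Finset (Fin n)} {S M A B : Finset (Fin n)} {ρA ρB : Fin n → Prop}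
    (h : DK P S M A B ρA ρB) {v p q : Fin n} (hv : v ∈ M) (hC : InC S A B v) (hp : p ∈ P v)
    (hpC : InC S A B p) (hq : q ∈ P v) (hqS : q ∈ S) (hqp : q ≠ p) : q ∈ A ∧ q ∈ B := by
  obtain ⟨a, ha, haS, haA⟩ := DKA_parA h hv hC.2.1
  obtain ⟨b, hb, hbS, hbB⟩ := DKA_parB h hv hC.2.2
  have hpa : p ≠ a := fun h1 => hpC.2.1 (h1 ▸ haA)
  have hpb : p ≠ b := fun h1 => hpC.2.2 (h1 ▸ hbB)
  have hab : a = b := by
    by_contra hne
    exact DKA_three h hv hp hpC.1 ha haS hb hbS hpa hpb hne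
  subst hab
  have hqa : q = a := by
    by_contra hne
    exact DKA_three h hv hp hpC.1 hq hqS ha haS (Ne.symm hqp) hpa hne
  subst hqa
  exact ⟨haA, hbB⟩

/-- Outside `A` every follower has at most one active parent outside `A`. -/
theorem DK.unique_par {P : Fin n → Finset (Fin n)} {S M A B : Finset (Fin n)}
    {ρA ρB : Fin n → Prop} (h : DK P S M A B ρA ρB) {v p q : Fin n} (hv : v ∈ M) (hvA : v ∉ A)
    (hp : p ∈ P v) (hpS : p ∈ S) (hpA : p ∉ A) (hq : q ∈ P v) (hqS : q ∈ S) (hqA : q ∉ A) :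
    p = q := by
  obtain ⟨a, ha, haS, haA⟩ := DKA_parA h hv hvA
  by_contra hne
  exact DKA_three h hv hp hpS hq hqS ha haS hne (fun h1 => hpA (h1 ▸ haA))
    (fun h1 => hqA (h1 ▸ haA))

/-- Tops and parities of the components of the forest `C`:
`top v` is the top of the component of `v`, `par v ∈ {0, 1}` the parity of the distance. -/
structure Tops (P : Fin n → Finset (Fin n)) (S M A B : Finset (Fin n)) (top : Fin n → Fin n)
    (par : Fin n → ℤ) : Prop where
  step : ∀ v ∈ M, InC S A B v → ∀ p ∈ P v, InC S A B p → top v = top p ∧ par v = 1 - par p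
  base : ∀ v, InC S A B v → (v ∉ M ∨ ∀ p ∈ P v, ¬ InC S A B p) → top v = v ∧ par v = 0
  le : ∀ v, InC S A B v → top v ≤ v
  mem : ∀ v, InC S A B v → InC S A B (top v)
  istop : ∀ v, InC S A B v → top v ∉ M ∨ ∀ p ∈ P (top v), ¬ InC S A B p
  par01 : ∀ v, par v = 0 ∨ par v = 1

/-- PROOF: `rec_exists` with `α = Fin n × ℤ` (choose the parent in `C` if there is one; it is unique
by `DK.other`), then strong induction for the last clauses. -/
theorem tops_exists {P : Fin n → Finset (Fin n)} {S M A B : Finset (Fin n)} {ρA ρB : Fin n → Prop}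
    (h : DK P S M A B ρA ρB) : ∃ top par, Tops P S M A B top par := by
  classical
  obtain ⟨f, hf⟩ := rec_exists (n := n) (α := Fin n × ℤ) (fun v g =>
    if hh : v ∈ M ∧ InC S A B v ∧ ∃ p, p ∈ P v ∧ InC S A B p then
      ((g hh.2.2.choose (h.hP v _ hh.2.2.choose_spec.1)).1,
        1 - (g hh.2.2.choose (h.hP v _ hh.2.2.choose_spec.1)).2)
    else (v, 0))
  have hstep : ∀ v ∈ M, InC S A B v → ∀ p ∈ P v, InC S A B p →
      (f v).1 = (f p).1 ∧ (f v).2 = 1 - (f p).2 := by
    intro v hv hC p hp hpC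
    have hh : v ∈ M ∧ InC S A B v ∧ ∃ p, p ∈ P v ∧ InC S A B p := ⟨hv, hC, p, hp, hpC⟩
    have h1 := hf v
    rw [dif_pos hh] at h1
    have h2 : hh.2.2.choose = p := by
      by_contra hne
      have h3 := h.other hv hC hp hpC hh.2.2.choose_spec.1 hh.2.2.choose_spec.2.1 hne
      exact hh.2.2.choose_spec.2.2.1 h3.1
    beta_reduce at h1
    rw [h2] at h1
    rw [h1]
    exact ⟨rfl, rfl⟩
  have hbase : ∀ v, InC S A B v → (v ∉ M ∨ ∀ p ∈ P v, ¬ InC S A B p) →
      (f v).1 = v ∧ (f v).2 = 0 := by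
    intro v hC h0
    have hh : ¬ (v ∈ M ∧ InC S A B v ∧ ∃ p, p ∈ P v ∧ InC S A B p) := by
      rintro ⟨h1, _, p, h2, h3⟩
      rcases h0 with h0 | h0
      · exact h0 h1
      · exact h0 p h2 h3
    have h1 := hf v
    rw [dif_neg hh] at h1
    rw [h1]
    exact ⟨rfl, rfl⟩
  have hcases : ∀ v, InC S A B v → (v ∉ M ∨ ∀ p ∈ P v, ¬ InC S A B p) ∨
      (v ∈ M ∧ ∃ p ∈ P v, InC S A B p) := by
    intro v hv
    by_cases h1 : v ∈ M
    · by_cases h2 : ∃ p ∈ P v, InC S A B p
      · exact Or.inr ⟨h1, h2⟩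
      · push Not at h2
        exact Or.inl (Or.inr h2)
    · exact Or.inl (Or.inl h1)
  have hall : ∀ v, InC S A B v → (f v).1 ≤ v ∧ InC S A B (f v).1 ∧
      ((f v).1 ∉ M ∨ ∀ p ∈ P (f v).1, ¬ InC S A B p) := by
    intro v
    induction v using WellFoundedLT.induction with
    | ind v ih =>
      intro hC
      rcases hcases v hC with h0 | ⟨hvM, p, hp, hpC⟩
      · rw [(hbase v hC h0).1]
        exact ⟨le_refl _, hC, h0⟩
      · rw [(hstep v hvM hC p hp hpC).1]
        have hlt := h.hP v p hp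
        obtain ⟨h1, h2, h3⟩ := ih p hlt hpC
        exact ⟨h1.trans hlt.le, h2, h3⟩
  have hpar : ∀ v, (f v).2 = 0 ∨ (f v).2 = 1 := by
    intro v
    induction v using WellFoundedLT.induction with
    | ind v ih =>
      have h1 := hf v
      by_cases hh : v ∈ M ∧ InC S A B v ∧ ∃ p, p ∈ P v ∧ InC S A B p
      · rw [dif_pos hh] at h1
        have h2 := ih _ (h.hP v _ hh.2.2.choose_spec.1)
        rw [h1]
        rcases h2 with h2 | h2
        · right
          simp only [h2]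
          norm_num
        · left
          simp only [h2]
          norm_num
      · rw [dif_neg hh] at h1
        rw [h1]
        exact Or.inl rfl
  exact ⟨fun v => (f v).1, fun v => (f v).2, ⟨hstep, hbase, fun v hv => (hall v hv).1,
    fun v hv => (hall v hv).2.1, fun v hv => (hall v hv).2.2, hpar⟩⟩

/-- The pointer function of the chart `A`: for a follower `v ∉ A` with its (unique) active parent
`p ∉ A`, `ν v = some (top p)` if `v ∈ B` and `par p = 1`, and `ν v = ν p` otherwise; `ν v = none` if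
there is no such parent or if `v` is a root. (`rec_exists` with `α = Option (Fin n)`; the strict
inequality is proved by strong induction using `top p ≤ p < v`.) -/
theorem ptr_exists {P : Fin n → Finset (Fin n)} {S M A B : Finset (Fin n)} {ρA ρB : Fin n → Prop}
    (h : DK P S M A B ρA ρB) {top : Fin n → Fin n} {par : Fin n → ℤ}
    (ht : Tops P S M A B top par) :
    ∃ ν : Fin n → Option (Fin n),
      (∀ v ∈ M, v ∉ A → ∀ p ∈ P v, p ∈ S → p ∉ A →
        ν v = if v ∈ B ∧ par p = 1 then some (top p) else ν p) ∧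
      (∀ v, (v ∉ M ∨ v ∈ A ∨ ∀ p ∈ P v, p ∈ S → p ∈ A) → ν v = none) ∧
      (∀ v j, ν v = some j → j < v) := by
  classical
  obtain ⟨ν, hν⟩ := rec_exists (n := n) (α := Option (Fin n)) (fun v g =>
    if hh : v ∈ M ∧ v ∉ A ∧ ∃ p, p ∈ P v ∧ p ∈ S ∧ p ∉ A then
      (if v ∈ B ∧ par hh.2.2.choose = 1 then some (top hh.2.2.choose) else
        g hh.2.2.choose (h.hP v _ hh.2.2.choose_spec.1))
    else none)
  have h1 : ∀ v ∈ M, v ∉ A → ∀ p ∈ P v, p ∈ S → p ∉ A →
      ν v = if v ∈ B ∧ par p = 1 then some (top p) else ν p := by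
    intro v hv hvA p hp hpS hpA
    have hh : v ∈ M ∧ v ∉ A ∧ ∃ p, p ∈ P v ∧ p ∈ S ∧ p ∉ A := ⟨hv, hvA, p, hp, hpS, hpA⟩
    have h2 := hν v
    rw [dif_pos hh] at h2
    have h3 : hh.2.2.choose = p :=
      h.unique_par hv hvA hh.2.2.choose_spec.1 hh.2.2.choose_spec.2.1 hh.2.2.choose_spec.2.2
        hp hpS hpA
    beta_reduce at h2
    rw [h3] at h2
    exact h2
  have h2 : ∀ v, (v ∉ M ∨ v ∈ A ∨ ∀ p ∈ P v, p ∈ S → p ∈ A) → ν v = none := by
    intro v h0
    have hh : ¬ (v ∈ M ∧ v ∉ A ∧ ∃ p, p ∈ P v ∧ p ∈ S ∧ p ∉ A) := by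
      rintro ⟨h3, h4, p, h5, h6, h7⟩
      rcases h0 with h0 | h0 | h0
      · exact h0 h3
      · exact h4 h0
      · exact h7 (h0 p h5 h6)
    have h3 := hν v
    rw [dif_neg hh] at h3
    exact h3
  refine ⟨ν, h1, h2, ?_⟩
  intro v
  induction v using WellFoundedLT.induction with
  | ind v ih =>
    intro j hj
    by_cases hh : v ∈ M ∧ v ∉ A ∧ ∃ p, p ∈ P v ∧ p ∈ S ∧ p ∉ A
    · obtain ⟨hv, hvA, p, hp, hpS, hpA⟩ := hh
      rw [h1 v hv hvA p hp hpS hpA] at hj
      have hlt := h.hP v p hp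
      split_ifs at hj with h3
      · have hpB : p ∉ B := (h.kB.fol v hv).1 h3.1 p hp hpS
        have h4 := ht.le p ⟨hpS, hpA, hpB⟩
        have h5 : top p = j := Option.some.inj hj
        rw [← h5]
        exact lt_of_le_of_lt h4 hlt
      · exact (ih p hlt j hj).trans hlt
    · have h3 := hν v
      rw [dif_neg hh] at h3
      rw [h3] at hj
      exact absurd hj (by simp)

end Pool.Agent.C91
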