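import Mathlib

/-! Signs with small path sums in two forests at the same time (MP_700a23_co). -/

set_option autoImplicit false

namespace Pool.Agent.C91

open Finset

theorem two_inv {β : Type*} (F G : Equiv.Perm β) (hF : ∀ x, F (F x) = x) (hG : ∀ x, G (G x) = x)
    (hF' : ∀ x, F x ≠ x) (hG' : ∀ x, G x ≠ x) :
    ∃ s : β → ℤ, (∀ x, s x = 1 ∨ s x = -1) ∧ (∀ x, s (F x) = - s x) ∧ (∀ x, s (G x) = - s x) := by
  classical
  set π : Equiv.Perm β := F * G with hπ
  have hconj : F * π * F⁻¹ = π⁻¹ := by
    ext x
    simp only [hπ, Equiv.Perm.mul_apply, mul_inv_rev]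
    rw [hF]
    rw [Equiv.Perm.eq_inv_iff_eq.mpr (hG _)]
  have hFz : ∀ (k : ℤ) (x : β), F ((π ^ k) x) = (π ^ (-k)) (F x) := by
    intro k x
    have h1 : F * π ^ k * F⁻¹ = π ^ (-k) := by
      rw [← conj_zpow, hconj, inv_zpow, zpow_neg]
    have h2 := congrArg (fun e : Equiv.Perm β => e (F x)) h1
    simpa [Equiv.Perm.mul_apply] using h2
  have hne : ∀ x, ¬ π.SameCycle x (F x) := by
    rintro x ⟨k, hk⟩
    rcases Int.even_or_odd' k with ⟨l, rfl | rfl⟩
    · apply hF' ((π ^ l) x)
      rw [hFz, ← hk, ← Equiv.Perm.mul_apply, ← zpow_add]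
      congr 2
      ring
    · apply hG' ((π ^ l) x)
      have h1 : G ((π ^ l) x) = F ((π ^ (l + 1)) x) := by
        rw [add_comm, zpow_add, Equiv.Perm.mul_apply, zpow_one, hπ, Equiv.Perm.mul_apply, hF]
      rw [h1, hFz, ← hk, ← Equiv.Perm.mul_apply, ← zpow_add]
      congr 2
      ring
  let Q := Quotient (Equiv.Perm.SameCycle.setoid π)
  let q : β → Q := fun x => Quotient.mk (Equiv.Perm.SameCycle.setoid π) x
  have hq : ∀ x y, q x = q y ↔ π.SameCycle x y := by
    intro x y
    exact Quotient.eq (r := Equiv.Perm.SameCycle.setoid π)
  let r : Q → Q → Prop := WellOrderingRel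
  let s : β → ℤ := fun x => if r (q x) (q (F x)) then 1 else -1
  have hs1 : ∀ x, s x = 1 ∨ s x = -1 := by
    intro x
    by_cases h : r (q x) (q (F x)) <;> simp [s, h]
  have hsF : ∀ x, s (F x) = - s x := by
    intro x
    have hxne : q x ≠ q (F x) := fun h => hne x ((hq _ _).1 h)
    simp only [s, hF]
    by_cases h : r (q x) (q (F x))
    · have h' : ¬ r (q (F x)) (q x) := fun h2 => asymm_of WellOrderingRel h h2
      simp [h, h']
    · have h' : r (q (F x)) (q x) := by
        rcases trichotomous_of WellOrderingRel (q x) (q (F x)) with h1 | h1 | h1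
        · exact absurd h1 h
        · exact absurd h1 hxne
        · exact h1
      simp [h, h']
  have hsπ : ∀ x, s (π x) = s x := by
    intro x
    have e1 : q (π x) = q x := by
      rw [hq]
      exact ⟨-1, by simp⟩
    have e2 : q (F (π x)) = q (F x) := by
      rw [hq]
      refine ⟨1, ?_⟩
      have := hFz 1 x
      rw [zpow_one] at this
      rw [this, ← Equiv.Perm.mul_apply, ← zpow_add]
      simp
    simp only [s, e1, e2]
  refine ⟨s, hs1, hsF, ?_⟩
  intro x
  have e : G x = F (π x) := by rw [hπ, Equiv.Perm.mul_apply, hF]
  rw [e, hsF, hsπ]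

/-- extension of a partial matching to a fixed point free involution of `α × Bool` -/
def ext2 {α : Type*} (μ : α → Option α) (p : α × Bool) : α × Bool :=
  match μ p.1 with
  | some y => (y, p.2)
  | none => (p.1, !p.2)

theorem ext2_some {α : Type*} (μ : α → Option α) (x y : α) (i : Bool) (h : μ x = some y) :
    ext2 μ (x, i) = (y, i) := by
  simp [ext2, h]

theorem ext2_none {α : Type*} (μ : α → Option α) (x : α) (i : Bool) (h : μ x = none) :
    ext2 μ (x, i) = (x, !i) := by
  simp [ext2, h]

theorem ext2_invol {α : Type*} (μ : α → Option α)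
    (hμ : ∀ x y, μ x = some y → μ y = some x ∧ y ≠ x) : Function.Involutive (ext2 μ) := by
  rintro ⟨x, i⟩
  rcases h : μ x with _ | y
  · rw [ext2_none μ x i h, ext2_none μ x _ h]
    simp
  · rw [ext2_some μ x y i h, ext2_some μ y x i (hμ x y h).1]

theorem ext2_ne {α : Type*} (μ : α → Option α)
    (hμ : ∀ x y, μ x = some y → μ y = some x ∧ y ≠ x) (p : α × Bool) : ext2 μ p ≠ p := by
  obtain ⟨x, i⟩ := p
  rcases h : μ x with _ | y
  · rw [ext2_none μ x i h]
    intro h2
    have := (Prod.mk.inj h2).2
    cases i <;> simp at this
  · rw [ext2_some μ x y i h]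
    intro h2
    exact (hμ x y h).2 (Prod.mk.inj h2).1

/-- Two partial matchings (given as partial involutions) on the same set have a common proper sign
function. PROOF: the union of two matchings has only paths and even cycles. One way: make both
matchings perfect and fixed point free on `α × Bool` by `F (x, i) = (y, i)` if `μ x = some y`, and
`(x, !i)` if `μ x = none` (same for `ν`, `G`). `F`, `G` are fixed point free involutions. Let
`π = F ∘ G` (a permutation). No element `x` satisfies `F x = π^k x` (`k : ℤ`): since
`F π^(2l) = π^(-l) F π^l` and `F π^(2l+1) = π^(-l) G π^l`, a fixed point of `π^(-k) F` would give a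
fixed point of `F` or `G`. So `F` maps every orbit of `π` to a different orbit; choose a linear order
on the finite set of elements and put `σ x = 1` iff the least element of the orbit of `x` is smaller
than the least element of the orbit of `F x`, else `-1`. Then `σ (F x) = - σ x`,
`σ (π x) = σ x`, hence `σ (G x) = - σ x`. Restrict to `i = false`.
(Alternatively: walk along the components, or use a theorem on bipartite graphs.) -/
theorem two_matchings {α : Type*} [Fintype α] [LinearOrder α] (μ ν : α → Option α)
    (hμ : ∀ x y, μ x = some y → μ y = some x ∧ y ≠ x)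
    (hν : ∀ x y, ν x = some y → ν y = some x ∧ y ≠ x) :
    ∃ σ : α → ℤ, (∀ x, σ x = 1 ∨ σ x = -1) ∧ (∀ x y, μ x = some y → σ y = - σ x) ∧
      (∀ x y, ν x = some y → σ y = - σ x) := by
  obtain ⟨s, h1, h2, h3⟩ := two_inv (ext2_invol μ hμ).toPerm (ext2_invol ν hν).toPerm
    (fun x => ext2_invol μ hμ x) (fun x => ext2_invol ν hν x)
    (fun x => ext2_ne μ hμ x) (fun x => ext2_ne ν hν x)
  refine ⟨fun x => s (x, false), fun x => h1 _, ?_, ?_⟩
  · intro x y h
    have := h2 (x, false)
    rw [Function.Involutive.coe_toPerm, ext2_some μ x y false h] at this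
    exact this
  · intro x y h
    have := h3 (x, false)
    rw [Function.Involutive.coe_toPerm, ext2_some ν x y false h] at this
    exact this

/-- one step to the predecessor -/
private def Stp {N : ℕ} (a : Fin N → Option (Fin N)) (x y : Fin N) : Prop := a x = some y

private theorem reach_le {N : ℕ} {a : Fin N → Option (Fin N)} (ha : ∀ k j, a k = some j → j < k)
    {x y : Fin N} (h : Relation.ReflTransGen (Stp a) x y) : y ≤ x := by
  induction h with
  | refl => exact le_refl _
  | tail _ h2 ih => exact (ha _ _ h2).le.trans ih

private noncomputable def desc {N : ℕ} (a : Fin N → Option (Fin N)) (k : Fin N) :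
    Finset (Fin N) := by
  classical
  exact Finset.univ.filter (fun j => Relation.ReflTransGen (Stp a) j k)

private theorem mem_desc {N : ℕ} {a : Fin N → Option (Fin N)} {k j : Fin N} :
    j ∈ desc a k ↔ Relation.ReflTransGen (Stp a) j k := by
  classical
  simp [desc]

private theorem desc_le {N : ℕ} (a : Fin N → Option (Fin N)) (k : Fin N) :
    (desc a k).card ≤ N := by
  have := Finset.card_le_univ (desc a k)
  simpa using this

private theorem desc_mono {N : ℕ} {a : Fin N → Option (Fin N)} {c k : Fin N}
    (h : a c = some k) : desc a c ⊆ desc a k := by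
  intro j hj
  rw [mem_desc] at hj ⊢
  exact hj.tail h

private theorem desc_self {N : ℕ} (a : Fin N → Option (Fin N)) (k : Fin N) : k ∈ desc a k := by
  rw [mem_desc]

private theorem desc_pos {N : ℕ} (a : Fin N → Option (Fin N)) (k : Fin N) :
    (desc a k).card ≠ 0 := by
  have := Finset.card_pos.2 ⟨k, desc_self a k⟩
  omega

private theorem desc_disj {N : ℕ} {a : Fin N → Option (Fin N)} (ha : ∀ k j, a k = some j → j < k)
    {c c' k : Fin N} (h : a c = some k) (h' : a c' = some k) (hne : c ≠ c') :
    (desc a c).card + (desc a c').card < (desc a k).card := by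
  classical
  have hdet : Relator.RightUnique (Stp a) := by
    intro x y z h1 h2
    exact Option.some.inj (h1.symm.trans h2)
  have key : ∀ {c c' : Fin N}, a c = some k → a c' = some k → c ≠ c' →
      ¬ Relation.ReflTransGen (Stp a) c c' := by
    intro c c' h h' hne hr
    rcases Relation.ReflTransGen.cases_head hr with h1 | ⟨d, h1, h2⟩
    · exact hne h1
    · have : d = k := Option.some.inj (h1.symm.trans h)
      subst this
      have h3 := reach_le ha h2
      have h4 := ha _ _ h'
      exact absurd h4 (not_lt.2 h3)
  have hdis : Disjoint (desc a c) (desc a c') := by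
    rw [Finset.disjoint_left]
    intro j hj hj'
    rw [mem_desc] at hj hj'
    rcases Relation.ReflTransGen.total_of_right_unique hdet hj hj' with h1 | h1
    · exact key h h' hne h1
    · exact key h' h hne.symm h1
  have hk : k ∉ desc a c ∪ desc a c' := by
    rw [Finset.mem_union, mem_desc, mem_desc]
    rintro (h1 | h1)
    · exact absurd (ha _ _ h) (not_lt.2 (reach_le ha h1))
    · exact absurd (ha _ _ h') (not_lt.2 (reach_le ha h1))
  have hsub : insert k (desc a c ∪ desc a c') ⊆ desc a k := by
    rw [Finset.insert_subset_iff]
    exact ⟨desc_self a k, Finset.union_subset (desc_mono h) (desc_mono h')⟩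
  have hc := Finset.card_le_card hsub
  rw [Finset.card_insert_of_notMem hk, Finset.card_union_of_disjoint hdis] at hc
  omega

private noncomputable def rk {N : ℕ} (a : Fin N → Option (Fin N)) (k : Fin N) : ℕ :=
  Nat.log 2 (desc a k).card

private theorem rk_le {N : ℕ} (a : Fin N → Option (Fin N)) (k : Fin N) :
    rk a k ≤ Nat.log 2 N := Nat.log_mono_right (desc_le a k)

private theorem rk_mono {N : ℕ} {a : Fin N → Option (Fin N)} {c k : Fin N}
    (h : a c = some k) : rk a c ≤ rk a k :=
  Nat.log_mono_right (Finset.card_le_card (desc_mono h))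

private theorem rk_uniq {N : ℕ} {a : Fin N → Option (Fin N)} (ha : ∀ k j, a k = some j → j < k)
    {c c' k : Fin N} (h : a c = some k) (h' : a c' = some k) (hr : rk a k = rk a c)
    (hr' : rk a k = rk a c') : c = c' := by
  by_contra hne
  have h1 := desc_disj ha h h' hne
  have h2 : 2 ^ rk a c ≤ (desc a c).card := Nat.pow_log_le_self 2 (desc_pos a c)
  have h3 : 2 ^ rk a c' ≤ (desc a c').card := Nat.pow_log_le_self 2 (desc_pos a c')
  have h4 : (desc a k).card < 2 ^ (rk a k + 1) := Nat.lt_pow_succ_log_self (by norm_num) _
  rw [← hr] at h2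
  rw [← hr'] at h3
  rw [pow_succ] at h4
  omega

/-- parity along chains -/
private noncomputable def posF {N : ℕ} (a : Fin N → Option (Fin N))
    (ha : ∀ k j, a k = some j → j < k) (F : Finset (Fin N)) (k : Fin N) : Bool := by
  classical
  exact match h : a k with
    | none => false
    | some j => if j ∈ F ∨ rk a j ≠ rk a k then false else !(posF a ha F j)
termination_by k.val
decreasing_by exact ha k j h

private theorem posF_none {N : ℕ} {a : Fin N → Option (Fin N)}
    (ha : ∀ k j, a k = some j → j < k) (F : Finset (Fin N)) {k : Fin N} (h : a k = none) :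
    posF a ha F k = false := by
  rw [posF]
  split
  · rfl
  · rename_i j hj
    rw [h] at hj
    cases hj

private theorem posF_bad {N : ℕ} {a : Fin N → Option (Fin N)}
    (ha : ∀ k j, a k = some j → j < k) (F : Finset (Fin N)) {k j : Fin N} (h : a k = some j)
    (hb : j ∈ F ∨ rk a j ≠ rk a k) : posF a ha F k = false := by
  rw [posF]
  split
  · rfl
  · rename_i j' hj'
    have : j' = j := Option.some.inj (hj'.symm.trans h)
    subst this
    rw [if_pos hb]

private theorem posF_good {N : ℕ} {a : Fin N → Option (Fin N)}
    (ha : ∀ k j, a k = some j → j < k) (F : Finset (Fin N)) {k j : Fin N} (h : a k = some j)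
    (hb : ¬ (j ∈ F ∨ rk a j ≠ rk a k)) : posF a ha F k = !(posF a ha F j) := by
  rw [posF]
  split
  · rename_i h'
    rw [h] at h'
    cases h'
  · rename_i j' hj'
    have : j' = j := Option.some.inj (hj'.symm.trans h)
    subst this
    rw [if_neg hb]

private theorem posF_true {N : ℕ} {a : Fin N → Option (Fin N)}
    (ha : ∀ k j, a k = some j → j < k) (F : Finset (Fin N)) {k : Fin N}
    (h : posF a ha F k = true) : ∃ j, a k = some j ∧ j ∉ F ∧ rk a j = rk a k ∧
      posF a ha F j = false := by
  rcases hk : a k with _ | j
  · rw [posF_none ha F hk] at h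
    cases h
  · by_cases hb : j ∈ F ∨ rk a j ≠ rk a k
    · rw [posF_bad ha F hk hb] at h
      cases h
    · have h2 := h
      rw [posF_good ha F hk hb] at h2
      push Not at hb
      refine ⟨j, rfl, hb.1, hb.2, ?_⟩
      simpa using h2

/-- Heavy chains. `a` is a partial predecessor function. There is a partial matching of the nodes
outside `F` such that every sign function which is opposite on matched pairs has path sums bounded
by `log2 N + 2`.
PROOF. `size k` = number of nodes `j` having `k` on their path (`j = k` or `k` reached from `j` by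
iterating `a`), `rank k = Nat.log 2 (size k)`. `size k ≥ 1 + sum of the sizes of the children of k`,
so `k` has at most one child of the same rank, and the rank of a child is at most the rank of `k`.
`pos k` (a parity, defined by recursion): `pos k = 0` if `a k = none` or `a k = some j` with `j ∈ F`
or `rank j ≠ rank k`; otherwise `pos k = 1 - pos j`. Match `k` with `j = a k` if `pos k = 1`
(then `pos j = 0`, and `j` has no other child of the same rank). For the path sums `J` prove by
strong induction, with `L = Nat.log 2 N + 2`, for `k ∉ F`: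
 * `pos k = 0 → |J k| ≤ L - rank k ∧ |J k - σ k| ≤ L - rank k - 1`,
 * `pos k = 1 → |J k| ≤ L - rank k - 1`,
and `|J k| = 1` for `k ∈ F` (`F` nodes have no predecessor). Note `rank k ≤ Nat.log 2 N`. -/
theorem chain_matching (N : ℕ) (a : Fin N → Option (Fin N)) (ha : ∀ k j, a k = some j → j < k)
    (F : Finset (Fin N)) (hF : ∀ k ∈ F, a k = none) :
    ∃ μ : Fin N → Option (Fin N), (∀ x y, μ x = some y → μ y = some x ∧ y ≠ x) ∧
      (∀ k ∈ F, μ k = none) ∧
      ∀ σ : Fin N → ℤ, (∀ x, σ x = 1 ∨ σ x = -1) → (∀ x y, μ x = some y → σ y = - σ x) →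
        ∀ J : Fin N → ℤ, (∀ k, a k = none → J k = σ k) →
          (∀ k j, a k = some j → J k = J j + σ k) → ∀ k, |J k| ≤ Nat.log 2 N + 2 := by
  classical
  set pos : Fin N → Bool := posF a ha F with hpos
  let μ : Fin N → Option (Fin N) := fun k =>
    if pos k = true then a k
    else if h : ∃ c, a c = some k ∧ pos c = true then some h.choose else none
  have huniq : ∀ k c c', a c = some k → pos c = true → a c' = some k → pos c' = true → c = c' := by
    intro k c c' h1 h2 h3 h4
    obtain ⟨j, hj, _, hr, _⟩ := posF_true ha F h2
    obtain ⟨j', hj', _, hr', _⟩ := posF_true ha F h4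
    have e1 : j = k := Option.some.inj (hj.symm.trans h1)
    have e2 : j' = k := Option.some.inj (hj'.symm.trans h3)
    rw [e1] at hr
    rw [e2] at hr'
    exact rk_uniq ha h1 h3 hr hr'
  have hμ1 : ∀ x, pos x = true → μ x = a x := by
    intro x hx
    simp only [μ, if_pos hx]
  have hμ2 : ∀ x c, a c = some x → pos c = true → μ x = some c := by
    intro x c h1 h2
    obtain ⟨j, hj, _, _, hp⟩ := posF_true ha F h2
    have e1 : j = x := Option.some.inj (hj.symm.trans h1)
    rw [e1] at hp
    have hp' : ¬ pos x = true := by
      rw [hpos, hp]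
      simp
    have hex : ∃ c, a c = some x ∧ pos c = true := ⟨c, h1, h2⟩
    simp only [μ, if_neg hp', dif_pos hex]
    congr 1
    exact huniq x _ _ hex.choose_spec.1 hex.choose_spec.2 h1 h2
  have hμ3 : ∀ x y, μ x = some y → (pos x = true ∧ a x = some y) ∨
      (a y = some x ∧ pos y = true) := by
    intro x y h
    by_cases hx : pos x = true
    · rw [hμ1 x hx] at h
      exact Or.inl ⟨hx, h⟩
    · by_cases hex : ∃ c, a c = some x ∧ pos c = true
      · simp only [μ, if_neg hx, dif_pos hex] at h
        have := Option.some.inj h
        rw [← this]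
        exact Or.inr hex.choose_spec
      · simp only [μ, if_neg hx, dif_neg hex] at h
        cases h
  refine ⟨μ, ?_, ?_, ?_⟩
  · intro x y h
    rcases hμ3 x y h with ⟨h1, h2⟩ | ⟨h1, h2⟩
    · exact ⟨hμ2 y x h2 h1, (ha _ _ h2).ne⟩
    · exact ⟨by rw [hμ1 y h2, h1], (ha _ _ h1).ne'⟩
  · intro k hk
    rcases hm : μ k with _ | y
    · rfl
    · exfalso
      rcases hμ3 k y hm with ⟨h1, h2⟩ | ⟨h1, h2⟩
      · rw [hF k hk] at h2
        cases h2
      · obtain ⟨j, hj, hjF, _, _⟩ := posF_true ha F h2
        have e1 : j = k := Option.some.inj (hj.symm.trans h1)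
        rw [e1] at hjF
        exact hjF hk
  · intro σ hσ hσμ J hJ0 hJ1
    have habs : ∀ x, |σ x| = 1 := by
      intro x
      rcases hσ x with h | h <;> rw [h] <;> simp
    have hJF : ∀ k ∈ F, |J k| = 1 := by
      intro k hk
      rw [hJ0 k (hF k hk), habs]
    have main : ∀ n : ℕ, ∀ k : Fin N, (k : ℕ) = n → k ∉ F →
        (|J k| ≤ (Nat.log 2 N : ℤ) + 2 - rk a k) ∧
        (pos k = false → |J k - σ k| ≤ (Nat.log 2 N : ℤ) + 2 - rk a k - 1) ∧
        (pos k = true → |J k| ≤ (Nat.log 2 N : ℤ) + 2 - rk a k - 1) := by
      intro n
      induction n using Nat.strong_induction_on with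
      | _ n ih =>
        intro k hkn hkF
        have hrk : (rk a k : ℤ) ≤ (Nat.log 2 N : ℤ) := by exact_mod_cast rk_le a k
        rcases hak : a k with _ | j
        · have h1 := hJ0 k hak
          have h2 : pos k = false := posF_none ha F hak
          refine ⟨?_, ?_, ?_⟩
          · rw [h1, habs]
            linarith
          · intro _
            rw [h1, sub_self, abs_zero]
            linarith
          · intro h3
            rw [h2] at h3
            cases h3
        · have hJk := hJ1 k j hak
          have hJs : J k - σ k = J j := by rw [hJk]; ring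
          have htri : |J k| ≤ |J j| + 1 := by
            rw [hJk, ← habs k]
            exact abs_add_le _ _
          by_cases hjF : j ∈ F
          · have h2 : pos k = false := posF_bad ha F hak (Or.inl hjF)
            have h3 := hJF j hjF
            refine ⟨?_, ?_, ?_⟩
            · linarith
            · intro _
              rw [hJs, h3]
              linarith
            · intro h4
              rw [h2] at h4
              cases h4
          · have hjlt : (j : ℕ) < n := by
              rw [← hkn]
              exact ha _ _ hak
            obtain ⟨i1, i2, i3⟩ := ih (j : ℕ) hjlt j rfl hjF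
            by_cases hr : rk a j = rk a k
            · have h2 : pos k = !(pos j) := posF_good ha F hak (by
                push Not
                exact ⟨hjF, hr⟩)
              rw [hr] at i1 i2 i3
              rcases hpj : pos j with _ | _
              · have h4 := i2 hpj
                rw [hpj] at h2
                have h5 : pos k = true := by rw [h2]; rfl
                have h6 : μ k = some j := by rw [hμ1 k h5, hak]
                have h7 := hσμ k j h6
                have h8 : J k = J j - σ j := by rw [hJk, h7]; ring
                rw [← h8] at h4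
                refine ⟨by linarith, ?_, fun _ => h4⟩
                intro h9
                rw [h5] at h9
                cases h9
              · have h4 := i3 hpj
                rw [hpj] at h2
                have h5 : pos k = false := by rw [h2]; rfl
                refine ⟨by linarith, ?_, ?_⟩
                · intro _
                  rw [hJs]
                  exact h4
                · intro h9
                  rw [h5] at h9
                  cases h9
            · have h2 : pos k = false := posF_bad ha F hak (Or.inr hr)
              have h3 : rk a k < rk a j := lt_of_le_of_ne (rk_mono hak) (fun h => hr h.symm)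
              have h3' : (rk a k : ℤ) + 1 ≤ (rk a j : ℤ) := by exact_mod_cast h3
              refine ⟨by linarith, ?_, ?_⟩
              · intro _
                rw [hJs]
                linarith
              · intro h9
                rw [h2] at h9
                cases h9
    intro k
    by_cases hk : k ∈ F
    · rw [hJF k hk]
      have : (0 : ℤ) ≤ (Nat.log 2 N : ℤ) := by positivity
      linarith
    · have h1 := (main k k rfl hk).1
      have : (0 : ℤ) ≤ (rk a k : ℤ) := by positivity
      linarith

/-- Signs with small path sums in two forests: `chain_matching` for `a` and `b`, `two_matchings`,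
then change the signs on `F` to `σ0` (nodes of `F` are unmatched in both matchings). -/
theorem two_forests (N : ℕ) (a b : Fin N → Option (Fin N)) (ha : ∀ k j, a k = some j → j < k)
    (hb : ∀ k j, b k = some j → j < k) (F : Finset (Fin N)) (hFa : ∀ k ∈ F, a k = none)
    (hFb : ∀ k ∈ F, b k = none) (σ0 : Fin N → ℤ) (hσ0 : ∀ x, σ0 x = 1 ∨ σ0 x = -1) :
    ∃ σ : Fin N → ℤ, (∀ x, σ x = 1 ∨ σ x = -1) ∧ (∀ k ∈ F, σ k = σ0 k) ∧
      (∀ J : Fin N → ℤ, (∀ k, a k = none → J k = σ k) →
          (∀ k j, a k = some j → J k = J j + σ k) → ∀ k, |J k| ≤ Nat.log 2 N + 2) ∧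
      (∀ J : Fin N → ℤ, (∀ k, b k = none → J k = σ k) →
          (∀ k j, b k = some j → J k = J j + σ k) → ∀ k, |J k| ≤ Nat.log 2 N + 2) := by
  classical
  obtain ⟨μ, hμ, hμF, hμs⟩ := chain_matching N a ha F hFa
  obtain ⟨ν, hν, hνF, hνs⟩ := chain_matching N b hb F hFb
  obtain ⟨τ, hτ, hτμ, hτν⟩ := two_matchings μ ν hμ hν
  have hout : ∀ ρ : Fin N → Option (Fin N), (∀ x y, ρ x = some y → ρ y = some x ∧ y ≠ x) →
      (∀ k ∈ F, ρ k = none) → ∀ x y, ρ x = some y → x ∉ F ∧ y ∉ F := by
    intro ρ hρ hρF x y h
    constructor
    · intro hx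
      rw [hρF x hx] at h
      cases h
    · intro hy
      have := (hρ x y h).1
      rw [hρF y hy] at this
      cases this
  refine ⟨fun k => if k ∈ F then σ0 k else τ k, ?_, ?_, ?_, ?_⟩
  · intro x
    by_cases h : x ∈ F
    · simp only [if_pos h]
      exact hσ0 x
    · simp only [if_neg h]
      exact hτ x
  · intro k hk
    simp only [if_pos hk]
  · refine hμs _ ?_ ?_
    · intro x
      by_cases h : x ∈ F
      · simp only [if_pos h]
        exact hσ0 x
      · simp only [if_neg h]
        exact hτ x
    · intro x y h
      obtain ⟨h1, h2⟩ := hout μ hμ hμF x y h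
      simp only [if_neg h1, if_neg h2]
      exact hτμ x y h
  · refine hνs _ ?_ ?_
    · intro x
      by_cases h : x ∈ F
      · simp only [if_pos h]
        exact hσ0 x
      · simp only [if_neg h]
        exact hτ x
    · intro x y h
      obtain ⟨h1, h2⟩ := hout ν hν hνF x y h
      simp only [if_neg h1, if_neg h2]
      exact hτν x y h

end Pool.Agent.C91
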