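import Pool.Agent.W_700a23_h91.Switch
import Pool.Agent.W_700a23_h91.Signs
import Pool.Agent.W_700a23_h91.DKA

/-! Double kernel colourings at level 2 (MP_700a23_co). -/

set_option autoImplicit false

namespace Pool.Agent.C91

open Finset

variable {n : ℕ} {κ : Type*} [DecidableEq κ]

/-- CHART LEMMA. The heights of the chart `A`.
PROOF. `ν` from `ptr_exists`; `a k := if InC S A B k ∧ top k = k then ν k else none` (so `a k = none`
for `k ∉ M`). Given `σ` and path sums `J` of `σ` along `a`, put `j v := 0` if `ν v = none` and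
`j v := J k` if `ν v = some k`, and `h v := 3 * j v` if `v ∈ B`, `h v := 3 * j v + σ (top v) *
(1 + par v)` otherwise. First show `ν v = ν (top v)` for `v` in `C` (strong induction), hence
`J (top p) = j p + σ (top p)` for `p` in `C`. Adjacent heights, `v ∈ M \ A` with parent `p ∉ A`:
 * `v ∈ B`: then `p` is in `C` (`IsKer.par_notMem`); if `par p = 1`: `h v - h p = 3 (j p + σ) - 3 j p
   - 2 σ = σ`, if `par p = 0`: `h v - h p = - σ`;
 * `v ∉ B`, `p ∈ B`: `v` is in `C` and has no parent in `C` (`DK.unique_par`), so `top v = v`,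
   `par v = 0`, `h v - h p = σ v`;
 * `v ∉ B`, `p ∉ B`: same top, parities different: `h v - h p = ± σ`. -/
theorem chart {P : Fin n → Finset (Fin n)} {S M A B : Finset (Fin n)} {ρA ρB : Fin n → Prop}
    (h : DK P S M A B ρA ρB) {top : Fin n → Fin n} {par : Fin n → ℤ}
    (ht : Tops P S M A B top par) :
    ∃ a : Fin n → Option (Fin n), (∀ k j, a k = some j → j < k) ∧ (∀ k, k ∉ M → a k = none) ∧
      ∀ σ : Fin n → ℤ, (∀ k, σ k = 1 ∨ σ k = -1) → ∀ J : Fin n → ℤ,
        (∀ k, a k = none → J k = σ k) → (∀ k j, a k = some j → J k = J j + σ k) →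
        ∀ L : ℕ, (∀ k, |J k| ≤ L) →
        ∃ H : Fin n → ℤ, (∀ v ∈ S, v ∉ A → |H v| ≤ 3 * L + 2) ∧
          (∀ v ∈ M, v ∉ A → ∀ p ∈ P v, p ∈ S → p ∉ A → |H v - H p| = 1) ∧
          (∀ v ∈ S, v ∉ A → v ∈ B → ((H v : ℤ) : ZMod 3) = 0) ∧
          (∀ v, InC S A B v → ((H v : ℤ) : ZMod 3) = ((σ (top v) * (1 + par v) : ℤ) : ZMod 3)) := by
  classical
  obtain ⟨ν, hν1, hν2, hν3⟩ := ptr_exists h ht
  refine ⟨fun k => if InC S A B k ∧ top k = k then ν k else none, ?_, ?_, ?_⟩
  · intro k j hk
    simp only at hk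
    split_ifs at hk with hc
    exact hν3 k j hk
  · intro k hk
    simp only
    split_ifs with hc
    · exact hν2 k (Or.inl hk)
    · rfl
  intro σ hσ J hJ0 hJ1 L hL
  -- pointers are constant on the components
  have K1 : ∀ m : ℕ, ∀ v : Fin n, (v : ℕ) = m → InC S A B v → ν v = ν (top v) := by
    intro m
    induction m using Nat.strong_induction_on with
    | _ m ih =>
      intro v hvm hv
      by_cases hc : v ∈ M ∧ ∃ p ∈ P v, InC S A B p
      · obtain ⟨hvM, p, hp, hpC⟩ := hc
        have h1 := (ht.step v hvM hv p hp hpC).1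
        have h2 := hν1 v hvM hv.2.1 p hp hpC.1 hpC.2.1
        rw [if_neg (fun hh => hv.2.2 hh.1)] at h2
        have h3 : (p : ℕ) < m := by
          have := h.hP v p hp
          rw [← hvm]
          exact this
        rw [h2, ih p h3 p rfl hpC, h1]
      · have h1 : v ∉ M ∨ ∀ p ∈ P v, ¬ InC S A B p := by
          by_cases hvM : v ∈ M
          · exact Or.inr fun p hp hpC => hc ⟨hvM, p, hp, hpC⟩
          · exact Or.inl hvM
        rw [(ht.base v hv h1).1]
  set jf : Fin n → ℤ := fun v => (ν v).elim 0 J with hjf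
  have hj0 : ∀ v, ν v = none → jf v = 0 := by
    intro v hv
    simp [hjf, hv]
  have hj1 : ∀ v k, ν v = some k → jf v = J k := by
    intro v k hv
    simp [hjf, hv]
  have K2 : ∀ p, InC S A B p → J (top p) = jf p + σ (top p) := by
    intro p hp
    have h1 : InC S A B (top p) ∧ top (top p) = top p :=
      ⟨ht.mem p hp, (ht.base (top p) (ht.mem p hp) (ht.istop p hp)).1⟩
    have h2 : (fun k => if InC S A B k ∧ top k = k then ν k else none) (top p) = ν p := by
      simp only
      rw [if_pos h1, K1 _ p rfl hp]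
    rcases hc : ν p with _ | k
    · rw [hj0 p hc, zero_add]
      exact hJ0 _ (h2.trans hc)
    · rw [hj1 p k hc]
      exact hJ1 _ k (h2.trans hc)
  have K3 : ∀ v, |jf v| ≤ L := by
    intro v
    rcases hc : ν v with _ | k
    · rw [hj0 v hc]
      simp
    · rw [hj1 v k hc]
      exact hL k
  have hpar : ∀ v, jf v = jf v := fun _ => rfl
  have hjeq : ∀ v p, ν v = ν p → jf v = jf p := by
    intro v p hvp
    simp [hjf, hvp]
  refine ⟨fun v => if v ∈ B then 3 * jf v else 3 * jf v + σ (top v) * (1 + par v),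
    ?_, ?_, ?_, ?_⟩
  · intro v _ _
    have h3 := abs_le.1 (K3 v)
    simp only
    rw [abs_le]
    split_ifs with hb
    · constructor <;> linarith [h3.1, h3.2]
    · rcases hσ (top v) with hs | hs <;> rcases ht.par01 v with hp | hp <;> rw [hs, hp] <;>
        constructor <;> linarith [h3.1, h3.2]
  · intro v hvM hvA p hp hpS hpA
    have hν := hν1 v hvM hvA p hp hpS hpA
    simp only
    by_cases hvB : v ∈ B
    · have hpB : p ∉ B := h.kB.par_notMem hvM hvB hp
      have hpC : InC S A B p := ⟨hpS, hpA, hpB⟩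
      rw [if_pos hvB, if_neg hpB]
      rcases ht.par01 p with h0 | h0
      · rw [if_neg (by rw [h0]; simp)] at hν
        rw [hjeq v p hν, h0]
        rcases hσ (top p) with hs | hs <;> rw [hs] <;> norm_num
      · rw [if_pos ⟨hvB, h0⟩] at hν
        rw [hj1 v _ hν, K2 p hpC, h0]
        rcases hσ (top p) with hs | hs <;> rw [hs] <;> ring_nf <;> norm_num
    · rw [if_neg (fun hh => hvB hh.1)] at hν
      have hvC : InC S A B v := ⟨h.hM hvM, hvA, hvB⟩
      by_cases hpB : p ∈ B
      · have h1 : v ∉ M ∨ ∀ q ∈ P v, ¬ InC S A B q := by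
          refine Or.inr fun q hq hqC => ?_
          have := h.unique_par hvM hvA hp hpS hpA hq hqC.1 hqC.2.1
          rw [this] at hpB
          exact hqC.2.2 hpB
        obtain ⟨h2, h3⟩ := ht.base v hvC h1
        rw [if_neg hvB, if_pos hpB, hjeq v p hν, h3]
        rcases hσ (top v) with hs | hs <;> rw [hs] <;> norm_num
      · have hpC : InC S A B p := ⟨hpS, hpA, hpB⟩
        obtain ⟨h2, h3⟩ := ht.step v hvM hvC p hp hpC
        rw [if_neg hvB, if_neg hpB, hjeq v p hν, h2, h3]
        rcases hσ (top p) with hs | hs <;> rcases ht.par01 p with h0 | h0 <;> rw [hs, h0] <;>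
          ring_nf <;> norm_num
  · intro v _ _ hvB
    simp only
    rw [if_pos hvB]
    push_cast
    have : (3 : ZMod 3) = 0 := by decide
    rw [this, zero_mul]
  · intro v hvC
    simp only
    rw [if_neg hvC.2.2]
    push_cast
    have : (3 : ZMod 3) = 0 := by decide
    rw [this, zero_mul, zero_add]

/-- outside the class of `s` the colouring `c` has a lift bounded by `H` -/
def BL (P : Fin n → Finset (Fin n)) (S M : Finset (Fin n)) (X : Finset κ) (c : Fin n → κ) (s : κ)
    (H : ℕ) : Prop :=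
  ∃ (e : κ → ZMod 3) (h : Fin n → ℤ), Set.InjOn e ((X.erase s : Finset κ) : Set κ) ∧
    Lift P (S.filter (fun v => c v ≠ s)) (M.filter (fun v => c v ≠ s)) e c h ∧
    ∀ v ∈ S, c v ≠ s → |h v| ≤ H

/-- the bound for the heights -/
def HH (n : ℕ) : ℕ := 3 * Nat.log 2 n + 8

end Pool.Agent.C91
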