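import Pool.Agent.W_700a23_h91.DK

/-! Assembly of the double kernel colouring (MP_700a23_co), from `tops_exists`, `chart`,
`two_forests`. -/

set_option autoImplicit false

namespace Pool.Agent.C91.DKDouble

open Finset Pool.Agent.C91

variable {n : ℕ} {κ : Type*} [DecidableEq κ]

theorem inC_comm {S A B : Finset (Fin n)} {v : Fin n} : InC S B A v ↔ InC S A B v := by
  unfold InC
  tauto

theorem tops_comm {P : Fin n → Finset (Fin n)} {S M A B : Finset (Fin n)} {top : Fin n → Fin n}
    {par : Fin n → ℤ} (h : Tops P S M A B top par) : Tops P S M B A top par := by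
  refine ⟨?_, ?_, ?_, ?_, ?_, h.par01⟩
  · intro v hv hC p hp hpC
    exact h.step v hv (inC_comm.1 hC) p hp (inC_comm.1 hpC)
  · intro v hC hv
    exact h.base v (inC_comm.1 hC) (hv.imp id fun h1 p hp hpC => h1 p hp (inC_comm.2 hpC))
  · intro v hC
    exact h.le v (inC_comm.1 hC)
  · intro v hC
    exact inC_comm.2 (h.mem v (inC_comm.1 hC))
  · intro v hC
    exact (h.istop v (inC_comm.1 hC)).imp id fun h1 p hp hpC => h1 p hp (inC_comm.1 hpC)

/-- path sums exist -/
theorem sums_exist (a : Fin n → Option (Fin n)) (ha : ∀ k j, a k = some j → j < k)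
    (σ : Fin n → ℤ) :
    ∃ J : Fin n → ℤ, (∀ k, a k = none → J k = σ k) ∧
      (∀ k j, a k = some j → J k = J j + σ k) := by
  obtain ⟨J, hJ⟩ := rec_exists (α := ℤ) (n := n) (fun v ih =>
    match h : a v with
    | none => σ v
    | some j => ih j (ha v j h) + σ v)
  refine ⟨J, fun k hk => ?_, fun k j hk => ?_⟩
  · rw [hJ k]
    split
    · rfl
    · rename_i j h
      rw [hk] at h
      cases h
  · rw [hJ k]
    split
    · rename_i h
      rw [hk] at h
      cases h
    · rename_i j' h
      rw [hk] at h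
      have h1 : j = j' := Option.some.inj h
      rw [h1]

/-- DOUBLE KERNEL COLOURING. -/
theorem double_kernel (P : Fin n → Finset (Fin n)) (hP : ∀ v, ∀ p ∈ P v, p < v)
    (S M : Finset (Fin n)) (hM : M ⊆ S) (hdeg : ∀ v ∈ M, (P v ∩ S).card ≤ 2) (X : Finset κ)
    (s t u w : κ) (hX : X = {s, t, u, w}) (hst : s ≠ t) (hsu : s ≠ u) (hsw : s ≠ w) (htu : t ≠ u)
    (htw : t ≠ w) (huw : u ≠ w) (x : Fin n → κ) (hx : ∀ r ∈ S, r ∉ M → x r ∈ X)
    (A B : Finset (Fin n)) (hA : IsKer P S M (fun r => x r = s) A)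
    (hB : IsKer P S M (fun r => x r = t) B) :
    ∃ c : Fin n → κ, GF P S M X x c ∧ (∀ v ∈ S, (c v = s ↔ v ∈ A)) ∧
      (∀ v ∈ S, v ∉ A → (c v = t ↔ v ∈ B)) ∧ BL P S M X c s (HH n) ∧
      BL P S M X (fun v => if v ∈ M ∩ A ∩ B then t else c v) t (HH n) := by
  classical
  have hAB : DK P S M A B (fun r => x r = s) (fun r => x r = t) :=
    ⟨hP, hM, hdeg, hA, hB, fun r h1 h2 => hst (h1.symm.trans h2)⟩
  have hBA : DK P S M B A (fun r => x r = t) (fun r => x r = s) :=
    ⟨hP, hM, hdeg, hB, hA, fun r h1 h2 => hst (h2.symm.trans h1)⟩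
  obtain ⟨top, par, ht⟩ := tops_exists hAB
  obtain ⟨a, ha, haM, ha2⟩ := chart hAB ht
  obtain ⟨b, hb, hbM, hb2⟩ := chart hBA (tops_comm ht)
  set σ0 : Fin n → ℤ := fun r => if x r = u then 1 else -1 with hσ0
  have hσ01 : ∀ r, σ0 r = 1 ∨ σ0 r = -1 := by
    intro r
    by_cases h : x r = u
    · left
      simp only [hσ0, if_pos h]
    · right
      simp only [hσ0, if_neg h]
  obtain ⟨σ, hσ, hσF, hsa, hsb⟩ := two_forests n a b ha hb (Finset.univ.filter (fun k => k ∉ M))
    (fun k hk => haM k (Finset.mem_filter.1 hk).2) (fun k hk => hbM k (Finset.mem_filter.1 hk).2)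
    σ0 hσ01
  obtain ⟨Ja, hJa0, hJa1⟩ := sums_exist a ha σ
  obtain ⟨Jb, hJb0, hJb1⟩ := sums_exist b hb σ
  have hLa : ∀ k, |Ja k| ≤ ((Nat.log 2 n + 2 : ℕ) : ℤ) := by
    intro k
    have := hsa Ja hJa0 hJa1 k
    push_cast
    exact this
  have hLb : ∀ k, |Jb k| ≤ ((Nat.log 2 n + 2 : ℕ) : ℤ) := by
    intro k
    have := hsb Jb hJb0 hJb1 k
    push_cast
    exact this
  obtain ⟨Ha, hHa1, hHa2, hHa3, hHa4⟩ := ha2 σ hσ Ja hJa0 hJa1 (Nat.log 2 n + 2) hLa
  obtain ⟨Hb, hHb1, hHb2, hHb3, hHb4⟩ := hb2 σ hσ Jb hJb0 hJb1 (Nat.log 2 n + 2) hLb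
  -- the colour in `C`
  set cu : Fin n → Prop := fun v => (σ (top v) = 1 ↔ par v = 0) with hcu
  set cc : Fin n → κ := fun v => if cu v then u else w with hcc
  set c : Fin n → κ := fun v =>
    if v ∈ M then (if v ∈ A then s else if v ∈ B then t else cc v) else x v with hc
  have hccuw : ∀ v, cc v = u ∨ cc v = w := by
    intro v
    by_cases h : cu v
    · left
      simp only [hcc, if_pos h]
    · right
      simp only [hcc, if_neg h]
  have hccs : ∀ v, cc v ≠ s := by
    intro v
    rcases hccuw v with h | h <;> rw [h]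
    · exact hsu.symm
    · exact hsw.symm
  have hcct : ∀ v, cc v ≠ t := by
    intro v
    rcases hccuw v with h | h <;> rw [h]
    · exact htu.symm
    · exact htw.symm
  have hcA : ∀ v ∈ S, v ∈ A → c v = s := by
    intro v hv hvA
    by_cases hvM : v ∈ M
    · simp only [hc, if_pos hvM, if_pos hvA]
    · simp only [hc, if_neg hvM]
      exact (hA.root v hv hvM).1 hvA
  have hcB : ∀ v ∈ S, v ∉ A → v ∈ B → c v = t := by
    intro v hv hvA hvB
    by_cases hvM : v ∈ M
    · simp only [hc, if_pos hvM, if_neg hvA, if_pos hvB]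
    · simp only [hc, if_neg hvM]
      exact (hB.root v hv hvM).1 hvB
  have hcC : ∀ v, InC S A B v → c v = cc v := by
    rintro v ⟨hv, hvA, hvB⟩
    by_cases hvM : v ∈ M
    · simp only [hc, if_pos hvM, if_neg hvA, if_neg hvB]
    · simp only [hc, if_neg hvM]
      obtain ⟨h1, h2⟩ := ht.base v ⟨hv, hvA, hvB⟩ (Or.inl hvM)
      have h3 : σ v = σ0 v := hσF v (Finset.mem_filter.2 ⟨Finset.mem_univ v, hvM⟩)
      have h4 : x v ≠ s := fun h => hvA ((hA.root v hv hvM).2 h)
      have h5 : x v ≠ t := fun h => hvB ((hB.root v hv hvM).2 h)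
      have h6 := hx v hv hvM
      rw [hX] at h6
      simp only [Finset.mem_insert, Finset.mem_singleton] at h6
      by_cases h7 : x v = u
      · have h8 : cu v := by
          show σ (top v) = 1 ↔ par v = 0
          rw [h1, h2, h3]
          simp only [hσ0, if_pos h7]
        simp only [hcc, if_pos h8, h7]
      · have h8 : ¬ cu v := by
          show ¬ (σ (top v) = 1 ↔ par v = 0)
          rw [h1, h2, h3]
          simp only [hσ0, if_neg h7]
          norm_num
        simp only [hcc, if_neg h8]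
        tauto
  have hcs : ∀ v ∈ S, (c v = s ↔ v ∈ A) := by
    intro v hv
    constructor
    · intro h
      by_contra hvA
      by_cases hvB : v ∈ B
      · rw [hcB v hv hvA hvB] at h
        exact hst h.symm
      · rw [hcC v ⟨hv, hvA, hvB⟩] at h
        exact hccs v h
    · exact hcA v hv
  have hct : ∀ v ∈ S, v ∉ A → (c v = t ↔ v ∈ B) := by
    intro v hv hvA
    constructor
    · intro h
      by_contra hvB
      rw [hcC v ⟨hv, hvA, hvB⟩] at h
      exact hcct v h
    · exact hcB v hv hvA
  -- the second colouring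
  set c' : Fin n → κ := fun v => if v ∈ M ∩ A ∩ B then t else c v with hc'
  have hcc't : ∀ v ∈ S, (c' v = t ↔ v ∈ B) := by
    intro v hv
    by_cases hvM : v ∈ M ∩ A ∩ B
    · simp only [hc', if_pos hvM, true_iff]
      exact (Finset.mem_inter.1 hvM).2
    · simp only [hc', if_neg hvM]
      by_cases hvA : v ∈ A
      · rw [hcA v hv hvA]
        constructor
        · intro h
          exact absurd h hst
        · intro hvB
          exfalso
          by_cases hvM' : v ∈ M
          · exact hvM (by simp [hvM', hvA, hvB])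
          · exact hst (((hA.root v hv hvM').1 hvA).symm.trans ((hB.root v hv hvM').1 hvB))
      · exact hct v hv hvA
  have hc'c : ∀ v, v ∉ B → c' v = c v := by
    intro v hv
    have h : v ∉ M ∩ A ∩ B := fun h => hv (Finset.mem_inter.1 h).2
    simp only [hc', if_neg h]
  -- residues
  set e : κ → ZMod 3 := fun k => if k = u then 1 else if k = w then 2 else 0 with he
  have heu : e u = 1 := by simp only [he, if_true]
  have hew : e w = 2 := by
    simp only [he, if_true]
    rw [if_neg huw.symm]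
  have hes : e s = 0 := by
    simp only [he]
    rw [if_neg hsu, if_neg hsw]
  have het : e t = 0 := by
    simp only [he]
    rw [if_neg htu, if_neg htw]
  have h01 : (0 : ZMod 3) ≠ 1 := by decide
  have h02 : (0 : ZMod 3) ≠ 2 := by decide
  have h12 : (1 : ZMod 3) ≠ 2 := by decide
  have hres : ∀ v, ((σ (top v) * (1 + par v) : ℤ) : ZMod 3) = e (cc v) := by
    intro v
    rcases hσ (top v) with h1 | h1 <;> rcases ht.par01 v with h2 | h2
    · have h3 : cu v := by
        show σ (top v) = 1 ↔ par v = 0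
        rw [h1, h2]
        simp
      simp only [hcc, if_pos h3, h1, h2, heu]
      decide
    · have h3 : ¬ cu v := by
        show ¬ (σ (top v) = 1 ↔ par v = 0)
        rw [h1, h2]
        simp
      simp only [hcc, if_neg h3, h1, h2, hew]
      decide
    · have h3 : ¬ cu v := by
        show ¬ (σ (top v) = 1 ↔ par v = 0)
        rw [h1, h2]
        norm_num
      simp only [hcc, if_neg h3, h1, h2, hew]
      decide
    · have h3 : cu v := by
        show σ (top v) = 1 ↔ par v = 0
        rw [h1, h2]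
        norm_num
      simp only [hcc, if_pos h3, h1, h2, heu]
      decide
  refine ⟨c, ⟨⟨?_, ?_⟩, ?_⟩, hcs, hct, ⟨e, Ha, ?_, ⟨?_, ?_⟩, ?_⟩, ⟨e, Hb, ?_, ⟨?_, ?_⟩, ?_⟩⟩
  · -- palette
    intro v hv
    rw [hX]
    by_cases hvA : v ∈ A
    · rw [hcA v hv hvA]
      simp
    · by_cases hvB : v ∈ B
      · rw [hcB v hv hvA hvB]
        simp
      · rw [hcC v ⟨hv, hvA, hvB⟩]
        rcases hccuw v with h | h <;> rw [h] <;> simp
  · -- proper
    intro v hvM p hp hpS hcp
    have hv : v ∈ S := hM hvM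
    by_cases hvA : v ∈ A
    · rw [hcA v hv hvA] at hcp
      exact hA.par_notMem hvM hvA hp ((hcs p hpS).1 hcp)
    · by_cases hvB : v ∈ B
      · rw [hcB v hv hvA hvB] at hcp
        have hpA : p ∉ A := by
          intro hpA
          rw [hcA p hpS hpA] at hcp
          exact hst hcp
        exact hB.par_notMem hvM hvB hp ((hct p hpS hpA).1 hcp)
      · have hvC : InC S A B v := ⟨hv, hvA, hvB⟩
        rw [hcC v hvC] at hcp
        have hpA : p ∉ A := by
          intro hpA
          rw [hcA p hpS hpA] at hcp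
          exact hccs v hcp.symm
        have hpB : p ∉ B := by
          intro hpB
          rw [hcB p hpS hpA hpB] at hcp
          exact hcct v hcp.symm
        have hpC : InC S A B p := ⟨hpS, hpA, hpB⟩
        rw [hcC p hpC] at hcp
        obtain ⟨h1, h2⟩ := ht.step v hvM hvC p hp hpC
        have h3 : cu v ↔ ¬ cu p := by
          show (σ (top v) = 1 ↔ par v = 0) ↔ ¬ (σ (top p) = 1 ↔ par p = 0)
          rw [h1, h2]
          rcases ht.par01 p with h4 | h4 <;> rw [h4] <;> norm_num
        by_cases h4 : cu v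
        · have h5 : ¬ cu p := h3.1 h4
          simp only [hcc, if_pos h4, if_neg h5] at hcp
          exact huw hcp.symm
        · have h5 : cu p := by
            by_contra h6
            exact h4 (h3.2 h6)
          simp only [hcc, if_neg h4, if_pos h5] at hcp
          exact huw hcp
  · intro v hv
    simp only [hc, if_neg hv]
  · -- injectivity of `e` outside `s`
    intro k hk l hl hkl
    simp only [hX, Finset.coe_erase, Finset.coe_insert, Finset.coe_singleton, Set.mem_diff,
      Set.mem_insert_iff, Set.mem_singleton_iff] at hk hl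
    obtain ⟨hk1, hk2⟩ := hk
    obtain ⟨hl1, hl2⟩ := hl
    rcases hk1 with rfl | rfl | rfl | rfl <;> rcases hl1 with rfl | rfl | rfl | rfl <;>
      first
      | rfl
      | exact absurd rfl hk2
      | exact absurd rfl hl2
      | (exfalso; simp only [heu, hew, het] at hkl; first
          | exact h01 hkl | exact h01 hkl.symm | exact h02 hkl | exact h02 hkl.symm
          | exact h12 hkl | exact h12 hkl.symm)
  · -- residues of `Ha`
    intro v hv
    obtain ⟨hvS, hvs⟩ := Finset.mem_filter.1 hv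
    have hvA : v ∉ A := fun h => hvs (hcA v hvS h)
    by_cases hvB : v ∈ B
    · rw [hHa3 v hvS hvA hvB, hcB v hvS hvA hvB, het]
    · rw [hHa4 v ⟨hvS, hvA, hvB⟩, hcC v ⟨hvS, hvA, hvB⟩, hres v]
  · intro v hv p hp hpS
    obtain ⟨hvM, hvs⟩ := Finset.mem_filter.1 hv
    obtain ⟨hpS', hps⟩ := Finset.mem_filter.1 hpS
    exact hHa2 v hvM (fun h => hvs (hcA v (hM hvM) h)) p hp hpS' (fun h => hps (hcA p hpS' h))
  · intro v hv hvs
    have h1 := hHa1 v hv (fun h => hvs (hcA v hv h))
    unfold HH
    push_cast at h1 ⊢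
    linarith
  · -- injectivity of `e` outside `t`
    intro k hk l hl hkl
    simp only [hX, Finset.coe_erase, Finset.coe_insert, Finset.coe_singleton, Set.mem_diff,
      Set.mem_insert_iff, Set.mem_singleton_iff] at hk hl
    obtain ⟨hk1, hk2⟩ := hk
    obtain ⟨hl1, hl2⟩ := hl
    rcases hk1 with rfl | rfl | rfl | rfl <;> rcases hl1 with rfl | rfl | rfl | rfl <;>
      first
      | rfl
      | exact absurd rfl hk2
      | exact absurd rfl hl2
      | (exfalso; simp only [heu, hew, hes] at hkl; first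
          | exact h01 hkl | exact h01 hkl.symm | exact h02 hkl | exact h02 hkl.symm
          | exact h12 hkl | exact h12 hkl.symm)
  · -- residues of `Hb`
    intro v hv
    obtain ⟨hvS, hvt⟩ := Finset.mem_filter.1 hv
    have hvB : v ∉ B := fun h => hvt ((hcc't v hvS).2 h)
    change ((Hb v : ℤ) : ZMod 3) = e (c' v)
    rw [hc'c v hvB]
    by_cases hvA : v ∈ A
    · rw [hHb3 v hvS hvB hvA, hcA v hvS hvA, hes]
    · rw [hHb4 v ⟨hvS, hvB, hvA⟩, hcC v ⟨hvS, hvA, hvB⟩, hres v]
  · intro v hv p hp hpS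
    obtain ⟨hvM, hvt⟩ := Finset.mem_filter.1 hv
    obtain ⟨hpS', hpt⟩ := Finset.mem_filter.1 hpS
    exact hHb2 v hvM (fun h => hvt ((hcc't v (hM hvM)).2 h)) p hp hpS'
      (fun h => hpt ((hcc't p hpS').2 h))
  · intro v hv hvt
    have h1 := hHb1 v hv (fun h => hvt ((hcc't v hv).2 h))
    unfold HH
    push_cast at h1 ⊢
    linarith

end Pool.Agent.C91.DKDouble
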