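import Mathlib

/-! Definitions of the statement (MP_700a23_co): digraphs, dicolourings, the dicolouring graph and
the min-degeneracy. A digraph on `V` is a relation `A : V → V → Prop` without loops (no parallel
arcs; digons allowed). -/

set_option autoImplicit false

namespace Pool.Agent.C91

/-- `c` is a dicolouring of the digraph `A`: every colour class induces an acyclic subdigraph, that
is, there is no closed directed walk of positive length all of whose vertices have colour `i`. -/
def IsDicol {V : Type*} {k : ℕ} (A : V → V → Prop) (c : V → Fin k) : Prop :=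
  ∀ (i : Fin k) (v : V), ¬ Relation.TransGen (fun x y => A x y ∧ c x = i ∧ c y = i) v v

/-- The `k`-dicolouring graph of the digraph `A`: two `k`-dicolourings are adjacent when they differ
on exactly one vertex. -/
def dicolGraph {V : Type*} (A : V → V → Prop) (k : ℕ) :
    SimpleGraph {c : V → Fin k // IsDicol A c} where
  Adj c c' := ∃! v, c.1 v ≠ c'.1 v
  symm := by
    constructor
    rintro c c' ⟨v, hv, hu⟩
    exact ⟨v, fun h => hv h.symm, fun w hw => hu w fun h => hw h.symm⟩
  loopless := by
    constructor
    rintro c ⟨v, hv, _⟩
    exact hv rfl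

/-- The min-degeneracy of the digraph `A` is at most `d`: every nonempty subdigraph `(U, B)`
(vertex set `U`, arc set `B`, all arcs of `B` being arcs of `A` inside `U`) has a vertex whose
out-degree or in-degree in `(U, B)` is at most `d`; that is `min (δ⁺(H), δ⁻(H)) ≤ d` for every
subdigraph `H`. -/
def MinDegeneracyLE {V : Type*} (A : V → V → Prop) (d : ℕ) : Prop :=
  ∀ (U : Set V) (B : V → V → Prop), U.Nonempty → (∀ x y, B x y → A x y ∧ x ∈ U ∧ y ∈ U) →
    ∃ v ∈ U, {y | B v y}.ncard ≤ d ∨ {y | B y v}.ncard ≤ d

end Pool.Agent.C91
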