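import Pool.Agent.W_700a23_h91.Defs
import Pool.Agent.W_700a23_h91.Basic

/-! Dicolourings from parent colourings and walks in the dicolouring graph (MP_700a23_co). -/

set_option autoImplicit false

namespace Pool.Agent.C91.DigH7

open Finset

/-- Colourings proper for the parent relation on `{v | m ≤ v}` and equal to a dicolouring on
`{v | v < m}` are dicolourings. -/
theorem dicol_of_proper {n k : ℕ} (A : Fin n → Fin n → Prop) (hA : ∀ v, ¬ A v v)
    (P : Fin n → Finset (Fin n))
    (hcov : ∀ v, (∀ w, w < v → A v w → w ∈ P v) ∨ (∀ w, w < v → A w v → w ∈ P v))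
    (α g : Fin n → Fin k) (hα : IsDicol A α) (m : ℕ)
    (h1 : ∀ v : Fin n, m ≤ (v : ℕ) → ∀ p ∈ P v, g p ≠ g v)
    (h2 : ∀ v : Fin n, (v : ℕ) < m → g v = α v) : IsDicol A g := by
  intro i v0 hv0
  obtain ⟨R, hR⟩ : ∃ R : Fin n → Fin n → Prop, R = fun x y => A x y ∧ g x = i ∧ g y = i :=
    ⟨_, rfl⟩
  rw [← hR] at hv0
  have hRd : ∀ x y, R x y ↔ A x y ∧ g x = i ∧ g y = i := fun x y => by rw [hR]
  obtain ⟨v, hvC, hmax⟩ := Set.exists_max_image {x | Relation.TransGen R x x} (fun x => x)
    (Set.toFinite _) ⟨v0, hv0⟩
  have hvC' : Relation.TransGen R v v := hvC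
  obtain ⟨y, hvy, hyv⟩ := Relation.TransGen.head'_iff.1 hvC'
  obtain ⟨x, hvx, hxv⟩ := Relation.TransGen.tail'_iff.1 hvC'
  have hyC : Relation.TransGen R y y := Relation.TransGen.tail' hyv hvy
  have hxC : Relation.TransGen R x x := Relation.TransGen.head' hxv hvx
  have hyl : y < v := by
    refine lt_of_le_of_ne (hmax y hyC) ?_
    rintro rfl
    exact hA _ ((hRd _ _).1 hvy).1
  have hxl : x < v := by
    refine lt_of_le_of_ne (hmax x hxC) ?_
    rintro rfl
    exact hA _ ((hRd _ _).1 hxv).1
  rcases le_or_gt m (v : ℕ) with hm | hm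
  · rcases hcov v with h3 | h3
    · have h4 := (hRd _ _).1 hvy
      exact h1 v hm y (h3 y hyl h4.1) (h4.2.2.trans h4.2.1.symm)
    · have h4 := (hRd _ _).1 hxv
      exact h1 v hm x (h3 x hxl h4.1) (h4.2.1.trans h4.2.2.symm)
  · have hC : ∀ w, Relation.TransGen R w w → g w = α w := by
      intro w hw
      refine h2 w ?_
      have h3 : w ≤ v := hmax w hw
      have h4 : (w : ℕ) ≤ (v : ℕ) := h3
      omega
    have key : ∀ w, Relation.TransGen R v w → Relation.ReflTransGen R w v →
        Relation.TransGen (fun x y => A x y ∧ α x = i ∧ α y = i) v w := by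
      intro w hw
      induction hw with
      | @single b hb =>
        intro h3
        have h4 := (hRd _ _).1 hb
        have h5 : Relation.TransGen R b b := Relation.TransGen.tail' h3 hb
        refine Relation.TransGen.single ⟨h4.1, ?_, ?_⟩
        · rw [← hC v hvC']; exact h4.2.1
        · rw [← hC b h5]; exact h4.2.2
      | @tail b c hb hbc ih =>
        intro h3
        have h4 := (hRd _ _).1 hbc
        have h5 : Relation.ReflTransGen R b v := Relation.ReflTransGen.head hbc h3
        have h6 : Relation.TransGen R b b := Relation.TransGen.trans_right h5 hb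
        have h7 : Relation.TransGen R c c :=
          Relation.TransGen.tail (Relation.TransGen.trans_right h3 hb) hbc
        refine (ih h5).tail ⟨h4.1, ?_, ?_⟩
        · rw [← hC b h6]; exact h4.2.1
        · rw [← hC c h7]; exact h4.2.2
    exact hα i v (key v hvC' Relation.ReflTransGen.refl)

/-- Transport of dicolourings along a relabelling of the vertices. -/
theorem isDicol_relabel {V W : Type*} {k : ℕ} (A : V → V → Prop) (e : V ≃ W) (c : V → Fin k) :
    IsDicol (fun x y => A (e.symm x) (e.symm y)) (c ∘ e.symm) ↔ IsDicol A c := by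
  constructor
  · intro h i v hv
    refine h i (e v) (Relation.TransGen.lift e ?_ _ _ hv)
    intro a b hab
    simpa [Function.onFun] using hab
  · intro h i v hv
    refine h i (e.symm v) (Relation.TransGen.lift e.symm ?_ _ _ hv)
    intro a b hab
    exact hab

theorem walk_of_W {V : Type*} {n k : ℕ} (A : V → V → Prop) (e : V ≃ Fin n) {l : ℕ}
    {f f' : Fin n → Fin k}
    (h : W (fun g : Fin n → Fin k => IsDicol (fun x y => A (e.symm x) (e.symm y)) g) l f f') :
    ∀ c c' : {c : V → Fin k // IsDicol A c}, c.1 ∘ e.symm = f → c'.1 ∘ e.symm = f' →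
      ∃ p : (dicolGraph A k).Walk c c', p.length ≤ l := by
  induction h with
  | refl f h =>
    intro c c' hc hc'
    have h1 : c = c' := by
      apply Subtype.ext
      funext x
      have := congrFun (hc.trans hc'.symm) (e x)
      simpa using this
    subst h1
    exact ⟨SimpleGraph.Walk.nil, le_rfl⟩
  | @step l f d v a hw hg ih =>
    intro c c' hc hc'
    have hd := hw.right
    have hd' : IsDicol A (d ∘ e) := by
      rw [← isDicol_relabel A e]
      have h1 : (d ∘ e) ∘ e.symm = d := by
        funext x
        simp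
      rw [h1]
      exact hd
    obtain ⟨p, hp⟩ := ih c ⟨d ∘ e, hd'⟩ hc (by funext x; simp)
    have hval : ∀ x, c'.1 x = Function.update d v a (e x) := by
      intro x
      have := congrFun hc' (e x)
      simpa using this
    by_cases ha : a = d v
    · have h1 : (⟨d ∘ e, hd'⟩ : {c : V → Fin k // IsDicol A c}) = c' := by
        apply Subtype.ext
        funext x
        rw [hval x, ha, Function.update_eq_self]
        rfl
      subst h1
      exact ⟨p, by omega⟩
    · have hadj : (dicolGraph A k).Adj ⟨d ∘ e, hd'⟩ c' := by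
        refine ⟨e.symm v, ?_, ?_⟩
        · show d (e (e.symm v)) ≠ c'.1 (e.symm v)
          rw [hval, Equiv.apply_symm_apply, Function.update_self]
          exact fun h => ha h.symm
        · intro w hw'
          by_contra hne
          apply hw'
          show d (e w) = c'.1 w
          rw [hval, Function.update_of_ne]
          intro h
          exact hne (by rw [← h]; simp)
      exact ⟨p.concat hadj, by rw [SimpleGraph.Walk.length_concat]; omega⟩

/-- Walks in the sense of `WL` through dicolourings of the relabelled digraph are walks in the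
dicolouring graph: reachable, and distance at most `m`. -/
theorem dist_of_walk {V : Type*} {n k : ℕ} (A : V → V → Prop) (e : V ≃ Fin n) (m : ℕ)
    (c c' : {c : V → Fin k // IsDicol A c})
    (h : WL (fun g : Fin n → Fin k => IsDicol (fun x y => A (e.symm x) (e.symm y)) g) m
      (c.1 ∘ e.symm) (c'.1 ∘ e.symm)) :
    (dicolGraph A k).Reachable c c' ∧ (dicolGraph A k).dist c c' ≤ m := by
  obtain ⟨l, hl, hw⟩ := h
  obtain ⟨p, hp⟩ := walk_of_W A e hw c c' rfl rfl
  exact ⟨⟨p⟩, (SimpleGraph.dist_le p).trans (hp.trans hl)⟩

end Pool.Agent.C91.DigH7
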