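import Pool.Agent.W_700a23_h91.DigraphE
import Pool.Agent.W_700a23_h91.DigraphH7

/-! Elimination orders (`DigraphE`) and dicolourings (`DigraphH7`) (MP_700a23_co). -/
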