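import Pool.Agent.W_700a23_h91.Defs
import Pool.Agent.W_700a23_h91.Basic

/-! Elimination orders and relabelling (MP_700a23_co); proofs of `elimination` and
`isDicol_relabel` of `Digraph.lean`. -/

set_option autoImplicit false

namespace Pool.Agent.C91.DigE

open Finset

theorem elim_aux {V : Type*} [Fintype V] (A : V → V → Prop) (d : ℕ)
    (h : MinDegeneracyLE A d) : ∀ (m : ℕ) (U : Finset V), U.card = m →
      ∃ f : Fin m → V, Function.Injective f ∧ (∀ i, f i ∈ U) ∧
        ∀ i, {j : Fin m | j < i ∧ A (f i) (f j)}.ncard ≤ d ∨
          {j : Fin m | j < i ∧ A (f j) (f i)}.ncard ≤ d := by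
  classical
  intro m
  induction m with
  | zero =>
    intro U _
    exact ⟨fun i => i.elim0, fun i => i.elim0, fun i => i.elim0, fun i => i.elim0⟩
  | succ m ih =>
    intro U hU
    have hne : (U : Set V).Nonempty := by
      rw [Finset.coe_nonempty, ← Finset.card_pos]
      omega
    obtain ⟨v, hvU, hv⟩ := h (U : Set V) (fun x y => A x y ∧ x ∈ (U : Set V) ∧ y ∈ (U : Set V))
      hne (fun x y hxy => hxy)
    have hvU' : v ∈ U := hvU
    have hcard : (U.erase v).card = m := by
      rw [Finset.card_erase_of_mem hvU', hU]
      rfl
    obtain ⟨f, hfi, hfU, hf⟩ := ih (U.erase v) hcard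
    have hinj : Function.Injective (Fin.snoc (α := fun _ => V) f v : Fin (m + 1) → V) := by
      intro a b hab
      induction a using Fin.lastCases with
      | last =>
        induction b using Fin.lastCases with
        | last => rfl
        | cast b =>
          rw [Fin.snoc_last, Fin.snoc_castSucc] at hab
          exact absurd hab.symm (Finset.ne_of_mem_erase (hfU b))
      | cast a =>
        induction b using Fin.lastCases with
        | last =>
          rw [Fin.snoc_last, Fin.snoc_castSucc] at hab
          exact absurd hab (Finset.ne_of_mem_erase (hfU a))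
        | cast b =>
          rw [Fin.snoc_castSucc, Fin.snoc_castSucc] at hab
          rw [hfi hab]
    refine ⟨Fin.snoc (α := fun _ => V) f v, hinj, ?_, ?_⟩
    · intro i
      induction i using Fin.lastCases with
      | last =>
        rw [Fin.snoc_last]
        exact hvU'
      | cast i =>
        rw [Fin.snoc_castSucc]
        exact Finset.mem_of_mem_erase (hfU i)
    · intro i
      induction i using Fin.lastCases with
      | last =>
        have key : ∀ R : V → V → Prop,
            {y | R v y ∧ v ∈ (U : Set V) ∧ y ∈ (U : Set V)}.ncard ≤ d →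
            {j : Fin (m + 1) | j < Fin.last m ∧
              R v ((Fin.snoc (α := fun _ => V) f v : Fin (m + 1) → V) j)}.ncard ≤ d := by
          intro R hR
          rw [← Set.ncard_image_of_injective _ hinj]
          refine le_trans (Set.ncard_le_ncard ?_ (Set.toFinite _)) hR
          rintro y ⟨j, ⟨hj, hj'⟩, rfl⟩
          refine ⟨hj', hvU, ?_⟩
          induction j using Fin.lastCases with
          | last => exact absurd hj (lt_irrefl _)
          | cast j =>
            rw [Fin.snoc_castSucc]
            exact Finset.mem_of_mem_erase (hfU j)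
        rw [Fin.snoc_last]
        rcases hv with hv | hv
        · left
          exact key A hv
        · right
          refine key (fun x y => A y x) ?_
          refine le_trans (Set.ncard_le_ncard ?_ (Set.toFinite _)) hv
          rintro y ⟨h1, h2, h3⟩
          exact ⟨h1, h3, h2⟩
      | cast i =>
        have key : ∀ R : V → V → Prop,
            {j : Fin m | j < i ∧ R (f i) (f j)}.ncard ≤ d →
            {j : Fin (m + 1) | j < i.castSucc ∧
              R (f i) ((Fin.snoc (α := fun _ => V) f v : Fin (m + 1) → V) j)}.ncard ≤ d := by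
          intro R hR
          rw [← Set.ncard_image_of_injective _ (Fin.castSucc_injective m)] at hR
          refine le_trans (Set.ncard_le_ncard ?_ (Set.toFinite _)) hR
          rintro j ⟨hj, hj'⟩
          induction j using Fin.lastCases with
          | last => exact absurd hj (not_lt.2 (Fin.le_last _))
          | cast j =>
            rw [Fin.snoc_castSucc] at hj'
            exact ⟨j, ⟨Fin.castSucc_lt_castSucc_iff.1 hj, hj'⟩, rfl⟩
        rw [Fin.snoc_castSucc]
        rcases hf i with h1 | h1
        · left
          exact key A h1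
        · right
          exact key (fun x y => A y x) h1

/-- Elimination order. -/
theorem elimination {V : Type*} [Fintype V] (A : V → V → Prop) (d : ℕ)
    (h : MinDegeneracyLE A d) :
    ∃ (e : V ≃ Fin (Fintype.card V)) (P : Fin (Fintype.card V) → Finset (Fin (Fintype.card V))),
      (∀ v, ∀ p ∈ P v, p < v) ∧ (∀ v, (P v).card ≤ d) ∧
      ∀ v, (∀ w, w < v → A (e.symm v) (e.symm w) → w ∈ P v) ∨
        (∀ w, w < v → A (e.symm w) (e.symm v) → w ∈ P v) := by
  classical
  obtain ⟨f, hfi, -, hf⟩ := elim_aux A d h (Fintype.card V) Finset.univ rfl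
  have hbij : Function.Bijective f :=
    (Fintype.bijective_iff_injective_and_card f).2 ⟨hfi, by simp⟩
  have key : ∀ v, ∃ Q : Finset (Fin (Fintype.card V)), (∀ p ∈ Q, p < v) ∧ Q.card ≤ d ∧
      ((∀ w, w < v → A (f v) (f w) → w ∈ Q) ∨ (∀ w, w < v → A (f w) (f v) → w ∈ Q)) := by
    intro v
    rcases hf v with h1 | h1
    · refine ⟨Finset.univ.filter (fun j => j < v ∧ A (f v) (f j)), ?_, ?_, ?_⟩
      · intro p hp
        exact (Finset.mem_filter.1 hp).2.1
      · rw [← Set.ncard_coe_finset]
        refine le_trans (Set.ncard_le_ncard ?_ (Set.toFinite _)) h1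
        intro j hj
        exact (Finset.mem_filter.1 (Finset.mem_coe.1 hj)).2
      · left
        intro w hw hA
        exact Finset.mem_filter.2 ⟨Finset.mem_univ _, hw, hA⟩
    · refine ⟨Finset.univ.filter (fun j => j < v ∧ A (f j) (f v)), ?_, ?_, ?_⟩
      · intro p hp
        exact (Finset.mem_filter.1 hp).2.1
      · rw [← Set.ncard_coe_finset]
        refine le_trans (Set.ncard_le_ncard ?_ (Set.toFinite _)) h1
        intro j hj
        exact (Finset.mem_filter.1 (Finset.mem_coe.1 hj)).2
      · right
        intro w hw hA
        exact Finset.mem_filter.2 ⟨Finset.mem_univ _, hw, hA⟩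
  choose P hP1 hP2 hP3 using key
  exact ⟨(Equiv.ofBijective f hbij).symm, P, hP1, hP2, hP3⟩

/-- Transport of dicolourings along a relabelling of the vertices. -/
theorem isDicol_relabel {V W : Type*} {k : ℕ} (A : V → V → Prop) (e : V ≃ W) (c : V → Fin k) :
    IsDicol (fun x y => A (e.symm x) (e.symm y)) (c ∘ e.symm) ↔ IsDicol A c := by
  constructor
  · intro h i v hv
    refine h i (e v) (Relation.TransGen.lift e ?_ v v hv)
    rintro a b ⟨h1, h2, h3⟩
    refine ⟨?_, ?_, ?_⟩
    · change A (e.symm (e a)) (e.symm (e b))
      rw [e.symm_apply_apply, e.symm_apply_apply]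
      exact h1
    · rw [Function.comp_apply, e.symm_apply_apply]
      exact h2
    · rw [Function.comp_apply, e.symm_apply_apply]
      exact h3
  · intro h i w hw
    exact h i (e.symm w) (Relation.TransGen.lift e.symm (fun a b hab => hab) w w hw)

end Pool.Agent.C91.DigE
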