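import Pool.Agent.W_700a23_h91.ForestCore

/-! Three-coloured forests and height functions (MP_700a23_co). -/

set_option autoImplicit false

namespace Pool.Agent.C91

open Finset

variable {n : ℕ} {κ : Type*} [DecidableEq κ]

/-- Height argument for forests: two good colourings with lifts bounded by `H` are joined by a walk
of length `n (2H+1)`; a follower without active parents only uses the colours `c v`, `c' v`.
PROOF: every vertex `v` of `S` has a top `τ v` (follow the unique active parent until a root or a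
follower without active parent; `rec_exists`), and along followers `h v - h (τ v)`, `h' v - h' (τ v)`
are bounded by `2H` in absolute value. Choose for every top `r` an integer `k r` such that
`g := h + 3 k` satisfies `g r = h' r` for a root `r` (possible: same colour, same residue) and
`g r - h' r ∈ {0, 2, -2}` for a follower `r`. Put `g v = h v + 3 k (τ v)`: again a lift of `c`, the
difference `g - h'` is even (constant parity along edges), and `|g v - h' v| ≤ 4H + 2`. Apply
`forest_core` with `m = n (2H+1)`. -/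
theorem forest_walk (P : Fin n → Finset (Fin n)) (hP : ∀ v, ∀ p ∈ P v, p < v)
    (S M : Finset (Fin n)) (hM : M ⊆ S) (hdeg : ∀ v ∈ M, (P v ∩ S).card ≤ 1) (X : Finset κ)
    (e : κ → ZMod 3) (he : Set.InjOn e (X : Set κ)) (hes : ∀ z : ZMod 3, ∃ a ∈ X, e a = z)
    (c c' : Fin n → κ) (hc : Good P S M X c) (hc' : Good P S M X c')
    (hfr : ∀ v, v ∉ M → c v = c' v) (h h' : Fin n → ℤ)
    (hh : Lift P S M e c h) (hh' : Lift P S M e c' h') (H : ℕ)
    (hb : ∀ v ∈ S, |h v| ≤ H) (hb' : ∀ v ∈ S, |h' v| ≤ H) :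
    WL (fun g => GF P S M X c g ∧ ∀ v ∈ M, P v ∩ S = ∅ → g v = c v ∨ g v = c' v)
      (n * (2 * H + 1)) c c' := by
  classical
  have hex : ∀ v : Fin n, ∃ k : ℤ, |h v + 3 * k - h' v| ≤ 2 ∧ Even (h v + 3 * k - h' v) ∧
      (((h v : ℤ) : ZMod 3) = ((h' v : ℤ) : ZMod 3) → h v + 3 * k = h' v) := by
    intro v
    have h3 : (h v - h' v) % 3 = 0 ∨ (h v - h' v) % 3 = 1 ∨ (h v - h' v) % 3 = 2 := by omega
    have hz : ((h v : ℤ) : ZMod 3) = ((h' v : ℤ) : ZMod 3) → (h v - h' v) % 3 = 0 := by
      intro h4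
      have h5 := (ZMod.intCast_eq_intCast_iff_dvd_sub (h' v) (h v) 3).1 h4.symm
      exact Int.emod_eq_zero_of_dvd h5
    rcases h3 with h4 | h4 | h4
    · refine ⟨-((h v - h' v) / 3), ?_, ?_, fun _ => ?_⟩
      · have : h v + 3 * -((h v - h' v) / 3) - h' v = 0 := by omega
        rw [this]
        norm_num
      · have : h v + 3 * -((h v - h' v) / 3) - h' v = 0 := by omega
        rw [this]
        exact Even.zero
      · omega
    · refine ⟨-((h v - h' v) / 3) - 1, ?_, ?_, fun h5 => ?_⟩
      · have : h v + 3 * (-((h v - h' v) / 3) - 1) - h' v = -2 := by omega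
        rw [this]
        norm_num
      · have : h v + 3 * (-((h v - h' v) / 3) - 1) - h' v = -2 := by omega
        rw [this]
        exact ⟨-1, by norm_num⟩
      · have := hz h5
        omega
    · refine ⟨-((h v - h' v) / 3), ?_, ?_, fun h5 => ?_⟩
      · have : h v + 3 * -((h v - h' v) / 3) - h' v = 2 := by omega
        rw [this]
        norm_num
      · have : h v + 3 * -((h v - h' v) / 3) - h' v = 2 := by omega
        rw [this]
        exact ⟨1, by norm_num⟩
      · have := hz h5
        omega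
  choose k0 hk1 hk2 hk3 using hex
  obtain ⟨K, hK⟩ := rec_exists (n := n) (α := ℤ) (fun v f =>
    if hv : v ∈ M ∧ (P v ∩ S).Nonempty then
      f hv.2.choose (hP v _ (mem_inter.1 hv.2.choose_spec).1) else k0 v)
  have hKpar : ∀ v ∈ M, ∀ p ∈ P v, p ∈ S → K v = K p := by
    intro v hv p hp hpS
    have hne : v ∈ M ∧ (P v ∩ S).Nonempty := ⟨hv, ⟨p, mem_inter.2 ⟨hp, hpS⟩⟩⟩
    have h1 : K v = K hne.2.choose := (hK v).trans (dif_pos hne)
    have h2 : hne.2.choose = p :=
      Finset.card_le_one.1 (hdeg v hv) _ hne.2.choose_spec _ (mem_inter.2 ⟨hp, hpS⟩)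
    rw [h1, h2]
  have hKtop : ∀ v, ¬ (v ∈ M ∧ (P v ∩ S).Nonempty) → K v = k0 v := fun v hv =>
    (hK v).trans (dif_neg hv)
  have htop : ∀ v : Fin n, v ∈ S → ∃ r ∈ S, K v = K r ∧ K r = k0 r := by
    intro v
    induction v using WellFoundedLT.induction with
    | _ v ih =>
      intro hv
      by_cases hne : v ∈ M ∧ (P v ∩ S).Nonempty
      · obtain ⟨hvM, p, hp⟩ := hne
        rw [mem_inter] at hp
        obtain ⟨r, hr, h1, h2⟩ := ih p (hP v p hp.1) hp.2
        exact ⟨r, hr, (hKpar v hvM p hp.1 hp.2).trans h1, h2⟩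
      · exact ⟨v, hv, rfl, hKtop v hne⟩
  have hroot : ∀ v ∈ S, v ∉ M → h v + 3 * K v = h' v := by
    intro v hv hvM
    rw [hKtop v fun h1 => hvM h1.1]
    refine hk3 v ?_
    rw [hh.res v hv, hh'.res v hv, hfr v hvM]
  have habs1 : ∀ a : ℤ, |a| = 1 → ¬ Even a := by
    intro a ha he
    rcases (abs_eq (by norm_num : (0 : ℤ) ≤ 1)).1 ha with h1 | h1
    · rw [h1] at he
      exact absurd he (by decide)
    · rw [h1] at he
      exact absurd he (by decide)
  have hev : ∀ v : Fin n, v ∈ S → Even (h v + 3 * K v - h' v) := by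
    intro v
    induction v using WellFoundedLT.induction with
    | _ v ih =>
      intro hv
      by_cases hne : v ∈ M ∧ (P v ∩ S).Nonempty
      · obtain ⟨hvM, p, hp⟩ := hne
        rw [mem_inter] at hp
        have h1 := ih p (hP v p hp.1) hp.2
        have h2 := hKpar v hvM p hp.1 hp.2
        have h3 := habs1 _ (hh.adj v hvM p hp.1 hp.2)
        have h4 := habs1 _ (hh'.adj v hvM p hp.1 hp.2)
        have h5 : h v + 3 * K v - h' v = (h p + 3 * K p - h' p) +
            ((h v - h p) - (h' v - h' p)) := by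
          rw [h2]
          ring
        rw [h5]
        refine h1.add ?_
        rw [Int.not_even_iff_odd] at h3 h4
        exact h3.sub_odd h4
      · rw [hKtop v hne]
        exact hk2 v
  have hbd : ∀ v ∈ S, |h v + 3 * K v - h' v| ≤ 4 * H + 2 := by
    intro v hv
    obtain ⟨r, hr, h1, h2⟩ := htop v hv
    have h3 := hk1 r
    rw [← h2, ← h1] at h3
    have h4 := abs_le.1 (hb v hv)
    have h5 := abs_le.1 (hb r hr)
    have h6 := abs_le.1 (hb' v hv)
    have h7 := abs_le.1 (hb' r hr)
    have h8 := abs_le.1 h3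
    rw [abs_le]
    constructor <;> linarith [h4.1, h4.2, h5.1, h5.2, h6.1, h6.2, h7.1, h7.2, h8.1, h8.2]
  have hlift : Lift P S M e c (fun v => h v + 3 * K v) := by
    refine ⟨fun v hv => ?_, fun v hv p hp hpS => ?_⟩
    · have h3 : ((3 : ℤ) : ZMod 3) = 0 := by decide
      rw [← hh.res v hv]
      push_cast at h3 ⊢
      rw [h3]
      ring
    · show |h v + 3 * K v - (h p + 3 * K p)| = 1
      rw [hKpar v hv p hp hpS, ← hh.adj v hv p hp hpS]
      congr 1
      ring
  have hsum : ∑ v ∈ M, |h v + 3 * K v - h' v| ≤ 2 * ((n * (2 * H + 1) : ℕ) : ℤ) := by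
    have h1 : ∑ v ∈ M, |h v + 3 * K v - h' v| ≤ ∑ v ∈ M, ((4 * H + 2 : ℕ) : ℤ) :=
      Finset.sum_le_sum fun v hv => by
        have := hbd v (hM hv)
        push_cast
        exact this
    have h2 : M.card ≤ n := by
      have := M.card_le_univ
      rwa [Fintype.card_fin] at this
    rw [Finset.sum_const, nsmul_eq_mul] at h1
    have h3 : ((M.card : ℕ) : ℤ) * ((4 * H + 2 : ℕ) : ℤ) ≤ (n : ℤ) * ((4 * H + 2 : ℕ) : ℤ) :=
      mul_le_mul_of_nonneg_right (by exact_mod_cast h2) (by positivity)
    refine (h1.trans h3).trans (le_of_eq ?_)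
    push_cast
    ring
  have hwalk := forest_core P hP S M hM X e he hes c c' hc hc' hfr (fun v => h v + 3 * K v) h'
    hlift hh' hroot (fun v hv => hev v (hM hv)) (n * (2 * H + 1)) hsum
  refine hwalk.mono le_rfl ?_
  rintro g ⟨h1, h2⟩
  refine ⟨h1, fun v hv hPv => h2 v hv ?_⟩
  show |h v + 3 * K v - h' v| ≤ 2
  rw [hKtop v fun h3 => by
    rw [hPv] at h3
    exact Finset.not_nonempty_empty h3.2]
  exact hk1 v

end Pool.Agent.C91
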