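import Pool.Agent.W_700a23_h91.Basic

/-! Three-coloured forests and height functions (MP_700a23_co): `forest_core` and `lift_change`. -/

set_option autoImplicit false

namespace Pool.Agent.C91

open Finset

variable {n : ℕ} {κ : Type*} [DecidableEq κ]

omit [DecidableEq κ] in
/-- A lift separates the colours of neighbours. -/
theorem ForestCore_ne {P : Fin n → Finset (Fin n)} {S M : Finset (Fin n)} (hM : M ⊆ S)
    {e : κ → ZMod 3} {c : Fin n → κ} {h : Fin n → ℤ} (hh : Lift P S M e c h) :
    ∀ v ∈ M, ∀ p ∈ P v, p ∈ S → c p ≠ c v := by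
  intro v hv p hp hpS hcp
  have h1 := hh.adj v hv p hp hpS
  have h2 := hh.res v (hM hv)
  have h3 := hh.res p hpS
  rw [hcp, ← h2] at h3
  have h4 : ((h v - h p : ℤ) : ZMod 3) = 0 := by
    push_cast
    rw [h3]
    ring
  rw [ZMod.intCast_zmod_eq_zero_iff_dvd] at h4
  rcases (abs_eq (by norm_num)).1 h1 with h5 | h5 <;> rw [h5] at h4 <;> omega

omit [DecidableEq κ] in
/-- One step of the walk. -/
theorem ForestCore_step {P : Fin n → Finset (Fin n)} (hP : ∀ v, ∀ p ∈ P v, p < v)
    {S M : Finset (Fin n)} (hM : M ⊆ S) {X : Finset κ} {e : κ → ZMod 3}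
    (hes : ∀ z : ZMod 3, ∃ a ∈ X, e a = z) {c c' : Fin n → κ} {h h' : Fin n → ℤ}
    (hh : Lift P S M e c h) (hh' : Lift P S M e c' h')
    (hroot : ∀ v ∈ S, v ∉ M → h v = h' v) {s : ℤ} (hs : s = 1 ∨ s = -1) {w : Fin n} (hw : w ∈ M)
    (hpos : 0 < s * (h w - h' w))
    (hmax : ∀ v ∈ M, 0 < s * (h v - h' v) → s * h v ≤ s * h w) :
    ∃ a ∈ X, Lift P S M e (Function.update c w a) (Function.update h w (h w - 2 * s)) := by
  obtain ⟨a, ha, hea⟩ := hes ((h w - 2 * s : ℤ) : ZMod 3)
  have key : ∀ y ∈ S, |h w - h y| = 1 → |h' w - h' y| = 1 → h y = h w - s := by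
    intro y hy h1 h2
    by_cases hyM : y ∈ M
    · have h3 := hmax y hyM
      rcases hs with rfl | rfl
      · rcases (abs_eq (by norm_num)).1 h1 with h4 | h4 <;>
          rcases (abs_eq (by norm_num)).1 h2 with h5 | h5 <;> omega
      · rcases (abs_eq (by norm_num)).1 h1 with h4 | h4 <;>
          rcases (abs_eq (by norm_num)).1 h2 with h5 | h5 <;> omega
    · have h3 := hroot y hy hyM
      rcases hs with rfl | rfl
      · rcases (abs_eq (by norm_num)).1 h1 with h4 | h4 <;>
          rcases (abs_eq (by norm_num)).1 h2 with h5 | h5 <;> omega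
      · rcases (abs_eq (by norm_num)).1 h1 with h4 | h4 <;>
          rcases (abs_eq (by norm_num)).1 h2 with h5 | h5 <;> omega
  have habs : |s| = 1 := by rcases hs with rfl | rfl <;> norm_num
  refine ⟨a, ha, ?_, ?_⟩
  · intro v hv
    by_cases hvw : v = w
    · subst hvw
      rw [Function.update_self, Function.update_self, hea]
    · rw [Function.update_of_ne hvw, Function.update_of_ne hvw]
      exact hh.res v hv
  · intro v hv p hp hpS
    have hpv : p ≠ v := ne_of_lt (hP v p hp)
    by_cases hvw : v = w
    · subst hvw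
      rw [Function.update_self, Function.update_of_ne hpv]
      have h1 := key p hpS (hh.adj v hv p hp hpS) (hh'.adj v hv p hp hpS)
      rw [h1, show h v - 2 * s - (h v - s) = -s by ring, abs_neg, habs]
    · rw [Function.update_of_ne hvw]
      by_cases hpw : p = w
      · subst hpw
        rw [Function.update_self]
        have h1 := key v (hM hv) (by rw [abs_sub_comm]; exact hh.adj v hv p hp hpS)
          (by rw [abs_sub_comm]; exact hh'.adj v hv p hp hpS)
        rw [h1, show h p - s - (h p - 2 * s) = s by ring, habs]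
      · rw [Function.update_of_ne hpw]
        exact hh.adj v hv p hp hpS

/-- Core of the height argument. `h`, `h'` lifts of `c`, `c'`, equal on the roots, with even
difference; every residue has a colour in `X` and `e` is injective on `X`. (No degree condition.)
The walk changes `v` only through the colours between; for a vertex with `|h v - h' v| ≤ 2` only the
colours `c v` and `c' v` occur.
PROOF: induction on `m` (generalising `c h`). If `h = h'` on `M`, then `c = c'` (injectivity on `M`,
`hfr` outside). Otherwise some follower has `s (h w - h' w) > 0` for a sign `s`; take such `w ∈ M`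
with `s h w` maximal, replace `h w` by `h w - 2 s` and `c w` by the colour of that residue. -/
theorem forest_core (P : Fin n → Finset (Fin n)) (hP : ∀ v, ∀ p ∈ P v, p < v)
    (S M : Finset (Fin n)) (hM : M ⊆ S) (X : Finset κ) (e : κ → ZMod 3)
    (he : Set.InjOn e (X : Set κ)) (hes : ∀ z : ZMod 3, ∃ a ∈ X, e a = z)
    (c c' : Fin n → κ) (hc : Good P S M X c) (hc' : Good P S M X c')
    (hfr : ∀ v, v ∉ M → c v = c' v) (h h' : Fin n → ℤ)
    (hh : Lift P S M e c h) (hh' : Lift P S M e c' h')
    (hroot : ∀ v ∈ S, v ∉ M → h v = h' v) (hev : ∀ v ∈ M, Even (h v - h' v))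
    (m : ℕ) (hm : ∑ v ∈ M, |h v - h' v| ≤ 2 * m) :
    WL (fun g => GF P S M X c g ∧ ∀ v ∈ M, |h v - h' v| ≤ 2 → g v = c v ∨ g v = c' v) m c c' := by
  have hgoodc : ∀ (d : Fin n → κ), Good P S M X d →
      (fun g => GF P S M X d g ∧ ∀ v ∈ M, |h v - h' v| ≤ 2 → g v = d v ∨ g v = c' v) d :=
    fun d hd => ⟨⟨hd, fun _ _ => rfl⟩, fun _ _ _ => Or.inl rfl⟩
  clear hgoodc
  induction m generalizing c h with
  | zero =>
    have hz : ∀ v ∈ M, |h v - h' v| = 0 := by
      have h1 : ∑ v ∈ M, |h v - h' v| = 0 :=
        le_antisymm (by simpa using hm) (Finset.sum_nonneg fun v _ => abs_nonneg _)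
      exact (Finset.sum_eq_zero_iff_of_nonneg fun v _ => abs_nonneg _).1 h1
    have hcc : c = c' := by
      funext v
      by_cases hv : v ∈ M
      · have h1 : h v = h' v := by
          have := abs_eq_zero.1 (hz v hv)
          omega
        refine he (hc.pal v (hM hv)) (hc'.pal v (hM hv)) ?_
        rw [← hh.res v (hM hv), ← hh'.res v (hM hv), h1]
      · exact hfr v hv
    subst hcc
    exact WL.refl ⟨⟨hc, fun _ _ => rfl⟩, fun _ _ _ => Or.inl rfl⟩ _
  | succ m ih =>
    by_cases hall : ∀ v ∈ M, h v = h' v
    · refine (ih c hc hfr h hh hroot hev ?_).le (Nat.le_succ m)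
      have : ∑ v ∈ M, |h v - h' v| = 0 := by
        refine Finset.sum_eq_zero fun v hv => ?_
        rw [hall v hv, sub_self, abs_zero]
      rw [this]
      positivity
    · push Not at hall
      obtain ⟨v₀, hv₀, hne⟩ := hall
      obtain ⟨s, hs, hs0⟩ : ∃ s : ℤ, (s = 1 ∨ s = -1) ∧ 0 < s * (h v₀ - h' v₀) := by
        rcases lt_or_gt_of_ne hne with h1 | h1
        · exact ⟨-1, Or.inr rfl, by omega⟩
        · exact ⟨1, Or.inl rfl, by omega⟩
      obtain ⟨w, hw, hwmax⟩ := (M.filter fun v => 0 < s * (h v - h' v)).exists_max_image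
        (fun v => s * h v) ⟨v₀, Finset.mem_filter.2 ⟨hv₀, hs0⟩⟩
      rw [Finset.mem_filter] at hw
      obtain ⟨hwM, hwpos⟩ := hw
      obtain ⟨a, ha, hL⟩ := ForestCore_step hP hM hes hh hh' hroot hs hwM hwpos
        (fun v hv hv2 => hwmax v (Finset.mem_filter.2 ⟨hv, hv2⟩))
      have hwS : w ∈ S := hM hwM
      have hevw := hev w hwM
      have hd2 : |h w - h' w| = 2 + |h w - 2 * s - h' w| := by
        obtain ⟨r, hr⟩ := hevw
        rcases hs with rfl | rfl
        · have h1 : 0 < h w - h' w := by omega
          rw [abs_of_pos h1, abs_of_nonneg (by omega)]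
          omega
        · have h1 : h w - h' w < 0 := by omega
          rw [abs_of_neg h1, abs_of_nonpos (by omega)]
          omega
      have hgood1 : Good P S M X (Function.update c w a) := by
        refine ⟨?_, ForestCore_ne hM hL⟩
        intro v hv
        by_cases hvw : v = w
        · subst hvw
          rw [Function.update_self]
          exact ha
        · rw [Function.update_of_ne hvw]
          exact hc.pal v hv
      have hfr1 : ∀ v, v ∉ M → Function.update c w a v = c' v := by
        intro v hv
        have hvw : v ≠ w := fun h1 => hv (h1 ▸ hwM)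
        rw [Function.update_of_ne hvw]
        exact hfr v hv
      have hroot1 : ∀ v ∈ S, v ∉ M → Function.update h w (h w - 2 * s) v = h' v := by
        intro v hvS hv
        have hvw : v ≠ w := fun h1 => hv (h1 ▸ hwM)
        rw [Function.update_of_ne hvw]
        exact hroot v hvS hv
      have hev1 : ∀ v ∈ M, Even (Function.update h w (h w - 2 * s) v - h' v) := by
        intro v hv
        by_cases hvw : v = w
        · subst hvw
          rw [Function.update_self]
          obtain ⟨r, hr⟩ := hevw
          exact ⟨r - s, by linarith⟩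
        · rw [Function.update_of_ne hvw]
          exact hev v hv
      have hsum1 : ∑ v ∈ M, |Function.update h w (h w - 2 * s) v - h' v| ≤ 2 * (m : ℤ) := by
        rw [← Finset.add_sum_erase _ _ hwM] at hm ⊢
        rw [Function.update_self]
        have h1 : ∑ x ∈ M.erase w, |Function.update h w (h w - 2 * s) x - h' x| =
            ∑ x ∈ M.erase w, |h x - h' x| := by
          refine Finset.sum_congr rfl fun x hx => ?_
          rw [Function.update_of_ne (Finset.ne_of_mem_erase hx)]
        rw [h1]
        push_cast at hm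
        linarith
      have hih := ih (Function.update c w a) hgood1 hfr1 (Function.update h w (h w - 2 * s)) hL
        hroot1 hev1 hsum1
      -- conversion of the predicate
      have hconv : ∀ g, (GF P S M X (Function.update c w a) g ∧
          ∀ v ∈ M, |Function.update h w (h w - 2 * s) v - h' v| ≤ 2 →
            g v = Function.update c w a v ∨ g v = c' v) →
          (GF P S M X c g ∧ ∀ v ∈ M, |h v - h' v| ≤ 2 → g v = c v ∨ g v = c' v) := by
        intro g hg
        refine ⟨⟨hg.1.1, fun v hv => ?_⟩, fun v hv hv2 => ?_⟩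
        · have hvw : v ≠ w := fun h1 => hv (h1 ▸ hwM)
          rw [hg.1.2 v hv, Function.update_of_ne hvw]
        · have h3 := hg.2 v hv
          by_cases hvw : v = w
          · subst hvw
            rw [Function.update_self, Function.update_self] at h3
            have h4 : |h v - 2 * s - h' v| = 0 := by
              have := abs_nonneg (h v - 2 * s - h' v)
              omega
            have h5 : a = c' v := by
              refine he ha (hc'.pal v hwS) ?_
              have h6 := hL.res v hwS
              rw [Function.update_self, Function.update_self] at h6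
              have h7 := hh'.res v hwS
              rw [← h6, ← h7]
              have := abs_eq_zero.1 h4
              congr 1
              omega
            rcases h3 (by rw [h4]; norm_num) with h8 | h8
            · right
              rw [h8, h5]
            · exact Or.inr h8
          · rw [Function.update_of_ne hvw, Function.update_of_ne hvw] at h3
            exact h3 hv2
      have h1 : WL (fun g => GF P S M X c g ∧ ∀ v ∈ M, |h v - h' v| ≤ 2 → g v = c v ∨ g v = c' v)
          1 c (Function.update c w a) :=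
        WL.single w a ⟨⟨hc, fun _ _ => rfl⟩, fun _ _ _ => Or.inl rfl⟩ (hconv _ hih.left)
      have h2 := h1.trans (hih.mono (le_refl m) hconv)
      rwa [Nat.add_comm] at h2

/-- Change of the identification of the three colours with `ZMod 3`: any two bijections of a
three element set with `ZMod 3` differ by an affine map `z ↦ ±z + z0`; take
`h' = ± h + k` with `k ∈ {-1, 0, 1}`. -/
theorem lift_change (P : Fin n → Finset (Fin n)) (S M : Finset (Fin n)) (X : Finset κ)
    (hX : X.card = 3) (e e' : κ → ZMod 3) (he : Set.InjOn e (X : Set κ))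
    (he' : Set.InjOn e' (X : Set κ)) (c : Fin n → κ) (hc : ∀ v ∈ S, c v ∈ X) (h : Fin n → ℤ)
    (hh : Lift P S M e c h) (H : ℕ) (hb : ∀ v ∈ S, |h v| ≤ H) :
    ∃ h' : Fin n → ℤ, Lift P S M e' c h' ∧ ∀ v ∈ S, |h' v| ≤ H + 1 := by
  have hsurj : ∀ z : ZMod 3, ∃ a ∈ X, e a = z := by
    have h1 : X.image e = Finset.univ := by
      apply Finset.eq_univ_of_card
      rw [Finset.card_image_of_injOn he, hX, ZMod.card]
    intro z
    have h2 : z ∈ X.image e := by rw [h1]; exact Finset.mem_univ _
    obtain ⟨a, ha, haz⟩ := Finset.mem_image.1 h2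
    exact ⟨a, ha, haz⟩
  choose f hfX hfe using hsurj
  have hσ : ∀ a ∈ X, e' (f (e a)) = e' a := by
    intro a ha
    rw [he (hfX _) ha (hfe _)]
  have hinj : ∀ z z' : ZMod 3, e' (f z) = e' (f z') → z = z' := by
    intro z z' h1
    have := he' (hfX z) (hfX z') h1
    rw [← hfe z, ← hfe z', this]
  have hdec : ∀ a b c : ZMod 3, a ≠ b → a ≠ c → b ≠ c →
      (b = 1 + a ∧ c = 2 + a) ∨ (b = -1 + a ∧ c = -2 + a) := by decide
  have hdec2 : ∀ z : ZMod 3, z = 0 ∨ z = 1 ∨ z = 2 := by decide
  obtain ⟨ε, hε, hεσ⟩ : ∃ ε : ℤ, (ε = 1 ∨ ε = -1) ∧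
      ∀ z : ZMod 3, e' (f z) = (ε : ZMod 3) * z + e' (f 0) := by
    rcases hdec (e' (f 0)) (e' (f 1)) (e' (f 2)) (fun h1 => absurd (hinj _ _ h1) (by decide))
      (fun h1 => absurd (hinj _ _ h1) (by decide)) (fun h1 => absurd (hinj _ _ h1) (by decide))
      with ⟨h1, h2⟩ | ⟨h1, h2⟩
    · refine ⟨1, Or.inl rfl, fun z => ?_⟩
      rcases hdec2 z with rfl | rfl | rfl
      · simp
      · rw [h1]; simp
      · rw [h2]; simp
    · refine ⟨-1, Or.inr rfl, fun z => ?_⟩
      rcases hdec2 z with rfl | rfl | rfl
      · simp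
      · rw [h1]; simp
      · rw [h2]; simp
  obtain ⟨k, hk, hkz⟩ : ∃ k : ℤ, |k| ≤ 1 ∧ (k : ZMod 3) = e' (f 0) := by
    rcases hdec2 (e' (f 0)) with h1 | h1 | h1
    · exact ⟨0, by norm_num, by rw [h1]; simp⟩
    · exact ⟨1, by norm_num, by rw [h1]; simp⟩
    · exact ⟨-1, by norm_num, by rw [h1]; decide⟩
  have hεabs : |ε| = 1 := by rcases hε with rfl | rfl <;> norm_num
  refine ⟨fun v => ε * h v + k, ⟨?_, ?_⟩, ?_⟩
  · intro v hv
    push_cast
    rw [hkz, hh.res v hv, ← hεσ, hσ _ (hc v hv)]
  · intro v hv p hp hpS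
    have h1 : ε * h v + k - (ε * h p + k) = ε * (h v - h p) := by ring
    rw [h1, abs_mul, hεabs, hh.adj v hv p hp hpS]
    norm_num
  · intro v hv
    refine (abs_add_le _ _).trans ?_
    rw [abs_mul, hεabs, one_mul]
    have := hb v hv
    linarith

end Pool.Agent.C91
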