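import Pool.Agent.W_700a23_h91.Basic

/-! Kernels, greedy colourings, toggling an independent set (MP_700a23_co). -/

set_option autoImplicit false

namespace Pool.Agent.C91

open Finset

variable {n : ℕ} {κ : Type*} [DecidableEq κ]

/-- Kernels exist. PROOF: `rec_exists` with `α = Prop`: for `v ∈ M` put
`inB v := ∀ p ∈ P v, p ∈ S → ¬ inB p` (here `p < v` by `hP`), for `v ∈ S \ M` put `inB v := ρ v`,
and `False` for `v ∉ S`; `B := S.filter inB` (classical). -/
theorem ker_exists (P : Fin n → Finset (Fin n)) (hP : ∀ v, ∀ p ∈ P v, p < v)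
    (S M : Finset (Fin n)) (hM : M ⊆ S) (ρ : Fin n → Prop) : ∃ B, IsKer P S M ρ B := by
  classical
  obtain ⟨f, hf⟩ := rec_exists (α := Prop) (n := n) (fun v ih =>
    (v ∈ M ∧ ∀ (p : Fin n) (hp : p ∈ P v), p ∈ S → ¬ ih p (hP v p hp)) ∨ (v ∉ M ∧ ρ v))
  refine ⟨S.filter f, Finset.filter_subset _ _, fun r hr hrM => ?_, fun v hv => ?_⟩
  · rw [Finset.mem_filter, hf r]
    constructor
    · rintro ⟨-, h | h⟩
      · exact absurd h.1 hrM
      · exact h.2
    · exact fun h => ⟨hr, Or.inr ⟨hrM, h⟩⟩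
  · rw [Finset.mem_filter, hf v]
    constructor
    · rintro ⟨-, h | h⟩ p hp hpS hpB
      · exact h.2 p hp hpS (Finset.mem_filter.1 hpB).2
      · exact h.1 hv
    · exact fun h => ⟨hM hv, Or.inl ⟨hv, fun p hp hpS hfp =>
        h p hp hpS (Finset.mem_filter.2 ⟨hpS, hfp⟩)⟩⟩

theorem IsKer.par_notMem {P : Fin n → Finset (Fin n)} {S M B : Finset (Fin n)} {ρ : Fin n → Prop}
    (h : IsKer P S M ρ B) {v p : Fin n} (hv : v ∈ M) (hB : v ∈ B) (hp : p ∈ P v) : p ∉ B := by
  exact fun hpB => (h.fol v hv).1 hB p hp (h.sub hpB) hpB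

theorem IsKer.exists_par {P : Fin n → Finset (Fin n)} {S M B : Finset (Fin n)} {ρ : Fin n → Prop}
    (h : IsKer P S M ρ B) {v : Fin n} (hv : v ∈ M) (hB : v ∉ B) : ∃ p ∈ P v, p ∈ S ∧ p ∈ B := by
  by_contra hc
  exact hB ((h.fol v hv).2 fun p hp hpS hpB => hc ⟨p, hp, hpS, hpB⟩)

/-- the `s`-class of a good `s`-full colouring is the kernel of the roots coloured `s` -/
theorem IsKer.of_full {P : Fin n → Finset (Fin n)} {S M : Finset (Fin n)} (hM : M ⊆ S)
    {X : Finset κ} {c : Fin n → κ} {s : κ} (hc : Good P S M X c) (hf : Full P S M c s) :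
    IsKer P S M (fun r => c r = s) (S.filter (fun v => c v = s)) := by
  refine ⟨Finset.filter_subset _ _, fun r hr _ => ?_, fun v hv => ?_⟩
  · rw [Finset.mem_filter]
    exact ⟨fun h => h.2, fun h => ⟨hr, h⟩⟩
  · constructor
    · intro h p hp hpS hpB
      exact hc.prop v hv p hp hpS
        ((Finset.mem_filter.1 hpB).2.trans (Finset.mem_filter.1 h).2.symm)
    · intro h
      exact Finset.mem_filter.2 ⟨hM hv, hf v hv fun p hp hpS hcp =>
        h p hp hpS (Finset.mem_filter.2 ⟨hpS, hcp⟩)⟩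

/-- Greedy colouring of the followers, with a set `Fb v` of additional forbidden colours.
PROOF: `rec_exists` with `α = κ`: for `v ∈ M` choose a colour of `X` outside `Fb v` and outside the
image of `P v ∩ S` (cardinality), for `v ∉ M` take `c0 v`. -/
theorem greedy (P : Fin n → Finset (Fin n)) (hP : ∀ v, ∀ p ∈ P v, p < v)
    (S M : Finset (Fin n)) (X : Finset κ) (Fb : Fin n → Finset κ) (c0 : Fin n → κ)
    (hcard : ∀ v ∈ M, (P v ∩ S).card + (Fb v).card < X.card) :
    ∃ c : Fin n → κ, (∀ v, v ∉ M → c v = c0 v) ∧ (∀ v ∈ M, c v ∈ X ∧ c v ∉ Fb v) ∧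
      (∀ v ∈ M, ∀ p ∈ P v, p ∈ S → c p ≠ c v) := by
  classical
  obtain ⟨f, hf⟩ := rec_exists (α := κ) (n := n) (fun v ih =>
    if h : v ∈ M ∧ ∃ x, (x ∈ X ∧ x ∉ Fb v) ∧
      ∀ (p : Fin n) (hp : p ∈ P v), p ∈ S → ih p (hP v p hp) ≠ x then h.2.choose else c0 v)
  have hex : ∀ v ∈ M, ∃ x, (x ∈ X ∧ x ∉ Fb v) ∧
      ∀ (p : Fin n) (_ : p ∈ P v), p ∈ S → f p ≠ x := by
    intro v hv
    have h1 : (((P v ∩ S).image f) ∪ Fb v).card < X.card := by
      refine lt_of_le_of_lt (Finset.card_union_le _ _) (lt_of_le_of_lt ?_ (hcard v hv))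
      exact Nat.add_le_add_right Finset.card_image_le _
    obtain ⟨x, hx, hx'⟩ := Finset.exists_mem_notMem_of_card_lt_card h1
    rw [Finset.mem_union, not_or] at hx'
    refine ⟨x, ⟨hx, hx'.2⟩, fun p hp hpS h2 => hx'.1 ?_⟩
    rw [← h2]
    exact Finset.mem_image_of_mem f (Finset.mem_inter.2 ⟨hp, hpS⟩)
  have hspec : ∀ v ∈ M, (f v ∈ X ∧ f v ∉ Fb v) ∧
      ∀ (p : Fin n) (_ : p ∈ P v), p ∈ S → f p ≠ f v := by
    intro v hv
    have h1 := (⟨hv, hex v hv⟩ : v ∈ M ∧ ∃ x, (x ∈ X ∧ x ∉ Fb v) ∧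
      ∀ (p : Fin n) (_ : p ∈ P v), p ∈ S → f p ≠ x)
    have h2 : f v = h1.2.choose := by
      rw [hf v, dif_pos h1]
    rw [h2]
    exact h1.2.choose_spec
  refine ⟨f, fun v hv => ?_, fun v hv => (hspec v hv).1, fun v hv p hp hpS =>
    (hspec v hv).2 p hp hpS⟩
  rw [hf v, dif_neg fun h => hv h.1]

theorem Ker_toggle_good (P : Fin n → Finset (Fin n)) (S M : Finset (Fin n)) (X : Finset κ)
    (x c : Fin n → κ) (hc : GF P S M X x c) (Y : Finset (Fin n)) (hY : Y ⊆ M) (t : κ) (ht : t ∈ X)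
    (h1 : ∀ y ∈ Y, ∀ p ∈ P y, p ∈ S → p ∉ Y ∧ c p ≠ t)
    (h2 : ∀ v ∈ M, ∀ p ∈ P v, p ∈ Y → v ∉ Y ∧ c v ≠ t) (Z : Finset (Fin n)) (hZ : Z ⊆ Y) :
    GF P S M X x (fun v => if v ∈ Z then t else c v) := by
  refine ⟨⟨fun v hv => ?_, fun v hv p hp hpS => ?_⟩, fun v hv => ?_⟩
  · change (if v ∈ Z then t else c v) ∈ X
    by_cases hvZ : v ∈ Z
    · rw [if_pos hvZ]
      exact ht
    · rw [if_neg hvZ]
      exact hc.1.pal v hv
  · change (if p ∈ Z then t else c p) ≠ (if v ∈ Z then t else c v)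
    by_cases hpZ : p ∈ Z
    · by_cases hvZ : v ∈ Z
      · exact absurd (hZ hpZ) (h1 v (hZ hvZ) p hp hpS).1
      · rw [if_pos hpZ, if_neg hvZ]
        exact fun h => (h2 v hv p hp (hZ hpZ)).2 h.symm
    · by_cases hvZ : v ∈ Z
      · rw [if_neg hpZ, if_pos hvZ]
        exact (h1 v (hZ hvZ) p hp hpS).2
      · rw [if_neg hpZ, if_neg hvZ]
        exact hc.1.prop v hv p hp hpS
  · change (if v ∈ Z then t else c v) = x v
    rw [if_neg fun h => hv (hY (hZ h))]
    exact hc.2 v hv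

/-- Recolouring an independent set `Y` of followers with a colour `t` not used on its
neighbourhood. PROOF: induction on `Y` (generalising nothing else: prove for every `Z ⊆ Y` that
`WL G Z.card c (fun v => if v ∈ Z then t else c v)` by `Finset.induction_on`), each intermediate
colouring is good by `h1`, `h2`. -/
theorem toggle (P : Fin n → Finset (Fin n)) (S M : Finset (Fin n)) (hM : M ⊆ S) (X : Finset κ)
    (x c : Fin n → κ) (hc : GF P S M X x c) (Y : Finset (Fin n)) (hY : Y ⊆ M) (t : κ) (ht : t ∈ X)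
    (h1 : ∀ y ∈ Y, ∀ p ∈ P y, p ∈ S → p ∉ Y ∧ c p ≠ t)
    (h2 : ∀ v ∈ M, ∀ p ∈ P v, p ∈ Y → v ∉ Y ∧ c v ≠ t) :
    WL (GF P S M X x) Y.card c (fun v => if v ∈ Y then t else c v) := by
  have key : ∀ Z : Finset (Fin n), Z ⊆ Y →
      WL (GF P S M X x) Z.card c (fun v => if v ∈ Z then t else c v) := by
    intro Z
    induction Z using Finset.induction_on with
    | empty =>
      intro _
      have h : (fun v => if v ∈ (∅ : Finset (Fin n)) then t else c v) = c := by
        funext v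
        exact if_neg (Finset.notMem_empty v)
      rw [h]
      exact WL.refl hc _
    | insert a Z ha ih =>
      intro hZ
      have hZ' : Z ⊆ Y := fun z hz => hZ (Finset.mem_insert_of_mem hz)
      have h : (fun v => if v ∈ insert a Z then t else c v) =
          Function.update (fun v => if v ∈ Z then t else c v) a t := by
        funext v
        by_cases hv : v = a
        · rw [hv, Function.update_self]
          exact if_pos (Finset.mem_insert_self a Z)
        · rw [Function.update_of_ne hv]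
          by_cases hvZ : v ∈ Z
          · rw [if_pos hvZ, if_pos (Finset.mem_insert_of_mem hvZ)]
          · rw [if_neg hvZ, if_neg]
            rw [Finset.mem_insert, not_or]
            exact ⟨hv, hvZ⟩
      have h3 := Ker_toggle_good P S M X x c hc Y hY t ht h1 h2 (insert a Z) hZ
      rw [Finset.card_insert_of_notMem ha]
      rw [h] at h3 ⊢
      exact (ih hZ').trans (WL.single a t (ih hZ').right h3)
  exact key Y (fun _ h => h)

end Pool.Agent.C91
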