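import Pool.Agent.W_700a23_h91.Switch

/-! The U-process: fixing the followers one by one (MP_700a23_co). -/

set_option autoImplicit false

namespace Pool.Agent.C91

open Finset

variable {n : ℕ} {κ : Type*} [DecidableEq κ]

/-- U-PROCESS. `Nice M c s` is any class of good `s`-full colourings which allows switches of cost
`D` and is kept when the smallest follower (of colour `s`) becomes a root.
PROOF: induction on `M.card`. If `M = ∅` then `β = c`. Otherwise let `v` be the minimum of `M`,
`b = β v`; switch to a nice `c1` with full colour `b`. The parents of `v` are smaller, hence not in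
`M`, so `c1 p = c p = β p ≠ β v = b` for active parents `p`, and `c1 v = b` by fullness.
Apply the induction hypothesis to `M.erase v`, `c1`; colourings of `GF P S (M.erase v) X c1` are in
`GF P S M X c` because `v` keeps the colour `b` and its parents are frozen. -/
theorem uproc (P : Fin n → Finset (Fin n)) (hP : ∀ v, ∀ p ∈ P v, p < v) (S : Finset (Fin n))
    (X : Finset κ) (D : ℕ) (Nice : Finset (Fin n) → (Fin n → κ) → κ → Prop)
    (hgood : ∀ M c s, Nice M c s → Good P S M X c ∧ Full P S M c s)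
    (hsw : ∀ M c s t, M ⊆ S → Nice M c s → t ∈ X →
      ∃ c', Nice M c' t ∧ WL (GF P S M X c) D c c')
    (her : ∀ M c s v, M ⊆ S → Nice M c s → v ∈ M → (∀ w ∈ M, v ≤ w) → c v = s →
      Nice (M.erase v) c s)
    (M : Finset (Fin n)) (hM : M ⊆ S) (c : Fin n → κ) (s : κ) (hc : Nice M c s)
    (β : Fin n → κ) (hβ : Good P S M X β) (hβc : ∀ v, v ∉ M → β v = c v) :
    WL (GF P S M X c) (M.card * D) c β := by
  obtain ⟨m, hm⟩ : ∃ m, M.card = m := ⟨_, rfl⟩
  induction m generalizing M c s with
  | zero =>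
    have hM0 : M = ∅ := card_eq_zero.1 hm
    subst hM0
    have hcb : β = c := funext fun v => hβc v (by simp)
    subst hcb
    exact WL.refl ⟨hβ, fun v _ => rfl⟩ _
  | succ m ih =>
    have hne : M.Nonempty := card_pos.1 (by omega)
    obtain ⟨v, hvM, hmin⟩ : ∃ v ∈ M, ∀ w ∈ M, v ≤ w :=
      ⟨M.min' hne, M.min'_mem hne, fun w hw => M.min'_le w hw⟩
    have hbX : β v ∈ X := hβ.pal v (hM hvM)
    obtain ⟨c1, hn1, hw1⟩ := hsw M c s (β v) hM hc hbX
    obtain ⟨hg1, hf1⟩ := hgood M c1 _ hn1
    have hr1 : ∀ w, w ∉ M → c1 w = c w := hw1.right.2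
    have hpar : ∀ p ∈ P v, p ∉ M := fun p hp hpM =>
      absurd (hmin p hpM) (not_le.2 (hP v p hp))
    have hc1v : c1 v = β v := by
      refine hf1 v hvM (fun p hp hpS heq => ?_)
      have h1 := hβ.prop v hvM p hp hpS
      rw [hβc p (hpar p hp), ← hr1 p (hpar p hp)] at h1
      exact h1 heq
    have hn2 := her M c1 (β v) v hM hn1 hvM hmin hc1v
    have hcard : (M.erase v).card = m := by
      rw [card_erase_of_mem hvM, hm]; rfl
    have hβ' : Good P S (M.erase v) X β :=
      ⟨hβ.pal, fun w hw p hp hpS => hβ.prop w (mem_of_mem_erase hw) p hp hpS⟩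
    have hβc' : ∀ w, w ∉ M.erase v → β w = c1 w := by
      intro w hw
      by_cases hwv : w = v
      · rw [hwv, hc1v]
      · have hwM : w ∉ M := fun h => hw (mem_erase.2 ⟨hwv, h⟩)
        rw [hβc w hwM, hr1 w hwM]
    have h2 := ih (M.erase v) ((erase_subset _ _).trans hM) c1 (β v) hn2 hβ' hβc' hcard
    have h3 : WL (GF P S M X c) ((M.erase v).card * D) c1 β := by
      refine h2.mono le_rfl (fun e he => ?_)
      obtain ⟨heg, hee⟩ := he
      refine ⟨⟨heg.pal, fun w hw p hp hpS => ?_⟩, fun w hw => ?_⟩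
      · by_cases hwv : w = v
        · subst hwv
          have h4 : e p = c1 p := hee p (fun h => hpar p hp (mem_of_mem_erase h))
          have h5 : e w = c1 w := hee w (notMem_erase _ _)
          rw [h4, h5]
          exact hg1.prop w hw p hp hpS
        · exact heg.prop w (mem_erase.2 ⟨hwv, hw⟩) p hp hpS
      · rw [hee w (fun h => hw (mem_of_mem_erase h)), hr1 w hw]
    refine (hw1.trans h3).le (le_of_eq ?_)
    rw [hcard, hm]
    ring

/-- Level 0: no follower has an active parent, two colours; recolour the vertices one by one. -/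
theorem bd_zero (P : Fin n → Finset (Fin n)) : Bd κ P 0 n := by
  intro S M X hL c c' hc hc' hcc
  have hno : ∀ v ∈ M, ∀ p ∈ P v, p ∉ S := by
    intro v hv p hp hpS
    have h1 := hL.deg v hv
    have h2 : P v ∩ S = ∅ := card_eq_zero.1 (Nat.le_zero.1 h1)
    have h3 : p ∈ P v ∩ S := mem_inter.2 ⟨hp, hpS⟩
    rw [h2] at h3
    exact absurd h3 (notMem_empty _)
  have hgood : ∀ e : Fin n → κ, (∀ v ∈ S, e v ∈ X) → Good P S M X e := fun e he =>
    ⟨he, fun v hv p hp hpS => absurd hpS (hno v hv p hp)⟩
  have key : ∀ Z : Finset (Fin n), Z ⊆ M →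
      WL (GF P S M X c) Z.card c (fun v => if v ∈ Z then c' v else c v) := by
    intro Z
    induction Z using Finset.induction_on with
    | empty =>
      intro _
      have : (fun v => if v ∈ (∅ : Finset (Fin n)) then c' v else c v) = c := by
        funext v; simp
      rw [this]
      exact WL.refl ⟨hc, fun v _ => rfl⟩ _
    | insert z Z hz ih =>
      intro hZ
      have hzM : z ∈ M := hZ (mem_insert_self _ _)
      have ih' := ih ((subset_insert _ _).trans hZ)
      have hupd : (fun v => if v ∈ insert z Z then c' v else c v) =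
          Function.update (fun v => if v ∈ Z then c' v else c v) z (c' z) := by
        funext v
        by_cases hvz : v = z
        · subst hvz; simp
        · simp [Function.update_of_ne hvz, mem_insert, hvz]
      rw [hupd, card_insert_of_notMem hz]
      refine ih'.trans (WL.single z (c' z) ih'.right ?_)
      rw [← hupd]
      refine ⟨hgood _ (fun v hv => ?_), fun v hv => ?_⟩
      · by_cases hvZ : v ∈ insert z Z
        · simp only [hvZ, if_true]; exact hc'.pal v hv
        · simp only [hvZ, if_false]; exact hc.pal v hv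
      · have : v ∉ insert z Z := fun h => hv (hZ h)
        simp only [this, if_false]
  have h := key M (Subset.refl _)
  have hend : (fun v => if v ∈ M then c' v else c v) = c' := by
    funext v
    by_cases hv : v ∈ M
    · simp [hv]
    · simp [hv, hcc v hv]
  rw [hend] at h
  refine h.le ?_
  simpa using card_le_univ M

/-- `Bd` from a class of nice colourings: go to a common nice colouring `c0` (with the given root
colours) and use `uproc` twice (once reversed). -/
theorem bd_of_nice (P : Fin n → Finset (Fin n)) (hP : ∀ v, ∀ p ∈ P v, p < v) (S : Finset (Fin n))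
    (X : Finset κ) (D : ℕ) (Nice : Finset (Fin n) → (Fin n → κ) → κ → Prop)
    (hgood : ∀ M c s, Nice M c s → Good P S M X c ∧ Full P S M c s)
    (hsw : ∀ M c s t, M ⊆ S → Nice M c s → t ∈ X →
      ∃ c', Nice M c' t ∧ WL (GF P S M X c) D c c')
    (her : ∀ M c s v, M ⊆ S → Nice M c s → v ∈ M → (∀ w ∈ M, v ≤ w) → c v = s →
      Nice (M.erase v) c s)
    (M : Finset (Fin n)) (hM : M ⊆ S) (c0 : Fin n → κ) (s : κ) (hc0 : Nice M c0 s)
    (c c' : Fin n → κ) (hc : Good P S M X c) (hc' : Good P S M X c')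
    (h0 : ∀ v, v ∉ M → c v = c0 v) (h1 : ∀ v, v ∉ M → c' v = c0 v) :
    WL (GF P S M X c) (2 * (n * D)) c c' := by
  have hr : ∀ e, GF P S M X c0 e → GF P S M X c e := fun e he =>
    ⟨he.1, fun v hv => by rw [he.2 v hv, h0 v hv]⟩
  have w1 := uproc P hP S X D Nice hgood hsw her M hM c0 s hc0 c hc h0
  have w2 := uproc P hP S X D Nice hgood hsw her M hM c0 s hc0 c' hc' h1
  have hcard : M.card ≤ n := by simpa using card_le_univ M
  refine (w1.symm.trans w2).mono ?_ hr
  have := Nat.mul_le_mul_right D hcard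
  omega

/-- `N_{d+1} = 2 n (N_d + n)`: `Nice M c s := Lev P S M X (d+1) ∧ Good P S M X c ∧ s ∈ X ∧
Full P S M c s`, `switch_gen`, `full_exists`. -/
theorem bd_succ (P : Fin n → Finset (Fin n)) (hP : ∀ v, ∀ p ∈ P v, p < v) (d N : ℕ)
    (hB : Bd κ P d N) : Bd κ P (d + 1) (2 * (n * (N + n))) := by
  intro S M X hL c c' hc hc' hcc
  obtain ⟨s, hs⟩ : X.Nonempty := by
    rw [← card_pos, hL.pal]; omega
  obtain ⟨c0, hg0, hf0, h0⟩ := full_exists P hP d S M X hL c (fun v hv _ => hc.pal v hv) s hs
  refine bd_of_nice P hP S X (N + n)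
    (fun M c s => Lev P S M X (d + 1) ∧ Good P S M X c ∧ s ∈ X ∧ Full P S M c s)
    (fun M c s h => ⟨h.2.1, h.2.2.2⟩) ?_ ?_ M hL.sub c0 s ⟨hL, hg0, hs, hf0⟩ c c' hc hc'
    (fun v hv => (h0 v hv).symm) (fun v hv => by rw [h0 v hv, hcc v hv])
  · rintro M c s t - ⟨hL, hc, hs, hf⟩ ht
    obtain ⟨c', hc', hf', hw⟩ := switch_gen P hP d N hB S M X hL c hc s hs hf t ht
    exact ⟨c', ⟨hL, hc', ht, hf'⟩, hw⟩
  · rintro M c s v - ⟨hL, hc, hs, hf⟩ hv hmin hcv
    refine ⟨⟨(erase_subset _ _).trans hL.sub, fun w hw => hL.deg w (mem_of_mem_erase hw), hL.pal⟩,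
      ⟨hc.pal, fun w hw => hc.prop w (mem_of_mem_erase hw)⟩, hs,
      fun w hw => hf w (mem_of_mem_erase hw)⟩

end Pool.Agent.C91
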