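import Pool.Agent.W_700a23_h91.DKDouble
import Pool.Agent.W_700a23_h91.UProc
import Pool.Agent.W_700a23_h91.Forest

/-! Moving a root at level 2 (MP_700a23_co). -/

set_option autoImplicit false

namespace Pool.Agent.C91.MoveTwo

open Finset

open Pool.Agent.C91.DKDouble (double_kernel)

variable {n : ℕ} {κ : Type*} [DecidableEq κ]

/-- A set with four elements, three of which are given. -/
theorem four_eq {X : Finset κ} (hX : X.card = 4) {s t u : κ} (hs : s ∈ X) (ht : t ∈ X)
    (hu : u ∈ X) (hst : s ≠ t) (hsu : s ≠ u) (htu : t ≠ u) :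
    ∃ w, X = {s, t, u, w} ∧ s ≠ w ∧ t ≠ w ∧ u ≠ w := by
  have h1 : (((X.erase s).erase t).erase u).card = 1 := by
    rw [card_erase_of_mem, card_erase_of_mem, card_erase_of_mem hs, hX]
    · exact mem_erase.2 ⟨hst.symm, ht⟩
    · exact mem_erase.2 ⟨htu.symm, mem_erase.2 ⟨hsu.symm, hu⟩⟩
  obtain ⟨w, hw⟩ := card_eq_one.1 h1
  have hwm : w ∈ ((X.erase s).erase t).erase u := by rw [hw]; exact mem_singleton_self w
  rw [mem_erase, mem_erase, mem_erase] at hwm
  refine ⟨w, ?_, fun h => hwm.2.2.1 h.symm, fun h => hwm.2.1 h.symm, fun h => hwm.1 h.symm⟩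
  ext a
  simp only [mem_insert, mem_singleton]
  constructor
  · intro ha
    by_cases h2 : a = s
    · exact Or.inl h2
    by_cases h3 : a = t
    · exact Or.inr (Or.inl h3)
    by_cases h4 : a = u
    · exact Or.inr (Or.inr (Or.inl h4))
    refine Or.inr (Or.inr (Or.inr ?_))
    have h5 : a ∈ ((X.erase s).erase t).erase u :=
      mem_erase.2 ⟨h4, mem_erase.2 ⟨h3, mem_erase.2 ⟨h2, ha⟩⟩⟩
    rw [hw] at h5
    exact mem_singleton.1 h5
  · rintro (rfl | rfl | rfl | rfl)
    · exact hs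
    · exact ht
    · exact hu
    · exact hwm.2.2.2

/-- An injective map from a three element set to `ZMod 3` is surjective. -/
theorem surj_three {X : Finset κ} (hX : X.card = 3) {e : κ → ZMod 3}
    (he : Set.InjOn e (X : Set κ)) : ∀ z : ZMod 3, ∃ a ∈ X, e a = z := by
  have h1 : X.image e = Finset.univ := by
    apply Finset.eq_univ_of_card
    rw [Finset.card_image_of_injOn he, hX, ZMod.card]
  intro z
  have h2 : z ∈ X.image e := by rw [h1]; exact Finset.mem_univ _
  obtain ⟨a, ha, haz⟩ := Finset.mem_image.1 h2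
  exact ⟨a, ha, haz⟩

theorem move_two (P : Fin n → Finset (Fin n)) (hP : ∀ v, ∀ p ∈ P v, p < v)
    (S M : Finset (Fin n)) (X : Finset κ) (hL : Lev P S M X 2)
    (c : Fin n → κ) (hc : Good P S M X c) (s : κ) (hs : s ∈ X) (hf : Full P S M c s)
    (hbl : BL P S M X c s (HH n))
    (r : Fin n) (hrS : r ∈ S) (hrM : r ∉ M) (b : κ) (hb : b ∈ X) (hsr : s ≠ c r) (hsb : s ≠ b)
    (hrb : c r ≠ b) :
    ∃ c', Good P S M X c' ∧ Full P S M c' b ∧ BL P S M X c' b (HH n) ∧ c' r = b ∧
      WL (fun g => Good P S M X g ∧ (∀ v, v ∉ M → v ≠ r → g v = c v) ∧ (g r = c r ∨ g r = b))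
        (n * (2 * (HH n + 1) + 1) + n) c c' := by
  have hM : M ⊆ S := hL.sub
  have hcr : c r ∈ X := hc.pal r hrS
  obtain ⟨w, hX, hsw, hbw, hrw⟩ := four_eq hL.pal hs hb hcr hsb hsr hrb.symm
  set x' : Fin n → κ := Function.update c r b with hx'
  have hx'r : x' r = b := Function.update_self r b c
  have hx'n : ∀ v, v ≠ r → x' v = c v := fun v hv => Function.update_of_ne hv b c
  set A : Finset (Fin n) := S.filter (fun v => c v = s) with hAdef
  have hA0 : IsKer P S M (fun y => c y = s) A := IsKer.of_full hM hc hf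
  have hA : IsKer P S M (fun y => x' y = s) A := by
    refine ⟨hA0.sub, fun y hy hyM => ?_, hA0.fol⟩
    rw [hA0.root y hy hyM]
    by_cases hyr : y = r
    · subst hyr
      constructor
      · intro h; exact absurd h.symm hsr
      · intro h; rw [hx'r] at h; exact absurd h.symm hsb
    · rw [hx'n y hyr]
  have hmemA : ∀ v ∈ S, (v ∈ A ↔ c v = s) := fun v hv => by
    rw [hAdef, mem_filter]
    exact ⟨fun h => h.2, fun h => ⟨hv, h⟩⟩
  obtain ⟨B, hB⟩ := ker_exists P hP S M hM (fun y => x' y = b)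
  have hx'X : ∀ y ∈ S, y ∉ M → x' y ∈ X := by
    intro y hy _
    by_cases hyr : y = r
    · subst hyr; rw [hx'r]; exact hb
    · rw [hx'n y hyr]; exact hc.pal y hy
  obtain ⟨g, hgf, hgA, hgB, hgbl, hgbl'⟩ := double_kernel P hP S M hM hL.deg X s b (c r) w hX
    hsb hsr hsw hrb.symm hbw hrw x' hx'X A B hA hB
  have hgr : g r = b := by rw [hgf.2 r hrM, hx'r]
  have hgs : ∀ v ∈ S, (g v = s ↔ c v = s) := fun v hv => by rw [hgA v hv, hmemA v hv]
  -- the auxiliary instance
  have hlev := lev_filter P 1 S M X hL c s hs hf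
  set S' : Finset (Fin n) := S.filter (fun v => c v ≠ s) with hS'
  set M0 : Finset (Fin n) := M.filter (fun v => c v ≠ s) with hM0
  set M' : Finset (Fin n) := insert r M0 with hM'
  set P' : Fin n → Finset (Fin n) := Function.update P r ∅ with hP'def
  have hP'r : P' r = ∅ := Function.update_self r ∅ P
  have hP'n : ∀ v, v ≠ r → P' v = P v := fun v hv => Function.update_of_ne hv ∅ P
  have hneM : ∀ v ∈ M, v ≠ r := fun v hv h => hrM (h ▸ hv)
  have hM0M : ∀ v ∈ M0, v ∈ M ∧ c v ≠ s := fun v hv => mem_filter.1 hv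
  have hS'S : ∀ v ∈ S', v ∈ S ∧ c v ≠ s := fun v hv => mem_filter.1 hv
  have hrS' : r ∈ S' := mem_filter.2 ⟨hrS, hsr.symm⟩
  have hM'S' : M' ⊆ S' := by
    intro v hv
    rcases mem_insert.1 hv with rfl | hv
    · exact hrS'
    · exact mem_filter.2 ⟨hM (hM0M v hv).1, (hM0M v hv).2⟩
  have hP' : ∀ v, ∀ p ∈ P' v, p < v := by
    intro v p hp
    by_cases hvr : v = r
    · subst hvr; rw [hP'r] at hp; exact absurd hp (notMem_empty _)
    · rw [hP'n v hvr] at hp; exact hP v p hp
  have hdeg' : ∀ v ∈ M', (P' v ∩ S').card ≤ 1 := by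
    intro v hv
    rcases mem_insert.1 hv with rfl | hv
    · rw [hP'r, empty_inter, card_empty]; exact Nat.zero_le _
    · rw [hP'n v (hneM v (hM0M v hv).1)]; exact hlev.deg v hv
  have hcard3 : (X.erase s).card = 3 := by rw [card_erase_of_mem hs, hL.pal]
  -- the two colourings are good for it
  have hgood' : ∀ f : Fin n → κ, Good P S M X f → (∀ v ∈ S, (f v = s ↔ c v = s)) →
      Good P' S' M' (X.erase s) f := by
    intro f hfg hfs
    refine ⟨fun v hv => ?_, fun v hv p hp hpS => ?_⟩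
    · obtain ⟨h1, h2⟩ := hS'S v hv
      exact mem_erase.2 ⟨fun h => h2 ((hfs v h1).1 h), hfg.pal v h1⟩
    · rcases mem_insert.1 hv with rfl | hv
      · rw [hP'r] at hp; exact absurd hp (notMem_empty _)
      · have h1 := hM0M v hv
        rw [hP'n v (hneM v h1.1)] at hp
        exact hfg.prop v h1.1 p hp (hS'S p hpS).1
  have hgood_c : Good P' S' M' (X.erase s) c := hgood' c hc (fun v _ => Iff.rfl)
  have hgood_g : Good P' S' M' (X.erase s) g := hgood' g hgf.1 hgs
  -- lifts
  have hlift' : ∀ (e : κ → ZMod 3) (f : Fin n → κ) (h : Fin n → ℤ), Lift P S' M0 e f h →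
      Lift P' S' M' e f h := by
    intro e f h hh
    refine ⟨hh.res, fun v hv p hp hpS => ?_⟩
    rcases mem_insert.1 hv with rfl | hv
    · rw [hP'r] at hp; exact absurd hp (notMem_empty _)
    · rw [hP'n v (hneM v (hM0M v hv).1)] at hp
      exact hh.adj v hv p hp hpS
  obtain ⟨e', hg, he', hgl, hgH⟩ := hgbl
  have hSg : S.filter (fun v => g v ≠ s) = S' := by
    refine filter_congr fun v hv => ?_
    rw [not_iff_not, hgs v hv]
  have hMg : M.filter (fun v => g v ≠ s) = M0 := by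
    refine filter_congr fun v hv => ?_
    rw [not_iff_not, hgs v (hM hv)]
  rw [hSg, hMg] at hgl
  obtain ⟨e, h0, he, hcl, hcH⟩ := hbl
  have hcX : ∀ v ∈ S', c v ∈ X.erase s := fun v hv =>
    mem_erase.2 ⟨(hS'S v hv).2, hc.pal v (hS'S v hv).1⟩
  obtain ⟨h1, hl1, hb1⟩ := lift_change P S' M0 (X.erase s) hcard3 e e' he he' c hcX h0 hcl (HH n)
    (fun v hv => hcH v (hS'S v hv).1 (hS'S v hv).2)
  have hfr : ∀ v, v ∉ M' → c v = g v := by
    intro v hv
    have hvr : v ≠ r := fun h => hv (h ▸ mem_insert_self _ _)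
    by_cases hvM : v ∈ M
    · by_cases hcv : c v = s
      · rw [hcv]; exact ((hgs v (hM hvM)).2 hcv).symm
      · exact absurd (mem_insert_of_mem (mem_filter.2 ⟨hvM, hcv⟩)) hv
    · rw [hgf.2 v hvM, hx'n v hvr]
  have hwalk := forest_walk P' hP' S' M' hM'S' hdeg' (X.erase s) e' he' (surj_three hcard3 he')
    c g hgood_c hgood_g hfr h1 hg (hlift' e' c h1 hl1) (hlift' e' g hg hgl) (HH n + 1)
    (fun v hv => by have := hb1 v hv; push_cast; exact this)
    (fun v hv => by
      have h2 := hgH v (hS'S v hv).1 (fun h => (hS'S v hv).2 ((hgs v (hS'S v hv).1).1 h))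
      push_cast
      linarith)
  -- transport
  have htr : ∀ f, (GF P' S' M' (X.erase s) c f ∧ ∀ v ∈ M', P' v ∩ S' = ∅ → f v = c v ∨ f v = g v) →
      (Good P S M X f ∧ (∀ v, v ∉ M → v ≠ r → f v = c v) ∧ (f r = c r ∨ f r = b)) := by
    rintro f ⟨⟨hfg, hff⟩, hfr'⟩
    have hfM : ∀ v, v ∉ M → v ≠ r → f v = c v := by
      intro v hv hvr
      refine hff v (fun h => ?_)
      rcases mem_insert.1 h with h | h
      · exact hvr h
      · exact hv (hM0M v h).1
    have hfs : ∀ v, c v = s → f v = s := by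
      intro v hv
      rw [hff v, hv]
      intro h
      rcases mem_insert.1 h with h | h
      · rw [h] at hv; exact hsr hv.symm
      · exact (hM0M v h).2 hv
    refine ⟨⟨fun v hv => ?_, fun v hv p hp hpS => ?_⟩, hfM, ?_⟩
    · by_cases hcv : c v = s
      · rw [hfs v hcv]; exact hs
      · exact mem_of_mem_erase (hfg.pal v (mem_filter.2 ⟨hv, hcv⟩))
    · have hvr := hneM v hv
      by_cases hcv : c v = s
      · have hcp : c p ≠ s := fun h => hc.prop v hv p hp hpS (h.trans hcv.symm)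
        rw [hfs v hcv]
        exact (mem_erase.1 (hfg.pal p (mem_filter.2 ⟨hpS, hcp⟩))).1
      · have hvM0 : v ∈ M0 := mem_filter.2 ⟨hv, hcv⟩
        by_cases hcp : c p = s
        · rw [hfs p hcp]
          exact (mem_erase.1 (hfg.pal v (hM'S' (mem_insert_of_mem hvM0)))).1.symm
        · exact hfg.prop v (mem_insert_of_mem hvM0) p (by rw [hP'n v hvr]; exact hp)
            (mem_filter.2 ⟨hpS, hcp⟩)
    · have h2 := hfr' r (mem_insert_self _ _) (by rw [hP'r, empty_inter])
      rwa [hgr] at h2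
  have hwalk1 := hwalk.mono le_rfl htr
  -- the second half
  have hfin := switch_finish P S M hM X s b hsb hb x' g hgf A B hA hB hgA hgB
  obtain ⟨hwalk2, hfull, -⟩ := hfin
  have htr2 : ∀ f, GF P S M X x' f →
      (Good P S M X f ∧ (∀ v, v ∉ M → v ≠ r → f v = c v) ∧ (f r = c r ∨ f r = b)) := by
    rintro f ⟨hfg, hff⟩
    refine ⟨hfg, fun v hv hvr => ?_, Or.inr ?_⟩
    · rw [hff v hv, hx'n v hvr]
    · rw [hff r hrM, hx'r]
  refine ⟨fun v => if v ∈ M ∩ A ∩ B then b else g v, hwalk2.right.1, hfull, hgbl', ?_,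
    hwalk1.trans (hwalk2.mono le_rfl htr2)⟩
  have hrn : r ∉ M ∩ A ∩ B := fun h => hrM (mem_inter.1 (mem_inter.1 h).1).1
  simp only [hrn, if_false]
  exact hgr

end Pool.Agent.C91.MoveTwo
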