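import Pool.Agent.W_700a23_h91.Switch

/-! Moving a root at a general level (MP_700a23_co). -/

set_option autoImplicit false

namespace Pool.Agent.C91

open Finset

variable {n : ℕ} {κ : Type*} [DecidableEq κ]

/-- MOVE OF A ROOT, general level. PROOF. Outside the class `A` of `s` we have a level `d` instance
with palette `X.erase s` (`lev_filter`). By `greedy` (forbidden set `{b}` for the followers having
`r` as a parent, `∅` else: at most `d + 1 < d + 2` blocked colours) there is a good colouring `g` of
it with the same roots such that no follower with parent `r` has colour `b`. Walk `c → g` (`hB`,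
`good_lift`). Change `r` to `b`: still good (followers with parent `r` avoid `b`; `A` has colour `s`),
still `s`-full. Then `switch_gen` to `b` (new root colours). -/
theorem MoveGen_move_gen (P : Fin n → Finset (Fin n)) (hP : ∀ v, ∀ p ∈ P v, p < v) (d N : ℕ)
    (hB : Bd κ P d N) (S M : Finset (Fin n)) (X : Finset κ) (hL : Lev P S M X (d + 1))
    (c : Fin n → κ) (hc : Good P S M X c) (s : κ) (hs : s ∈ X) (hf : Full P S M c s)
    (r : Fin n) (hrS : r ∈ S) (hrM : r ∉ M) (b : κ) (hb : b ∈ X) (hsr : s ≠ c r) (hsb : s ≠ b)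
    (hrb : c r ≠ b) :
    ∃ c', Good P S M X c' ∧ Full P S M c' b ∧ c' r = b ∧
      WL (fun g => Good P S M X g ∧ (∀ v, v ∉ M → v ≠ r → g v = c v) ∧ (g r = c r ∨ g r = b))
        (2 * N + n + 1) c c' := by
  classical
  have hL' := lev_filter P d S M X hL c s hs hf
  have hcG : Good P (S.filter (fun v => c v ≠ s)) (M.filter (fun v => c v ≠ s)) (X.erase s) c := by
    refine ⟨fun v hv => ?_, fun v hv p hp hpS => ?_⟩
    · exact Finset.mem_erase.2 ⟨(Finset.mem_filter.1 hv).2, hc.pal v (Finset.mem_filter.1 hv).1⟩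
    · exact hc.prop v (Finset.mem_filter.1 hv).1 p hp (Finset.mem_filter.1 hpS).1
  obtain ⟨g, hg0, hg1, hg2⟩ := greedy P hP (S.filter (fun v => c v ≠ s))
    (M.filter (fun v => c v ≠ s)) (X.erase s) (fun v => if r ∈ P v then {b} else ∅) c (by
      intro v hv
      have h1 := hL'.deg v hv
      have h2 : (if r ∈ P v then ({b} : Finset κ) else ∅).card ≤ 1 := by
        split_ifs
        · rw [Finset.card_singleton]
        · rw [Finset.card_empty]
          exact Nat.zero_le 1
      have h3 := hL'.pal
      rw [h3]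
      exact lt_of_le_of_lt (Nat.add_le_add h1 h2) (Nat.lt_succ_self _))
  have hgG : Good P (S.filter (fun v => c v ≠ s)) (M.filter (fun v => c v ≠ s)) (X.erase s) g := by
    refine ⟨fun v hv => ?_, hg2⟩
    by_cases hvM : v ∈ M.filter (fun v => c v ≠ s)
    · exact (hg1 v hvM).1
    · rw [hg0 v hvM]
      exact hcG.pal v hv
  have w0 := hB (S.filter (fun v => c v ≠ s)) (M.filter (fun v => c v ≠ s)) (X.erase s) hL' c g
    hcG hgG (fun v hv => (hg0 v hv).symm)
  have w1 : WL (GF P S M X c) N c g :=
    w0.mono (le_refl N) (fun e he => good_lift P S M hL.sub X c hc s e he)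
  have hgGF : GF P S M X c g := w1.right
  have hgr : g r = c r := hgGF.2 r hrM
  have hnotM' : ∀ v, c v = s → v ∉ M.filter (fun v => c v ≠ s) := fun v hv h =>
    (Finset.mem_filter.1 h).2 hv
  have hg'r : Function.update g r b r = b := Function.update_self r b g
  have hg'v : ∀ v, v ≠ r → Function.update g r b v = g v := fun v hv =>
    Function.update_of_ne hv b g
  have hg'G : Good P S M X (Function.update g r b) := by
    refine ⟨fun v hv => ?_, fun v hv p hp hpS => ?_⟩
    · by_cases hvr : v = r
      · rw [hvr, hg'r]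
        exact hb
      · rw [hg'v v hvr]
        exact hgGF.1.pal v hv
    · have hvr : v ≠ r := fun h => hrM (h ▸ hv)
      rw [hg'v v hvr]
      by_cases hpr : p = r
      · rw [hpr, hg'r]
        by_cases hcv : c v = s
        · rw [hg0 v (hnotM' v hcv), hcv]
          exact fun h => hsb h.symm
        · have h1 := (hg1 v (Finset.mem_filter.2 ⟨hv, hcv⟩)).2
          have h2 : r ∈ P v := hpr ▸ hp
          rw [if_pos h2, Finset.mem_singleton] at h1
          exact fun h => h1 h.symm
      · rw [hg'v p hpr]
        exact hgGF.1.prop v hv p hp hpS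
  have hg'F : Full P S M (Function.update g r b) s := by
    intro v hv h
    have hvr : v ≠ r := fun h => hrM (h ▸ hv)
    have hcv : c v = s := by
      refine hf v hv fun p hp hpS hcp => ?_
      have hpr : p ≠ r := fun h => hsr (by rw [← h]; exact hcp.symm)
      refine h p hp hpS ?_
      rw [hg'v p hpr, hg0 p (hnotM' p hcp)]
      exact hcp
    rw [hg'v v hvr, hg0 v (hnotM' v hcv)]
    exact hcv
  obtain ⟨c', hc'G, hc'F, w3⟩ := switch_gen P hP d N hB S M X hL (Function.update g r b) hg'G s hs
    hg'F b hb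
  have hc'r : c' r = b := by
    rw [w3.right.2 r hrM]
    exact hg'r
  refine ⟨c', hc'G, hc'F, hc'r, ?_⟩
  have v1 : WL (fun g => Good P S M X g ∧ (∀ v, v ∉ M → v ≠ r → g v = c v) ∧
      (g r = c r ∨ g r = b)) N c g :=
    w1.mono (le_refl N) (fun e he => ⟨he.1, fun v hv _ => he.2 v hv, Or.inl (he.2 r hrM)⟩)
  have v2 : WL (fun g => Good P S M X g ∧ (∀ v, v ∉ M → v ≠ r → g v = c v) ∧
      (g r = c r ∨ g r = b)) 1 g (Function.update g r b) := by
    refine WL.single r b v1.right ⟨hg'G, fun v hv hvr => ?_, Or.inr hg'r⟩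
    rw [hg'v v hvr]
    exact hgGF.2 v hv
  have v3 : WL (fun g => Good P S M X g ∧ (∀ v, v ∉ M → v ≠ r → g v = c v) ∧
      (g r = c r ∨ g r = b)) (N + n) (Function.update g r b) c' := by
    refine w3.mono (le_refl _) (fun e he => ⟨he.1, fun v hv hvr => ?_, Or.inr ?_⟩)
    · rw [he.2 v hv, hg'v v hvr]
      exact hgGF.2 v hv
    · rw [he.2 r hrM]
      exact hg'r
  exact ((v1.trans v2).trans v3).le (by omega)

end Pool.Agent.C91
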