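import Pool.Agent.W_700a23_h91.DKDouble
import Pool.Agent.W_700a23_h91.MoveGen
import Pool.Agent.W_700a23_h91.L2MoveTwo
import Pool.Agent.W_700a23_h91.UProc
import Pool.Agent.W_700a23_h91.Forest

/-! Level 2: switches of cost `O(n log n)`, moves of roots (MP_700a23_co). -/

set_option autoImplicit false

namespace Pool.Agent.C91

open Finset

open Pool.Agent.C91.DKDouble (double_kernel)

variable {n : ℕ} {κ : Type*} [DecidableEq κ]

/-- cost of a switch at level 2 -/
def DD (n : ℕ) : ℕ := n * (2 * (HH n + 1) + 1) + n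

/-- a four element palette containing two given colours -/
theorem Level2_four {X : Finset κ} (hX : X.card = 4) {s t : κ} (hs : s ∈ X) (ht : t ∈ X)
    (hst : s ≠ t) : ∃ u w, X = {s, t, u, w} ∧ s ≠ u ∧ s ≠ w ∧ t ≠ u ∧ t ≠ w ∧ u ≠ w := by
  have h1 : ((X.erase s).erase t).card = 2 := by
    rw [card_erase_of_mem (mem_erase.2 ⟨hst.symm, ht⟩), card_erase_of_mem hs, hX]
  obtain ⟨u, w, huw, he⟩ := card_eq_two.1 h1
  have hu : u ∈ (X.erase s).erase t := by rw [he]; simp
  have hw : w ∈ (X.erase s).erase t := by rw [he]; simp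
  rw [mem_erase, mem_erase] at hu hw
  refine ⟨u, w, ?_, hu.2.1.symm, hw.2.1.symm, hu.1.symm, hw.1.symm, huw⟩
  rw [← he, insert_erase (mem_erase.2 ⟨hst.symm, ht⟩), insert_erase hs]

/-- a colour different from a given one -/
theorem Level2_other {X : Finset κ} (hX : X.card = 4) {s : κ} (hs : s ∈ X) : ∃ t ∈ X, s ≠ t := by
  have h1 : 0 < (X.erase s).card := by rw [card_erase_of_mem hs, hX]; norm_num
  obtain ⟨t, ht⟩ := card_pos.1 h1
  exact ⟨t, mem_of_mem_erase ht, (ne_of_mem_erase ht).symm⟩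

/-- an injective map from a three element set to `ZMod 3` is onto -/
theorem Level2_surj {X : Finset κ} (hX : X.card = 3) {e : κ → ZMod 3}
    (he : Set.InjOn e (X : Set κ)) (z : ZMod 3) : ∃ a ∈ X, e a = z := by
  have h1 : X.image e = Finset.univ := by
    apply Finset.eq_univ_of_card
    rw [Finset.card_image_of_injOn he, hX, ZMod.card]
  have h2 : z ∈ X.image e := by rw [h1]; exact Finset.mem_univ _
  obtain ⟨a, ha, haz⟩ := Finset.mem_image.1 h2
  exact ⟨a, ha, haz⟩

/-- Nice colourings exist at level 2 (`X` has four elements, write `X = {s, t, u, w}`; kernels from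
`ker_exists`, then `double_kernel`). -/
theorem start2 (P : Fin n → Finset (Fin n)) (hP : ∀ v, ∀ p ∈ P v, p < v)
    (S M : Finset (Fin n)) (X : Finset κ) (hL : Lev P S M X 2) (x : Fin n → κ)
    (hx : ∀ r ∈ S, r ∉ M → x r ∈ X) (s : κ) (hs : s ∈ X) :
    ∃ c, GF P S M X x c ∧ Full P S M c s ∧ BL P S M X c s (HH n) := by
  obtain ⟨t, ht, hst⟩ := Level2_other hL.pal hs
  obtain ⟨u, w, hX, hsu, hsw, htu, htw, huw⟩ := Level2_four hL.pal hs ht hst
  obtain ⟨A, hA⟩ := ker_exists P hP S M hL.sub (fun r => x r = s)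
  obtain ⟨B, hB⟩ := ker_exists P hP S M hL.sub (fun r => x r = t)
  obtain ⟨c, hg, hcA, -, hb, -⟩ := double_kernel P hP S M hL.sub hL.deg X s t u w hX hst hsu hsw
    htu htw huw x hx A B hA hB
  refine ⟨c, hg, fun v hv hp => ?_, hb⟩
  refine (hcA v (hL.sub hv)).2 ((hA.fol v hv).2 (fun p hpP hpS hpA => ?_))
  exact hp p hpP hpS ((hcA p hpS).2 hpA)

/-- SWITCH AT LEVEL 2 (for `s = t` take `c' = c`). `A` = class of `s` (a kernel, `IsKer.of_full`),
`B` = kernel of `t`; `double_kernel` with `x = c` gives `g`; outside the class of `s` (same class for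
`c` and `g`) both have lifts, for `g` with some identification `e'` bounded by `HH n`, for `c` with `e`;
`lift_change` gives a lift of `c` with `e'`, bounded by `HH n + 1`. `forest_walk` in the instance
`(S.filter (c · ≠ s), M.filter (c · ≠ s), X.erase s)` (one parent: `lev_filter` with `d = 1` applies),
transported by `good_lift`; then `switch_finish`. -/
theorem switch2 (P : Fin n → Finset (Fin n)) (hP : ∀ v, ∀ p ∈ P v, p < v)
    (S M : Finset (Fin n)) (X : Finset κ) (hL : Lev P S M X 2) (c : Fin n → κ)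
    (hc : Good P S M X c) (s : κ) (hs : s ∈ X) (hf : Full P S M c s) (hb : BL P S M X c s (HH n))
    (t : κ) (ht : t ∈ X) :
    ∃ c', Good P S M X c' ∧ Full P S M c' t ∧ BL P S M X c' t (HH n) ∧
      WL (GF P S M X c) (DD n) c c' := by
  by_cases hst : s = t
  · subst hst
    exact ⟨c, hc, hf, hb, WL.refl ⟨hc, fun _ _ => rfl⟩ _⟩
  have hM := hL.sub
  obtain ⟨u, w, hX, hsu, hsw, htu, htw, huw⟩ := Level2_four hL.pal hs ht hst
  have hA := IsKer.of_full hM hc hf
  obtain ⟨B, hB⟩ := ker_exists P hP S M hM (fun r => c r = t)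
  obtain ⟨g, hg, hgA, hgB, hbl, hbl2⟩ := double_kernel P hP S M hM hL.deg X s t u w hX hst hsu hsw
    htu htw huw c (fun r hr _ => hc.pal r hr) (S.filter (fun v => c v = s)) B hA hB
  have hgs : ∀ v ∈ S, (g v = s ↔ c v = s) := by
    intro v hv
    rw [hgA v hv, mem_filter]
    exact ⟨fun h => h.2, fun h => ⟨hv, h⟩⟩
  have hSe : S.filter (fun v => g v ≠ s) = S.filter (fun v => c v ≠ s) :=
    filter_congr fun v hv => not_congr (hgs v hv)
  have hMe : M.filter (fun v => g v ≠ s) = M.filter (fun v => c v ≠ s) :=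
    filter_congr fun v hv => not_congr (hgs v (hM hv))
  have hc3 : (X.erase s).card = 3 := by rw [card_erase_of_mem hs, hL.pal]
  obtain ⟨e, h, he, hh, hbd⟩ := hb
  obtain ⟨e', h', he', hh', hbd'⟩ := hbl
  rw [hSe, hMe] at hh'
  have hL1 := lev_filter P 1 S M X hL c s hs hf
  have hpalc : ∀ v ∈ S.filter (fun v => c v ≠ s), c v ∈ X.erase s := fun v hv =>
    mem_erase.2 ⟨(mem_filter.1 hv).2, hc.pal v (mem_filter.1 hv).1⟩
  obtain ⟨h1, hh1, hbd1⟩ := lift_change P _ _ (X.erase s) hc3 e e' he he' c hpalc h hh (HH n)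
    (fun v hv => hbd v (mem_filter.1 hv).1 (mem_filter.1 hv).2)
  have hgc : Good P (S.filter (fun v => c v ≠ s)) (M.filter (fun v => c v ≠ s)) (X.erase s) c :=
    ⟨hpalc, fun v hv p hp hpS => hc.prop v (mem_filter.1 hv).1 p hp (mem_filter.1 hpS).1⟩
  have hgg : Good P (S.filter (fun v => c v ≠ s)) (M.filter (fun v => c v ≠ s)) (X.erase s) g := by
    refine ⟨fun v hv => ?_, fun v hv p hp hpS =>
      hg.1.prop v (mem_filter.1 hv).1 p hp (mem_filter.1 hpS).1⟩
    have hvS := (mem_filter.1 hv).1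
    exact mem_erase.2 ⟨fun h2 => (mem_filter.1 hv).2 ((hgs v hvS).1 h2), hg.1.pal v hvS⟩
  have hfr : ∀ v, v ∉ M.filter (fun v => c v ≠ s) → c v = g v := by
    intro v hv
    by_cases hvM : v ∈ M
    · have h2 : c v = s := by
        by_contra h3
        exact hv (mem_filter.2 ⟨hvM, h3⟩)
      rw [h2, (hgs v (hM hvM)).2 h2]
    · exact (hg.2 v hvM).symm
  have hw := forest_walk P hP _ _ hL1.sub hL1.deg (X.erase s) e' he' (Level2_surj hc3 he') c g
    hgc hgg hfr h1 h' hh1 hh' (HH n + 1) (fun v hv => by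
      have := hbd1 v hv
      push_cast
      exact this) (fun v hv => by
      have := hbd' v (mem_filter.1 hv).1 (fun h2 => (mem_filter.1 hv).2
        ((hgs v (mem_filter.1 hv).1).1 h2))
      push_cast
      linarith)
  have hw' : WL (GF P S M X c) (n * (2 * (HH n + 1) + 1)) c g :=
    hw.mono le_rfl (fun f hf' => good_lift P S M hM X c hc s f hf'.1)
  obtain ⟨hw2, hf2, -⟩ := switch_finish P S M hM X s t hst ht c g hg _ B hA hB hgA hgB
  exact ⟨_, hw2.right.1, hf2, hbl2, hw'.trans hw2⟩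

/-- Bound at level 2: `bd_of_nice` with `Nice M c s := Lev P S M X 2 ∧ Good P S M X c ∧ s ∈ X ∧
Full P S M c s ∧ BL P S M X c s (HH n)`. -/
theorem bd_two (P : Fin n → Finset (Fin n)) (hP : ∀ v, ∀ p ∈ P v, p < v) :
    Bd κ P 2 (2 * (n * DD n)) := by
  intro S M X hL c c' hc hc' hcc
  obtain ⟨s, hs⟩ : X.Nonempty := by
    rw [← card_pos, hL.pal]; omega
  obtain ⟨c0, hg0, hf0, hb0⟩ := start2 P hP S M X hL c (fun r hr _ => hc.pal r hr) s hs
  refine bd_of_nice P hP S X (DD n)
    (fun M c s => Lev P S M X 2 ∧ Good P S M X c ∧ s ∈ X ∧ Full P S M c s ∧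
      BL P S M X c s (HH n))
    (fun M c s h => ⟨h.2.1, h.2.2.2.1⟩) ?_ ?_ M hL.sub c0 s ⟨hL, hg0.1, hs, hf0, hb0⟩ c c' hc hc'
    (fun v hv => (hg0.2 v hv).symm) (fun v hv => by rw [hg0.2 v hv, hcc v hv])
  · rintro M c s t - ⟨hL, hc, hs, hf, hb⟩ ht
    obtain ⟨c', hc', hf', hb', hw⟩ := switch2 P hP S M X hL c hc s hs hf hb t ht
    exact ⟨c', ⟨hL, hc', ht, hf', hb'⟩, hw⟩
  · rintro M c s v - ⟨hL, hc, hs, hf, e, h, he, hh, hbd⟩ hv hmin hcv
    refine ⟨⟨(erase_subset _ _).trans hL.sub, fun w hw => hL.deg w (mem_of_mem_erase hw), hL.pal⟩,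
      ⟨hc.pal, fun w hw => hc.prop w (mem_of_mem_erase hw)⟩, hs,
      fun w hw => hf w (mem_of_mem_erase hw), e, h, he, ⟨hh.res, fun w hw => ?_⟩, hbd⟩
    have hw' := mem_filter.1 hw
    exact hh.adj w (mem_filter.2 ⟨mem_of_mem_erase hw'.1, hw'.2⟩)

/-- MOVE OF A ROOT, general level. PROOF. Outside the class `A` of `s` we have a level `d` instance
with palette `X.erase s` (`lev_filter`). By `greedy` (forbidden set `{b}` for the followers having
`r` as a parent, `∅` else: at most `d + 1 < d + 2` blocked colours) there is a good colouring `g` of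
it with the same roots such that no follower with parent `r` has colour `b`. Walk `c → g` (`hB`,
`good_lift`). Change `r` to `b`: still good (followers with parent `r` avoid `b`; `A` has colour `s`),
still `s`-full. Then `switch_gen` to `b` (new root colours). -/
theorem move_gen (P : Fin n → Finset (Fin n)) (hP : ∀ v, ∀ p ∈ P v, p < v) (d N : ℕ)
    (hB : Bd κ P d N) (S M : Finset (Fin n)) (X : Finset κ) (hL : Lev P S M X (d + 1))
    (c : Fin n → κ) (hc : Good P S M X c) (s : κ) (hs : s ∈ X) (hf : Full P S M c s)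
    (r : Fin n) (hrS : r ∈ S) (hrM : r ∉ M) (b : κ) (hb : b ∈ X) (hsr : s ≠ c r) (hsb : s ≠ b)
    (hrb : c r ≠ b) :
    ∃ c', Good P S M X c' ∧ Full P S M c' b ∧ c' r = b ∧
      WL (fun g => Good P S M X g ∧ (∀ v, v ∉ M → v ≠ r → g v = c v) ∧ (g r = c r ∨ g r = b))
        (2 * N + n + 1) c c' := by
  exact MoveGen_move_gen P hP d N hB S M X hL c hc s hs hf r hrS hrM b hb hsr hsb hrb

/-- MOVE OF A ROOT, level 2. PROOF. `x' := update c r b`. `A` = class of `s`, also the kernel of `s`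
for `x'`; `B` = kernel of `b` for `x'` (it contains `r`). `double_kernel` with `x'`, `(s, b)` gives `g`
with `g r = b`. Let `P' := Function.update P r ∅`. In the instance `S' = S.filter (c · ≠ s)`,
`M' = insert r (M.filter (c · ≠ s))`, palette `X.erase s`, parents `P'`, both `c` and `g` are good
with lifts (`lift_change` for `c`), and `r` is a follower without active parents, so `forest_walk`
gives a walk on which `r` only has the colours `c r` and `b`. It is transported to `(S, M)` as in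
`good_lift`. Then `switch_finish` (with `x'`). -/
theorem move_two (P : Fin n → Finset (Fin n)) (hP : ∀ v, ∀ p ∈ P v, p < v)
    (S M : Finset (Fin n)) (X : Finset κ) (hL : Lev P S M X 2)
    (c : Fin n → κ) (hc : Good P S M X c) (s : κ) (hs : s ∈ X) (hf : Full P S M c s)
    (hbl : BL P S M X c s (HH n))
    (r : Fin n) (hrS : r ∈ S) (hrM : r ∉ M) (b : κ) (hb : b ∈ X) (hsr : s ≠ c r) (hsb : s ≠ b)
    (hrb : c r ≠ b) :
    ∃ c', Good P S M X c' ∧ Full P S M c' b ∧ BL P S M X c' b (HH n) ∧ c' r = b ∧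
      WL (fun g => Good P S M X g ∧ (∀ v, v ∉ M → v ≠ r → g v = c v) ∧ (g r = c r ∨ g r = b))
        (DD n) c c' := by
  exact MoveTwo.move_two P hP S M X hL c hc s hs hf hbl r hrS hrM b hb hsr hsb hrb

end Pool.Agent.C91
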