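import Pool.Agent.W_700a23_h91.Ker

/-! The switch of the full colour at a general level (MP_700a23_co). -/

set_option autoImplicit false

namespace Pool.Agent.C91

open Finset

variable {n : ℕ} {κ : Type*} [DecidableEq κ]

/-- The colouring `κ` used in the switch: `t` on the kernel of `t` outside the class of `s`, the
rest coloured with the other colours.
PROOF. Let `A = S.filter (c · = s)`, `F = S \ A`, `MF = M \ A`, `B` the kernel (`ker_exists`) of the
roots of colour `t` in `(S, M)`. Start from `c0 v = t` on `MF ∩ B`, `c v` elsewhere, and colour the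
followers `MF \ B` greedily (`greedy`, `Fb = ∅`) inside the active set `F \ B` with palette
`(X.erase s).erase t` (`d + 1` colours): a follower outside `A` has a parent in `A` (`Full`), hence at
most `d` parents in `F`. Checks: followers in `B` have no parent in `B` and a root of `F` has colour
`t` iff it is in `B`. -/
theorem switch_target (P : Fin n → Finset (Fin n)) (hP : ∀ v, ∀ p ∈ P v, p < v) (d : ℕ)
    (S M : Finset (Fin n)) (X : Finset κ) (hL : Lev P S M X (d + 1)) (c : Fin n → κ)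
    (hc : Good P S M X c) (s : κ) (hs : s ∈ X) (hf : Full P S M c s) (t : κ) (ht : t ∈ X)
    (hst : s ≠ t) (B : Finset (Fin n)) (hB : IsKer P S M (fun r => c r = t) B) :
    ∃ g : Fin n → κ,
      Good P (S.filter (fun v => c v ≠ s)) (M.filter (fun v => c v ≠ s)) (X.erase s) g ∧
      (∀ v, v ∉ M.filter (fun v => c v ≠ s) → g v = c v) ∧
      (∀ v ∈ S, c v ≠ s → (g v = t ↔ v ∈ B)) := by
  classical
  obtain ⟨F, hF⟩ : ∃ F : Finset (Fin n), F = S.filter (fun v => c v ≠ s) := ⟨_, rfl⟩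
  obtain ⟨MF, hMF⟩ : ∃ MF : Finset (Fin n), MF = M.filter (fun v => c v ≠ s) := ⟨_, rfl⟩
  rw [← hF, ← hMF]
  have memF : ∀ v, v ∈ F ↔ v ∈ S ∧ c v ≠ s := fun v => by rw [hF, Finset.mem_filter]
  have memMF : ∀ v, v ∈ MF ↔ v ∈ M ∧ c v ≠ s := fun v => by rw [hMF, Finset.mem_filter]
  have hcard : ∀ v ∈ MF \ B, (P v ∩ (F \ B)).card + (∅ : Finset κ).card
      < ((X.erase s).erase t).card := by
    intro v hv
    rw [Finset.mem_sdiff, memMF] at hv
    have h1 : ((X.erase s).erase t).card = d + 1 := by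
      rw [Finset.card_erase_of_mem (Finset.mem_erase.2 ⟨hst.symm, ht⟩),
        Finset.card_erase_of_mem hs, hL.pal]
      omega
    have h2 : ∃ p ∈ P v, p ∈ S ∧ c p = s := by
      by_contra hcon
      push Not at hcon
      exact hv.1.2 (hf v hv.1.1 hcon)
    obtain ⟨p, hp1, hp2, hp3⟩ := h2
    have h3 : P v ∩ (F \ B) ⊂ P v ∩ S := by
      refine (Finset.ssubset_iff_of_subset ?_).2 ⟨p, Finset.mem_inter.2 ⟨hp1, hp2⟩, ?_⟩
      · intro q hq
        rw [Finset.mem_inter, Finset.mem_sdiff, memF] at hq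
        exact Finset.mem_inter.2 ⟨hq.1, hq.2.1.1⟩
      · intro hq
        rw [Finset.mem_inter, Finset.mem_sdiff, memF] at hq
        exact hq.2.1.2 hp3
    have h4 := Finset.card_lt_card h3
    have h5 := hL.deg v hv.1.1
    rw [h1, Finset.card_empty]
    omega
  obtain ⟨g, hg1, hg2, hg3⟩ := greedy P hP (F \ B) (MF \ B) ((X.erase s).erase t) (fun _ => ∅)
    (fun v => if v ∈ MF ∧ v ∈ B then t else c v) hcard
  -- values of g
  have v1 : ∀ v, v ∈ MF → v ∈ B → g v = t := by
    intro v h1 h2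
    rw [hg1 v (by rw [Finset.mem_sdiff]; tauto), if_pos ⟨h1, h2⟩]
  have v2 : ∀ v, v ∉ MF → g v = c v := by
    intro v h1
    rw [hg1 v (by rw [Finset.mem_sdiff]; tauto), if_neg (by tauto)]
  have v3 : ∀ v, v ∈ MF → v ∉ B → g v ≠ t ∧ g v ≠ s ∧ g v ∈ X := by
    intro v h1 h2
    have h3 := (hg2 v (Finset.mem_sdiff.2 ⟨h1, h2⟩)).1
    rw [Finset.mem_erase, Finset.mem_erase] at h3
    exact ⟨h3.1, h3.2.1, h3.2.2⟩
  have vt : ∀ v ∈ S, c v ≠ s → (g v = t ↔ v ∈ B) := by
    intro v h1 h2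
    by_cases hM : v ∈ M
    · by_cases hb : v ∈ B
      · exact ⟨fun _ => hb, fun _ => v1 v ((memMF v).2 ⟨hM, h2⟩) hb⟩
      · exact ⟨fun h => absurd h (v3 v ((memMF v).2 ⟨hM, h2⟩) hb).1, fun h => absurd h hb⟩
    · rw [v2 v (fun h => hM ((memMF v).1 h).1)]
      exact (hB.root v h1 hM).symm
  refine ⟨g, ⟨?_, ?_⟩, v2, vt⟩
  · intro v hv
    rw [memF] at hv
    by_cases hM : v ∈ MF
    · by_cases hb : v ∈ B
      · rw [v1 v hM hb]
        exact Finset.mem_erase.2 ⟨hst.symm, ht⟩
      · exact Finset.mem_erase.2 (v3 v hM hb).2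
    · rw [v2 v hM]
      exact Finset.mem_erase.2 ⟨hv.2, hc.pal v hv.1⟩
  · intro v hv p hp hpF
    have hv' := (memMF v).1 hv
    have hpF' := (memF p).1 hpF
    by_cases hb : v ∈ B
    · have hpB : p ∉ B := hB.par_notMem hv'.1 hb hp
      rw [v1 v hv hb]
      intro h
      exact hpB ((vt p hpF'.1 hpF'.2).1 h)
    · by_cases hpB : p ∈ B
      · rw [(vt p hpF'.1 hpF'.2).2 hpB]
        exact (v3 v hv hb).1.symm
      · exact hg3 v (Finset.mem_sdiff.2 ⟨hv, hb⟩) p hp (Finset.mem_sdiff.2 ⟨hpF, hpB⟩)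

/-- A level `d + 1` instance with an `s`-full colouring gives a level `d` instance outside the
class of `s`. -/
theorem lev_filter (P : Fin n → Finset (Fin n)) (d : ℕ)
    (S M : Finset (Fin n)) (X : Finset κ) (hL : Lev P S M X (d + 1)) (c : Fin n → κ)
    (s : κ) (hs : s ∈ X) (hf : Full P S M c s) :
    Lev P (S.filter (fun v => c v ≠ s)) (M.filter (fun v => c v ≠ s)) (X.erase s) d := by
  refine ⟨?_, ?_, ?_⟩
  · exact Finset.filter_subset_filter _ hL.sub
  · intro v hv
    rw [Finset.mem_filter] at hv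
    have h2 : ∃ p ∈ P v, p ∈ S ∧ c p = s := by
      by_contra hcon
      push Not at hcon
      exact hv.2 (hf v hv.1 hcon)
    obtain ⟨p, hp1, hp2, hp3⟩ := h2
    have h3 : P v ∩ (S.filter (fun v => c v ≠ s)) ⊂ P v ∩ S := by
      refine (Finset.ssubset_iff_of_subset ?_).2 ⟨p, Finset.mem_inter.2 ⟨hp1, hp2⟩, ?_⟩
      · intro q hq
        rw [Finset.mem_inter, Finset.mem_filter] at hq
        exact Finset.mem_inter.2 ⟨hq.1, hq.2.1⟩
      · intro hq
        rw [Finset.mem_inter, Finset.mem_filter] at hq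
        exact hq.2.2 hp3
    have h4 := Finset.card_lt_card h3
    have h5 := hL.deg v hv.1
    omega
  · rw [Finset.card_erase_of_mem hs, hL.pal]
    omega

/-- Good colourings of the instance outside the class of `s` are good for the whole instance. -/
theorem good_lift (P : Fin n → Finset (Fin n)) (S M : Finset (Fin n)) (hM : M ⊆ S) (X : Finset κ)
    (c : Fin n → κ) (hc : Good P S M X c) (s : κ) (e : Fin n → κ)
    (he : GF P (S.filter (fun v => c v ≠ s)) (M.filter (fun v => c v ≠ s)) (X.erase s) c e) :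
    GF P S M X c e := by
  obtain ⟨he1, he2⟩ := he
  have hcv : ∀ v, c v = s → e v = s := by
    intro v hv
    rw [he2 v (by rw [Finset.mem_filter]; tauto), hv]
  have hne : ∀ v ∈ S, c v ≠ s → e v ≠ s ∧ e v ∈ X := by
    intro v hv hvs
    have := he1.pal v (Finset.mem_filter.2 ⟨hv, hvs⟩)
    exact Finset.mem_erase.1 this
  refine ⟨⟨?_, ?_⟩, ?_⟩
  · intro v hv
    by_cases h : c v = s
    · rw [hcv v h, ← h]
      exact hc.pal v hv
    · exact (hne v hv h).2
  · intro v hv p hp hpS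
    by_cases h : c v = s
    · by_cases h' : c p = s
      · exact absurd (h'.trans h.symm) (hc.prop v hv p hp hpS)
      · rw [hcv v h]
        exact (hne p hpS h').1
    · by_cases h' : c p = s
      · rw [hcv p h']
        exact (hne v (hM hv) h).1.symm
      · exact he1.prop v (Finset.mem_filter.2 ⟨hv, h⟩) p hp (Finset.mem_filter.2 ⟨hpS, h'⟩)
  · intro v hv
    exact he2 v (by rw [Finset.mem_filter]; tauto)

/-- The class of `s` can be turned into `t` on the kernel of `t`: second half of the switch.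
`e` is good for `(S, M)`, its `s`-class is `A` (a kernel), its `t`-class is `B \ A`. Then the
followers of `A ∩ B` can be moved to `t`. Use `toggle` with `Y = M ∩ A ∩ B`; parents and children
of `Y` are outside `A` and `B`. -/
theorem switch_finish (P : Fin n → Finset (Fin n)) (S M : Finset (Fin n)) (hM : M ⊆ S)
    (X : Finset κ) (s t : κ) (hst : s ≠ t) (ht : t ∈ X) (x e : Fin n → κ)
    (he : GF P S M X x e) (A B : Finset (Fin n))
    (hA : IsKer P S M (fun r => x r = s) A) (hB : IsKer P S M (fun r => x r = t) B)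
    (heA : ∀ v ∈ S, (e v = s ↔ v ∈ A)) (heB : ∀ v ∈ S, v ∉ A → (e v = t ↔ v ∈ B)) :
    WL (GF P S M X x) n e (fun v => if v ∈ M ∩ A ∩ B then t else e v) ∧
    Full P S M (fun v => if v ∈ M ∩ A ∩ B then t else e v) t ∧
    (∀ v ∈ S, ((if v ∈ M ∩ A ∩ B then t else e v) = t ↔ v ∈ B)) := by
  have hmemY : ∀ v, v ∈ M ∩ A ∩ B ↔ (v ∈ M ∧ v ∈ A) ∧ v ∈ B := by
    intro v
    rw [Finset.mem_inter, Finset.mem_inter]
  have third : ∀ v ∈ S, ((if v ∈ M ∩ A ∩ B then t else e v) = t ↔ v ∈ B) := by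
    intro v hv
    by_cases hY : v ∈ M ∩ A ∩ B
    · rw [if_pos hY]
      exact ⟨fun _ => ((hmemY v).1 hY).2, fun _ => rfl⟩
    · rw [if_neg hY]
      by_cases hvA : v ∈ A
      · rw [(heA v hv).2 hvA]
        refine ⟨fun h => absurd h hst, fun hvB => ?_⟩
        have hvM : v ∉ M := fun h => hY ((hmemY v).2 ⟨⟨h, hvA⟩, hvB⟩)
        have h1 := (hA.root v hv hvM).1 hvA
        have h2 := (hB.root v hv hvM).1 hvB
        exact h1.symm.trans h2
      · exact heB v hv hvA
  refine ⟨?_, ?_, third⟩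
  · have hw := toggle P S M hM X x e he (M ∩ A ∩ B)
      (fun v hv => ((hmemY v).1 hv).1.1) t ht ?_ ?_
    · refine hw.le ?_
      have := Finset.card_le_univ (M ∩ A ∩ B)
      rwa [Fintype.card_fin] at this
    · intro y hy p hp hpS
      obtain ⟨⟨hyM, hyA⟩, hyB⟩ := (hmemY y).1 hy
      have h1 := hA.par_notMem hyM hyA hp
      have h2 := hB.par_notMem hyM hyB hp
      refine ⟨fun h => h2 ((hmemY p).1 h).2, fun h => h2 ((heB p hpS h1).1 h)⟩
    · intro v hv p hp hpY
      obtain ⟨⟨hpM, hpA⟩, hpB⟩ := (hmemY p).1 hpY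
      have h1 : v ∉ A := fun h => (hA.fol v hv).1 h p hp (hM hpM) hpA
      have h2 : v ∉ B := fun h => (hB.fol v hv).1 h p hp (hM hpM) hpB
      refine ⟨fun h => h2 ((hmemY v).1 h).2, fun h => h2 ((heB v (hM hv) h1).1 h)⟩
  · intro v hv hpar
    refine (third v (hM hv)).2 ((hB.fol v hv).2 fun p hp hpS hpB => ?_)
    exact hpar p hp hpS ((third p hpS).2 hpB)

/-- SWITCH at level `d + 1`. If `s = t` take `c' = c`. Otherwise `switch_target` (with `B` from
`ker_exists`), the bound `hB` in the instance of `lev_filter` (walk transported by `good_lift`),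
then `switch_finish` with `A = S.filter (c · = s)` (`IsKer.of_full`). -/
theorem switch_gen (P : Fin n → Finset (Fin n)) (hP : ∀ v, ∀ p ∈ P v, p < v) (d N : ℕ)
    (hB : Bd κ P d N) (S M : Finset (Fin n)) (X : Finset κ) (hL : Lev P S M X (d + 1))
    (c : Fin n → κ) (hc : Good P S M X c) (s : κ) (hs : s ∈ X) (hf : Full P S M c s)
    (t : κ) (ht : t ∈ X) :
    ∃ c', Good P S M X c' ∧ Full P S M c' t ∧ WL (GF P S M X c) (N + n) c c' := by
  by_cases hst : s = t
  · subst hst
    exact ⟨c, hc, hf, WL.refl ⟨hc, fun _ _ => rfl⟩ _⟩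
  obtain ⟨B, hBk⟩ := ker_exists P hP S M hL.sub (fun r => c r = t)
  obtain ⟨g, hg1, hg2, hg3⟩ := switch_target P hP d S M X hL c hc s hs hf t ht hst B hBk
  have hgood : Good P (S.filter (fun v => c v ≠ s)) (M.filter (fun v => c v ≠ s)) (X.erase s) c := by
    refine ⟨?_, ?_⟩
    · intro v hv
      rw [Finset.mem_filter] at hv
      exact Finset.mem_erase.2 ⟨hv.2, hc.pal v hv.1⟩
    · intro v hv p hp hpS
      rw [Finset.mem_filter] at hv hpS
      exact hc.prop v hv.1 p hp hpS.1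
  have hw := hB _ _ _ (lev_filter P d S M X hL c s hs hf) c g hgood hg1
    (fun v hv => (hg2 v hv).symm)
  have hw' : WL (GF P S M X c) N c g :=
    hw.mono le_rfl (fun e he => good_lift P S M hL.sub X c hc s e he)
  have hAk := IsKer.of_full hL.sub hc hf
  have hA1 : ∀ v ∈ S, (g v = s ↔ v ∈ S.filter (fun v => c v = s)) := by
    intro v hv
    rw [Finset.mem_filter]
    by_cases h : c v = s
    · rw [hg2 v (by rw [Finset.mem_filter]; tauto)]
      tauto
    · have h1 := Finset.mem_erase.1 (hg1.pal v (Finset.mem_filter.2 ⟨hv, h⟩))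
      exact ⟨fun h2 => absurd h2 h1.1, fun h2 => absurd h2.2 h⟩
  have hA2 : ∀ v ∈ S, v ∉ S.filter (fun v => c v = s) → (g v = t ↔ v ∈ B) := by
    intro v hv hvA
    exact hg3 v hv fun h => hvA (Finset.mem_filter.2 ⟨hv, h⟩)
  obtain ⟨f1, f2, f3⟩ := switch_finish P S M hL.sub X s t hst ht c g hw'.right
    (S.filter (fun v => c v = s)) B hAk hBk hA1 hA2
  exact ⟨_, f1.right.1, f2, hw'.trans f1⟩

/-- Full good colourings exist: `s` on the kernel of `s`, greedy (palette `X.erase s`) outside. -/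
theorem full_exists (P : Fin n → Finset (Fin n)) (hP : ∀ v, ∀ p ∈ P v, p < v) (d : ℕ)
    (S M : Finset (Fin n)) (X : Finset κ) (hL : Lev P S M X (d + 1)) (x : Fin n → κ)
    (hx : ∀ v ∈ S, v ∉ M → x v ∈ X) (s : κ) (hs : s ∈ X) :
    ∃ c, Good P S M X c ∧ Full P S M c s ∧ ∀ v, v ∉ M → c v = x v := by
  classical
  obtain ⟨B, hB⟩ := ker_exists P hP S M hL.sub (fun r => x r = s)
  have hcard : ∀ v ∈ M \ B, (P v ∩ S).card + (∅ : Finset κ).card < (X.erase s).card := by
    intro v hv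
    rw [Finset.mem_sdiff] at hv
    have := hL.deg v hv.1
    rw [Finset.card_empty, Finset.card_erase_of_mem hs, hL.pal]
    omega
  obtain ⟨g, hg1, hg2, hg3⟩ := greedy P hP S (M \ B) (X.erase s) (fun _ => ∅)
    (fun v => if v ∈ M ∧ v ∈ B then s else x v) hcard
  have v1 : ∀ v, v ∈ M → v ∈ B → g v = s := by
    intro v h1 h2
    rw [hg1 v (by rw [Finset.mem_sdiff]; tauto), if_pos ⟨h1, h2⟩]
  have v2 : ∀ v, v ∉ M → g v = x v := by
    intro v h1
    rw [hg1 v (by rw [Finset.mem_sdiff]; tauto), if_neg (by tauto)]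
  have v3 : ∀ v, v ∈ M → v ∉ B → g v ≠ s ∧ g v ∈ X := by
    intro v h1 h2
    exact Finset.mem_erase.1 (hg2 v (Finset.mem_sdiff.2 ⟨h1, h2⟩)).1
  have vt : ∀ v ∈ S, (g v = s ↔ v ∈ B) := by
    intro v h1
    by_cases hM : v ∈ M
    · by_cases hb : v ∈ B
      · exact ⟨fun _ => hb, fun _ => v1 v hM hb⟩
      · exact ⟨fun h => absurd h (v3 v hM hb).1, fun h => absurd h hb⟩
    · rw [v2 v hM]
      exact (hB.root v h1 hM).symm
  refine ⟨g, ⟨?_, ?_⟩, ?_, v2⟩
  · intro v hv
    by_cases hM : v ∈ M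
    · by_cases hb : v ∈ B
      · rw [v1 v hM hb]
        exact hs
      · exact (v3 v hM hb).2
    · rw [v2 v hM]
      exact hx v hv hM
  · intro v hv p hp hpS
    by_cases hb : v ∈ B
    · have hpB : p ∉ B := hB.par_notMem hv hb hp
      rw [v1 v hv hb]
      intro h
      exact hpB ((vt p hpS).1 h)
    · exact hg3 v (Finset.mem_sdiff.2 ⟨hv, hb⟩) p hp hpS
  · intro v hv hpar
    refine (vt v (hL.sub hv)).2 ((hB.fol v hv).2 fun p hp hpS hpB => ?_)
    exact hpar p hp hpS ((vt p hpS).2 hpB)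

end Pool.Agent.C91
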